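import Pool.Agent.Helper253.Geom

set_option autoImplicit false

namespace Pool.Agent.Helper253

open Quaternion Topology Set
open scoped ContDiff
open Net

/-- Smooth angle functions for smooth unit complex functions on the plane. -/
theorem exists_smooth_angle {w : ℂ → ℂ} (hw : ContDiff ℝ ∞ w) (h1 : ∀ z, ‖w z‖ = 1) :
    ∃ σ : ℂ → ℝ, ContDiff ℝ ∞ σ ∧ ∀ z, w z = ei (σ z) := by
  have h0 : ∀ z, w z ≠ 0 := fun z h => by
    have := h1 z
    rw [h, norm_zero] at this
    exact zero_ne_one this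
  obtain ⟨z₀, hz₀⟩ : ∃ z₀ : ℂ, Complex.exp z₀ = w 0 := ⟨_, Complex.exp_log (h0 _)⟩
  obtain ⟨G, ⟨-, hG⟩, -⟩ := Complex.isCoveringMapOn_exp.existsUnique_continuousMap_lifts
    (⟨w, hw.continuous⟩ : C(ℂ, ℂ)) (a₀ := 0) (e₀ := z₀) hz₀ (fun a => h0 a)
  have hG' : ∀ z, Complex.exp (G z) = w z := fun z => congrFun hG z
  have hGs : ContDiff ℝ ∞ (fun z => G z) := by
    rw [contDiff_iff_contDiffAt]
    intro z
    have hlog : ContDiffAt ℝ ∞ Complex.log (w z / w z) := by
      have h2 : w z / w z ∈ Complex.slitPlane := by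
        rw [div_self (h0 z)]; exact Complex.one_mem_slitPlane
      exact (Complex.contDiffAt_log h2).restrict_scalars ℝ
    have hdiv : ContDiffAt ℝ ∞ (fun y => w y / w z) z := hw.contDiffAt.div_const _
    have hc : ContDiffAt ℝ ∞ (fun y => G z + Complex.log (w y / w z)) z :=
      contDiffAt_const.add (ContDiffAt.comp (g := Complex.log) z hlog hdiv)
    refine hc.congr_of_eventuallyEq ?_
    have hcont : ContinuousAt (fun y => (G y - G z).im) z :=
      (Complex.continuous_im.comp (G.continuous.sub continuous_const)).continuousAt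
    have h3 : ∀ᶠ y in 𝓝 z, (G y - G z).im < Real.pi :=
      hcont.eventually (gt_mem_nhds (by simpa using Real.pi_pos))
    have h4 : ∀ᶠ y in 𝓝 z, -Real.pi < (G y - G z).im :=
      hcont.eventually (lt_mem_nhds (by simpa using Real.pi_pos))
    filter_upwards [h3, h4] with y hy1 hy2
    rw [← hG' y, ← hG' z, ← Complex.exp_sub, Complex.log_exp hy2 hy1.le]
    ring
  refine ⟨fun z => (G z).im, Complex.imCLM.contDiff.comp hGs, fun z => ?_⟩
  have h2 : ‖w z‖ = Real.exp (G z).re := by rw [← hG', Complex.norm_exp]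
  rw [h1] at h2
  have h3 : (G z).re = 0 := by
    rw [← Real.exp_eq_one_iff]; exact h2.symm
  rw [ei, ← hG']
  congr 1
  apply Complex.ext
  · simp [h3]
  · simp

/-- Bounded differential for an angle whose double is periodic on the circle. -/
theorem bounded_angle {θ : ℂ → ℝ} (hθ : ContDiff ℝ ∞ θ) {l1 l2 : ℂ} (hl : cr l1 l2 ≠ 0)
    (hc1 : Function.Periodic (fun z => Real.cos (2 * θ z)) l1)
    (hc2 : Function.Periodic (fun z => Real.cos (2 * θ z)) l2)
    (hs1 : Function.Periodic (fun z => Real.sin (2 * θ z)) l1)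
    (hs2 : Function.Periodic (fun z => Real.sin (2 * θ z)) l2) :
    ∃ K, ∀ z, ‖fderiv ℝ θ z‖ ≤ K := by
  have h2 : ContDiff ℝ ∞ (fun z => 2 * θ z) := contDiff_const.mul hθ
  have hper : ∀ {g : ℂ → ℝ} {l : ℂ}, Function.Periodic g l →
      Function.Periodic (fun z => fderiv ℝ g z) l := by
    intro g l hg z
    have h := fderiv_comp_add_right (𝕜 := ℝ) (f := g) (x := z) l
    have h3 : (fun x => g (x + l)) = g := funext hg
    rw [h3] at h
    exact h.symm
  obtain ⟨C1, hC1⟩ := bounded_of_periodic ((h2.cos.fderiv_right (m := ∞) (by simp)).continuous) hl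
    (hper hc1) (hper hc2)
  obtain ⟨C2, hC2⟩ := bounded_of_periodic ((h2.sin.fderiv_right (m := ∞) (by simp)).continuous) hl
    (hper hs1) (hper hs2)
  refine ⟨C1 + C2, fun z => ?_⟩
  apply ContinuousLinearMap.opNorm_le_bound
  · exact add_nonneg ((norm_nonneg _).trans (hC1 z)) ((norm_nonneg _).trans (hC2 z))
  · intro v
    have e1 := dd_cos h2 v z
    have e2 := dd_sin h2 v z
    have e3 : dd v (fun z => 2 * θ z) z = 2 * dd v θ z := by
      unfold dd
      rw [fderiv_const_mul (hθ.differentiable (by simp) z)]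
      simp
    have e4 : dd v θ z = (1 / 2) * (-Real.sin (2 * θ z) * dd v (fun z => Real.cos (2 * θ z)) z +
        Real.cos (2 * θ z) * dd v (fun z => Real.sin (2 * θ z)) z) := by
      rw [e1, e2, e3]
      have := Real.sin_sq_add_cos_sq (2 * θ z)
      linear_combination (-(dd v θ z)) * this
    have b1 : |dd v (fun z => Real.cos (2 * θ z)) z| ≤ C1 * ‖v‖ := by
      have := (fderiv ℝ (fun z => Real.cos (2 * θ z)) z).le_opNorm v
      exact this.trans (mul_le_mul_of_nonneg_right (hC1 z) (norm_nonneg _))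
    have b2 : |dd v (fun z => Real.sin (2 * θ z)) z| ≤ C2 * ‖v‖ := by
      have := (fderiv ℝ (fun z => Real.sin (2 * θ z)) z).le_opNorm v
      exact this.trans (mul_le_mul_of_nonneg_right (hC2 z) (norm_nonneg _))
    show ‖dd v θ z‖ ≤ _
    rw [e4, Real.norm_eq_abs, abs_mul]
    have b3 : |-Real.sin (2 * θ z) * dd v (fun z => Real.cos (2 * θ z)) z +
        Real.cos (2 * θ z) * dd v (fun z => Real.sin (2 * θ z)) z| ≤ C1 * ‖v‖ + C2 * ‖v‖ := by
      refine (abs_add_le _ _).trans (add_le_add ?_ ?_)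
      · rw [abs_mul, abs_neg]
        calc |Real.sin (2 * θ z)| * |dd v (fun z => Real.cos (2 * θ z)) z| ≤
            1 * (C1 * ‖v‖) := mul_le_mul (Real.abs_sin_le_one _) b1 (abs_nonneg _) zero_le_one
          _ = C1 * ‖v‖ := one_mul _
      · rw [abs_mul]
        calc |Real.cos (2 * θ z)| * |dd v (fun z => Real.sin (2 * θ z)) z| ≤
            1 * (C2 * ‖v‖) := mul_le_mul (Real.abs_cos_le_one _) b2 (abs_nonneg _) zero_le_one
          _ = C2 * ‖v‖ := one_mul _
    have b4 : |(1 / 2 : ℝ)| = 1 / 2 := by norm_num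
    rw [b4]
    have b5 := abs_nonneg (-Real.sin (2 * θ z) * dd v (fun z => Real.cos (2 * θ z)) z +
        Real.cos (2 * θ z) * dd v (fun z => Real.sin (2 * θ z)) z)
    nlinarith

namespace Imm

variable (S : Imm)

noncomputable def H (z : ℂ) : ℝ := (S.c 1 1 z + S.c Complex.I Complex.I z) / 2

noncomputable def r (z : ℂ) : ℝ := Real.sqrt (1 + S.H z ^ 2)

theorem H_smooth : ContDiff ℝ ∞ S.H :=
  ((S.c_smooth _ _).add (S.c_smooth _ _)).div_const _

theorem r_pos (z : ℂ) : 0 < S.r z := Real.sqrt_pos.2 (by positivity)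

theorem r_sq (z : ℂ) : S.r z ^ 2 = 1 + S.H z ^ 2 := Real.sq_sqrt (by positivity)

theorem r_smooth : ContDiff ℝ ∞ S.r := by
  have h : ContDiff ℝ ∞ (fun z => 1 + S.H z ^ 2) := contDiff_const.add (S.H_smooth.pow 2)
  exact h.sqrt (fun z => by positivity)

noncomputable def om (z : ℂ) : ℝ := Real.pi / 2 - Real.arctan (S.H z)

theorem om_smooth : ContDiff ℝ ∞ S.om := contDiff_const.sub (Real.contDiff_arctan.comp S.H_smooth)

theorem sin_om (z : ℂ) : Real.sin (S.om z) = 1 / S.r z := by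
  rw [om, Real.sin_pi_div_two_sub, Real.cos_arctan]; rfl

theorem cos_om (z : ℂ) : Real.cos (S.om z) = S.H z / S.r z := by
  rw [om, Real.cos_pi_div_two_sub, Real.sin_arctan]; rfl

theorem om_pos (z : ℂ) : 0 < S.om z := by
  have := Real.arctan_lt_pi_div_two (S.H z)
  unfold om; linarith

theorem om_lt (z : ℂ) : S.om z < Real.pi := by
  have := Real.neg_pi_div_two_lt_arctan (S.H z)
  unfold om; linarith

noncomputable def ex (z : ℂ) : ℝ := -(S.c 1 1 z - S.c Complex.I Complex.I z) / (2 * S.r z)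
noncomputable def ey (z : ℂ) : ℝ := -(S.c Complex.I 1 z + S.c 1 Complex.I z) / (2 * S.r z)

theorem ex_smooth : ContDiff ℝ ∞ S.ex :=
  (((S.c_smooth _ _).sub (S.c_smooth _ _)).neg).div (contDiff_const.mul S.r_smooth)
    (fun z => by have := S.r_pos z; positivity)

theorem ey_smooth : ContDiff ℝ ∞ S.ey :=
  (((S.c_smooth _ _).add (S.c_smooth _ _)).neg).div (contDiff_const.mul S.r_smooth)
    (fun z => by have := S.r_pos z; positivity)

theorem exy (z : ℂ) : S.ex z ^ 2 + S.ey z ^ 2 = 1 := by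
  have hr := S.r_pos z
  have h1 := S.r_sq z
  have h2 := S.c_rel z
  have h3 := S.det_c z
  rw [ex, ey, div_pow, div_pow, ← add_div, div_eq_one_iff_eq (by positivity), mul_pow, h1, H]
  have e : S.c Complex.I 1 z = S.c 1 Complex.I z + 2 := by linarith
  rw [e] at h3 ⊢
  nlinarith

theorem exists_σ : ∃ σ : ℂ → ℝ, ContDiff ℝ ∞ σ ∧ ∀ z, Real.cos (σ z) = S.ex z ∧
    Real.sin (σ z) = S.ey z := by
  have hw : ContDiff ℝ ∞ (fun z => ((S.ex z : ℝ) : ℂ) + ((S.ey z : ℝ) : ℂ) * Complex.I) :=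
    (Complex.ofRealCLM.contDiff.comp S.ex_smooth).add
      ((Complex.ofRealCLM.contDiff.comp S.ey_smooth).mul contDiff_const)
  obtain ⟨σ, hσ, h⟩ := exists_smooth_angle hw (fun z => by
    have h1 : ‖((S.ex z : ℝ) : ℂ) + ((S.ey z : ℝ) : ℂ) * Complex.I‖ ^ 2 = 1 := by
      rw [← Complex.normSq_eq_norm_sq, Complex.normSq_add_mul_I, S.exy]
    have h2 := norm_nonneg (((S.ex z : ℝ) : ℂ) + ((S.ey z : ℝ) : ℂ) * Complex.I)
    nlinarith)
  refine ⟨σ, hσ, fun z => ?_⟩
  have hz := h z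
  constructor
  · have := congrArg Complex.re hz
    rw [ei_re] at this
    rw [← this]; simp
  · have := congrArg Complex.im hz
    rw [ei_im] at this
    rw [← this]; simp

noncomputable def σ : ℂ → ℝ := S.exists_σ.choose
theorem σ_smooth : ContDiff ℝ ∞ S.σ := S.exists_σ.choose_spec.1
theorem cos_σ (z : ℂ) : Real.cos (S.σ z) = S.ex z := (S.exists_σ.choose_spec.2 z).1
theorem sin_σ (z : ℂ) : Real.sin (S.σ z) = S.ey z := (S.exists_σ.choose_spec.2 z).2

noncomputable def θ1 (z : ℂ) : ℝ := (S.σ z + S.om z) / 2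
noncomputable def θ2 (z : ℂ) : ℝ := (S.σ z - S.om z) / 2

theorem θ1_smooth : ContDiff ℝ ∞ S.θ1 := (S.σ_smooth.add S.om_smooth).div_const _
theorem θ2_smooth : ContDiff ℝ ∞ S.θ2 := (S.σ_smooth.sub S.om_smooth).div_const _

theorem sub_θ (z : ℂ) : S.θ1 z - S.θ2 z = S.om z := by unfold θ1 θ2; ring
theorem add_θ (z : ℂ) : S.θ1 z + S.θ2 z = S.σ z := by unfold θ1 θ2; ring

/-- The coefficients in terms of the angles. -/
theorem c_angles (z : ℂ) :
    S.c 1 1 z = S.r z * (2 * Real.sin (S.θ1 z) * Real.sin (S.θ2 z)) ∧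
    S.c Complex.I 1 z = -(S.r z * (2 * Real.cos (S.θ1 z) * Real.sin (S.θ2 z))) ∧
    S.c 1 Complex.I z = -(S.r z * (2 * Real.sin (S.θ1 z) * Real.cos (S.θ2 z))) ∧
    S.c Complex.I Complex.I z = S.r z * (2 * Real.cos (S.θ1 z) * Real.cos (S.θ2 z)) := by
  have hr := S.r_pos z
  have h1 := S.c_rel z
  have a1 := S.cos_om z
  have a2 := S.sin_om z
  have a3 := S.cos_σ z
  have a4 := S.sin_σ z
  rw [← S.sub_θ, Real.cos_sub] at a1
  rw [← S.sub_θ, Real.sin_sub] at a2
  rw [← S.add_θ, Real.cos_add, ex] at a3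
  rw [← S.add_θ, Real.sin_add, ey] at a4
  rw [H] at a1
  rw [eq_div_iff hr.ne'] at a1 a2
  rw [eq_div_iff (by positivity)] at a3 a4
  refine ⟨?_, ?_, ?_, ?_⟩
  · linear_combination (-1) * a1 + (1 / 2) * a3
  · linear_combination (1 / 2) * h1 + (-1) * a2 + (1 / 2) * a4
  · linear_combination (-1 / 2) * h1 + (1) * a2 + (1 / 2) * a4
  · linear_combination (-1) * a1 - (1 / 2) * a3

end Imm

end Pool.Agent.Helper253
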