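import Pool.Agent.Helper253.FinalThm

set_option autoImplicit false

namespace Pool.Agent.Helper253

open Topology Set
open scoped ContDiff

section arc

variable {E : Type*} [NormedAddCommGroup E] [InnerProductSpace ℝ E]

/-- Bessel for two orthonormal vectors. -/
theorem bessel2 {p g g' : E} (hp : ‖p‖ = 1) (hg : ‖g‖ = 1) (hg' : ‖g'‖ = 1)
    (ho : inner ℝ g g' = 0) :
    ‖p - (inner ℝ p g) • g - (inner ℝ p g') • g'‖ ^ 2 =
      1 - (inner ℝ p g) ^ 2 - (inner ℝ p g') ^ 2 := by
  have e1 : inner ℝ p p = (1 : ℝ) := by rw [real_inner_self_eq_norm_sq, hp]; norm_num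
  have e2 : inner ℝ g g = (1 : ℝ) := by rw [real_inner_self_eq_norm_sq, hg]; norm_num
  have e3 : inner ℝ g' g' = (1 : ℝ) := by rw [real_inner_self_eq_norm_sq, hg']; norm_num
  have e4 : inner ℝ g' g = (0 : ℝ) := by rw [real_inner_comm]; exact ho
  rw [← real_inner_self_eq_norm_sq]
  simp only [inner_sub_left, inner_sub_right, real_inner_smul_left, real_inner_smul_right, e1, e2,
    e3, e4, ho, real_inner_comm p g, real_inner_comm p g']
  ring

theorem orth_of_unit {g g' : ℝ → E} (hg : ∀ t, HasDerivAt g (g' t) t) (h1 : ∀ t, ‖g t‖ = 1)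
    (t : ℝ) : inner ℝ (g t) (g' t) = 0 := by
  have h : HasDerivAt (fun t => inner ℝ (g t) (g t)) (inner ℝ (g t) (g' t) + inner ℝ (g' t) (g t)) t :=
    (hg t).inner ℝ (hg t)
  have h2 : (fun t => (inner ℝ (g t) (g t) : ℝ)) = fun _ => 1 := by
    funext s; rw [real_inner_self_eq_norm_sq, h1]; norm_num
  rw [h2] at h
  have h3 := h.unique (hasDerivAt_const t (1 : ℝ))
  rw [real_inner_comm (g t) (g' t)] at h3
  linarith

/-- A unit speed curve on the unit sphere joining antipodal points has length at least `π`, and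
if its length is `π` it is half of a great circle. -/
theorem arc_antipodal {g g' : ℝ → E} (hg : ∀ t, HasDerivAt g (g' t) t) (h1 : ∀ t, ‖g t‖ = 1)
    (h2 : ∀ t, ‖g' t‖ = 1) {l : ℝ} (hl : 0 ≤ l) (hend : g l = -g 0) :
    Real.pi ≤ l ∧ (l = Real.pi → ∀ t ∈ Icc 0 Real.pi, inner ℝ (g 0) (g t) = Real.cos t) := by
  set a : ℝ → ℝ := fun t => inner ℝ (g 0) (g t) with ha
  set a' : ℝ → ℝ := fun t => inner ℝ (g 0) (g' t) with ha'
  have hda : ∀ t, HasDerivAt a (a' t) t := by
    intro t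
    have := (hasDerivAt_const t (g 0)).inner ℝ (hg t)
    simpa using this
  have hac : Continuous a := continuous_iff_continuousAt.2 fun t => (hda t).continuousAt
  have hb : ∀ t, a t ^ 2 + a' t ^ 2 ≤ 1 := by
    intro t
    have := bessel2 (h1 0) (h1 t) (h2 t) (orth_of_unit hg h1 t)
    have h3 := sq_nonneg ‖g 0 - (inner ℝ (g 0) (g t)) • g t - (inner ℝ (g 0) (g' t)) • g' t‖
    simp only [ha, ha']
    linarith
  have ha0 : a 0 = 1 := by
    simp only [ha]; rw [real_inner_self_eq_norm_sq, h1]; norm_num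
  have hal : a l = -1 := by
    simp only [ha]; rw [hend, inner_neg_right, real_inner_self_eq_norm_sq, h1]; norm_num
  -- first time at the antipode
  obtain ⟨t1, ht1, hmin⟩ := (isCompact_Icc.inter_right
    (isClosed_eq hac (continuous_const (y := (-1 : ℝ))))).exists_isLeast
    (s := Icc 0 l ∩ {t | a t = -1}) ⟨l, ⟨hl, le_refl l⟩, hal⟩
  obtain ⟨t0, ht0, hmax⟩ := (isCompact_Icc.inter_right
    (isClosed_eq hac (continuous_const (y := (1 : ℝ))))).exists_isGreatest
    (s := Icc 0 t1 ∩ {t | a t = 1}) ⟨0, ⟨le_refl 0, ht1.1.1⟩, ha0⟩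
  have hat1 : a t1 = -1 := ht1.2
  have hat0 : a t0 = 1 := ht0.2
  have h01 : t0 ≤ t1 := ht0.1.2
  have habs : ∀ t, -1 ≤ a t ∧ a t ≤ 1 := by
    intro t
    have := hb t
    constructor <;> nlinarith [sq_nonneg (a' t), sq_nonneg (a t + 1), sq_nonneg (a t - 1)]
  have hne : ∀ t ∈ Ioo t0 t1, a t ≠ -1 ∧ a t ≠ 1 := by
    intro t ht
    constructor
    · intro h
      have := hmin ⟨⟨by linarith [ht0.1.1, ht.1], by linarith [ht1.1.2, ht.2]⟩, h⟩
      linarith [ht.2]
    · intro h
      have := hmax ⟨⟨by linarith [ht0.1.1, ht.1], ht.2.le⟩, h⟩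
      linarith [ht.1]
  have hψc : Continuous (fun t => Real.arccos (a t)) := Real.continuous_arccos.comp hac
  have hψd : ∀ t ∈ Ioo t0 t1, HasDerivAt (fun t => Real.arccos (a t) - t)
      (-(1 / Real.sqrt (1 - a t ^ 2)) * a' t - 1) t := by
    intro t ht
    obtain ⟨n1, n2⟩ := hne t ht
    exact ((Real.hasDerivAt_arccos n1 n2).comp t (hda t)).sub (hasDerivAt_id t)
  have hle : ∀ t ∈ Ioo t0 t1, -(1 / Real.sqrt (1 - a t ^ 2)) * a' t - 1 ≤ 0 := by
    intro t ht
    obtain ⟨n1, n2⟩ := hne t ht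
    obtain ⟨b1, b2⟩ := habs t
    have hpos : 0 < 1 - a t ^ 2 := by
      have c1 := lt_of_le_of_ne b1 (Ne.symm n1)
      have c2 := lt_of_le_of_ne b2 n2
      nlinarith
    have hs := Real.sqrt_pos.2 hpos
    have h3 : -a' t ≤ Real.sqrt (1 - a t ^ 2) := by
      apply Real.le_sqrt_of_sq_le
      have := hb t
      nlinarith
    have h4 : -(1 / Real.sqrt (1 - a t ^ 2)) * a' t = -a' t / Real.sqrt (1 - a t ^ 2) := by ring
    rw [h4, sub_nonpos, div_le_one hs]
    exact h3
  have hanti : AntitoneOn (fun t => Real.arccos (a t) - t) (Icc t0 t1) := by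
    apply antitoneOn_of_deriv_nonpos (convex_Icc _ _)
    · exact (hψc.sub continuous_id).continuousOn
    · intro t ht
      rw [interior_Icc] at ht
      exact (hψd t ht).differentiableAt.differentiableWithinAt
    · intro t ht
      rw [interior_Icc] at ht
      rw [(hψd t ht).deriv]
      exact hle t ht
  have hfin := hanti ⟨le_refl _, h01⟩ ⟨h01, le_refl _⟩ h01
  simp only [hat0, hat1, Real.arccos_one, Real.arccos_neg_one] at hfin
  refine ⟨by linarith [ht0.1.1, ht1.1.2], ?_⟩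
  intro hlpi t ht
  have e0 : t0 = 0 := by linarith [ht0.1.1, ht1.1.2]
  have e1 : t1 = Real.pi := by linarith [ht0.1.1, ht1.1.2]
  rw [e0, e1] at hanti
  have r0 : a 0 = 1 := ha0
  have r1 : a Real.pi = -1 := by rw [← hlpi]; exact hal
  have i1 := hanti ⟨le_refl _, Real.pi_pos.le⟩ ht ht.1
  have i2 := hanti ht ⟨Real.pi_pos.le, le_refl _⟩ ht.2
  simp only [r0, r1, Real.arccos_one, Real.arccos_neg_one] at i1 i2
  have i3 : Real.arccos (a t) = t := by linarith
  obtain ⟨b1, b2⟩ := habs t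
  have := Real.cos_arccos b1 b2
  rw [i3] at this
  exact this.symm

end arc

end Pool.Agent.Helper253
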