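import Pool.Agent.Helper253.Arc

set_option autoImplicit false

namespace Pool.Agent.Helper253

open Quaternion Topology Set
open scoped ContDiff
open Net

/-- Three null directions of a quadratic form with discriminant four cannot be pairwise
independent. -/
theorem null_dirs {A B C : ℝ} (hD : B ^ 2 - 4 * A * C = 4) {a b e : ℂ}
    (ha : A * a.re ^ 2 + B * (a.re * a.im) + C * a.im ^ 2 = 0)
    (hb : A * b.re ^ 2 + B * (b.re * b.im) + C * b.im ^ 2 = 0)
    (he : A * e.re ^ 2 + B * (e.re * e.im) + C * e.im ^ 2 = 0) :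
    cr a b = 0 ∨ cr a e = 0 ∨ cr b e = 0 := by
  by_cases hab : cr a b = 0
  · exact Or.inl hab
  right
  set L : ℝ := A * a.re * b.re + B / 2 * (a.re * b.im + a.im * b.re) + C * a.im * b.im with hL
  have h1 : L ^ 2 = (cr a b) ^ 2 := by
    have : 4 * (L ^ 2 - (A * a.re ^ 2 + B * (a.re * a.im) + C * a.im ^ 2) *
        (A * b.re ^ 2 + B * (b.re * b.im) + C * b.im ^ 2)) =
        (cr a b) ^ 2 * (B ^ 2 - 4 * A * C) := by
      rw [hL, cr]; ring
    rw [ha, hD] at this
    linarith
  have hL0 : L ≠ 0 := by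
    intro h
    rw [h] at h1
    have : cr a b ^ 2 = 0 := by linarith
    exact hab (pow_eq_zero_iff (by norm_num) |>.1 this)
  have h2 : 2 * (cr b e) * (cr a e) * L = -((cr a b) ^ 2 * (A * e.re ^ 2 + B * (e.re * e.im) +
      C * e.im ^ 2)) + (cr b e) ^ 2 * (A * a.re ^ 2 + B * (a.re * a.im) + C * a.im ^ 2) +
      (cr a e) ^ 2 * (A * b.re ^ 2 + B * (b.re * b.im) + C * b.im ^ 2) := by
    rw [hL]; simp only [cr]; ring
  rw [ha, hb, he] at h2
  have h3 : (cr b e) * (cr a e) = 0 := by
    have : (cr b e * cr a e) * L = 0 := by linarith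
    exact (mul_eq_zero.1 this).resolve_right hL0
  rcases mul_eq_zero.1 h3 with h | h
  · exact Or.inr h
  · exact Or.inl h

namespace Imm

variable (S : Imm)

/-- The second fundamental form as a quadratic form. -/
noncomputable def Qf (e z : ℂ) : ℝ := S.c 1 1 z * e.re ^ 2 +
  (S.c Complex.I 1 z + S.c 1 Complex.I z) * (e.re * e.im) + S.c Complex.I Complex.I z * e.im ^ 2

theorem disc (z : ℂ) : (S.c Complex.I 1 z + S.c 1 Complex.I z) ^ 2 -
    4 * S.c 1 1 z * S.c Complex.I Complex.I z = 4 := by
  have h1 := S.c_rel z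
  have h2 := S.det_c z
  have e : S.c Complex.I 1 z = S.c 1 Complex.I z + 2 := by linarith
  rw [e] at h2 ⊢
  linarith

theorem dAee (e z : ℂ) : dd e (S.A e) z = S.Qf e z • S.m z := by
  have h : S.A e = fun z => e.re • S.A 1 z + e.im • S.A Complex.I z := funext (S.A_lin e)
  have c1 : ContDiff ℝ ∞ (fun z => e.re • S.A 1 z) := (S.A_smooth 1).const_smul e.re
  have c2 : ContDiff ℝ ∞ (fun z => e.im • S.A Complex.I z) :=
    (S.A_smooth Complex.I).const_smul e.im
  have k1 : ∀ v, dd v (fun z => e.re • S.A 1 z) z = e.re • dd v (S.A 1) z := by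
    intro v
    have := dd_smul (contDiff_const (c := e.re)) (S.A_smooth 1) v z
    rw [dd_const, zero_smul, zero_add] at this
    exact this
  have k2 : ∀ v, dd v (fun z => e.im • S.A Complex.I z) z = e.im • dd v (S.A Complex.I) z := by
    intro v
    have := dd_smul (contDiff_const (c := e.im)) (S.A_smooth Complex.I) v z
    rw [dd_const, zero_smul, zero_add] at this
    exact this
  rw [dd_lin, h, dd_add c1 c2, dd_add c1 c2, k1, k1, k2, k2, S.dA11, S.dA12, S.dA21, S.dA22, Qf]
  module

/-- A minimising segment between antipodal points starts in an asymptotic direction. -/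
theorem asymptotic {y e : ℂ} (he : ‖e‖ = 1)
    (hend : S.f (y + Real.pi • e) = -S.f y) : S.Qf e y = 0 := by
  have hl : ∀ t : ℝ, HasDerivAt (fun t : ℝ => y + t • e) e t := by
    intro t
    simpa using ((hasDerivAt_id t).smul_const e).const_add y
  set g : ℝ → ℍ[ℝ] := fun t => S.f (y + t • e) with hg
  set g' : ℝ → ℍ[ℝ] := fun t => dd e S.f (y + t • e) with hg'
  set g'' : ℝ → ℍ[ℝ] := fun t => dd e (dd e S.f) (y + t • e) with hg''
  have d1 : ∀ t, HasDerivAt g (g' t) t := fun t => curve_deriv S.smooth (hl t)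
  have d2 : ∀ t, HasDerivAt g' (g'' t) t := fun t =>
    curve_deriv (contDiff_dd S.smooth e) (hl t)
  have n1 : ∀ t, ‖g t‖ = 1 := fun t => S.unit _
  have n2 : ∀ t, ‖g' t‖ = 1 := fun t => by
    have := S.iso (y + t • e) e
    rw [he] at this
    exact this
  have hend' : g Real.pi = -g 0 := by
    simp only [hg, zero_smul, add_zero]; exact hend
  have key := (arc_antipodal d1 n1 n2 Real.pi_pos.le hend').2 rfl
  -- the initial point in terms of the moving frame
  have hmain : ∀ t ∈ Ioo 0 Real.pi, g 0 = Real.cos t • g t - Real.sin t • g' t := by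
    intro t ht
    have hc : inner ℝ (g 0) (g t) = Real.cos t := key t ⟨ht.1.le, ht.2.le⟩
    have hd : HasDerivAt (fun t => (inner ℝ (g 0) (g t) : ℝ)) (inner ℝ (g 0) (g' t)) t := by
      have := (hasDerivAt_const t (g 0)).inner ℝ (d1 t)
      simpa using this
    have hs : inner ℝ (g 0) (g' t) = -Real.sin t := by
      refine (hd.unique ?_)
      refine (Real.hasDerivAt_cos t).congr_of_eventuallyEq ?_
      filter_upwards [Ioo_mem_nhds ht.1 ht.2] with s hs
      exact key s ⟨hs.1.le, hs.2.le⟩
    have hB := bessel2 (n1 0) (n1 t) (n2 t) (orth_of_unit d1 n1 t)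
    rw [hc, hs] at hB
    have hz : ‖g 0 - Real.cos t • g t - (-Real.sin t) • g' t‖ ^ 2 = 0 := by
      rw [hB]; have := Real.sin_sq_add_cos_sq t; nlinarith
    have hz2 := norm_eq_zero.1 (pow_eq_zero_iff (by norm_num) |>.1 hz)
    rw [sub_sub, sub_eq_zero] at hz2
    rw [hz2]; module
  have hsec : ∀ t ∈ Ioo 0 Real.pi, g'' t = -g t := by
    intro t ht
    have hD : HasDerivAt (fun t => Real.cos t • g t - Real.sin t • g' t)
        ((Real.cos t • g' t + (-Real.sin t) • g t) - (Real.sin t • g'' t + Real.cos t • g' t)) t :=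
      ((Real.hasDerivAt_cos t).smul (d1 t)).sub ((Real.hasDerivAt_sin t).smul (d2 t))
    have h0 : HasDerivAt (fun t => Real.cos t • g t - Real.sin t • g' t) 0 t := by
      refine (hasDerivAt_const t (g 0)).congr_of_eventuallyEq ?_
      filter_upwards [Ioo_mem_nhds ht.1 ht.2] with s hs
      exact (hmain s hs).symm
    have h1 := hD.unique h0
    have h2 : Real.sin t • (g t + g'' t) = 0 := by
      have : Real.sin t • (g t + g'' t) = -((Real.cos t • g' t + (-Real.sin t) • g t) -
          (Real.sin t • g'' t + Real.cos t • g' t)) := by module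
      rw [this, h1, neg_zero]
    have h3 := (smul_eq_zero.1 h2).resolve_left (Real.sin_pos_of_pos_of_lt_pi ht.1 ht.2).ne'
    exact eq_neg_of_add_eq_zero_right h3
  have h0 : g'' 0 = -g 0 := by
    have hcl : IsClosed {t : ℝ | g'' t = -g t} := by
      apply isClosed_eq
      · exact (contDiff_dd (contDiff_dd S.smooth e) e).continuous.comp
          (continuous_const.add (continuous_id.smul continuous_const))
      · exact (S.smooth.continuous.comp
          (continuous_const.add (continuous_id.smul continuous_const))).neg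
    have hsub : Ioo 0 Real.pi ⊆ {t : ℝ | g'' t = -g t} := hsec
    have h1 := closure_minimal hsub hcl
    rw [closure_Ioo Real.pi_pos.ne] at h1
    exact h1 ⟨le_refl _, Real.pi_pos.le⟩
  simp only [hg'', hg, zero_smul, add_zero] at h0
  have h2 := S.dA e e y
  rw [h0, S.A_sq, he, mul_neg, S.sf, S.dAee] at h2
  have h3 : S.Qf e y • S.m y = 0 := by
    rw [h2]; ext <;> simp
  rcases smul_eq_zero.1 h3 with h | h
  · exact h
  · exfalso
    have := S.mm y
    rw [h, mul_zero] at this
    have h5 := congrArg (fun q : ℍ[ℝ] => q.re) this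
    simp at h5

theorem length_ge {y w : ℂ} (hend : S.f (y + w) = -S.f y) : Real.pi ≤ ‖w‖ := by
  have hw : w ≠ 0 := by
    intro h
    rw [h, add_zero] at hend
    have h1 := S.unit y
    have h3 : (2 : ℝ) • S.f y = 0 := by
      rw [two_smul]; nth_rewrite 1 [hend]; exact neg_add_cancel _
    have h2 : S.f y = 0 := (smul_eq_zero.1 h3).resolve_left two_ne_zero
    rw [h2, norm_zero] at h1
    exact zero_ne_one h1
  have hw0 : ‖w‖ ≠ 0 := norm_ne_zero_iff.2 hw
  set e : ℂ := (‖w‖⁻¹ : ℝ) • w with he
  have hen : ‖e‖ = 1 := by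
    rw [he, norm_smul, norm_inv, norm_norm, inv_mul_cancel₀ hw0]
  have hwe : ‖w‖ • e = w := by
    rw [he, smul_smul, mul_inv_cancel₀ hw0, one_smul]
  have hl : ∀ t : ℝ, HasDerivAt (fun t : ℝ => y + t • e) e t := by
    intro t
    simpa using ((hasDerivAt_id t).smul_const e).const_add y
  exact (arc_antipodal (g := fun t : ℝ => S.f (y + t • e)) (g' := fun t => dd e S.f (y + t • e))
    (fun t => curve_deriv S.smooth (hl t)) (fun t => S.unit _)
    (fun t => by
      have := S.iso (y + t • e) e
      rw [hen] at this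
      exact this) (norm_nonneg w) (by simp only [hwe, zero_smul, add_zero]; exact hend)).1

end Imm

end Pool.Agent.Helper253
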