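import Pool.Agent.Helper253.Loop

set_option autoImplicit false

namespace Pool.Agent.Helper253

open Quaternion Topology
open scoped ContDiff

/-- Quaternion conjugation as a continuous linear map. -/
noncomputable def starC : ℍ[ℝ] →L[ℝ] ℍ[ℝ] :=
  LinearMap.toContinuousLinearMap
    { toFun := star
      map_add' := star_add
      map_smul' := fun m a => by ext <;> simp }

theorem starC_apply (q : ℍ[ℝ]) : starC q = star q := rfl

theorem hasDerivAt_star {f : ℝ → ℍ[ℝ]} {f' : ℍ[ℝ]} {t : ℝ} (h : HasDerivAt f f' t) :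
    HasDerivAt (fun t => star (f t)) (star f') t :=
  (starC.hasFDerivAt (x := f t)).comp_hasDerivAt t h

theorem contDiff_star {E : Type*} [NormedAddCommGroup E] [NormedSpace ℝ E] {f : E → ℍ[ℝ]}
    {n : WithTop ℕ∞} (h : ContDiff ℝ n f) : ContDiff ℝ n (fun t => star (f t)) :=
  starC.contDiff.comp h

/-- A closed curve in the unit quaternions whose left logarithmic derivative `x` is orthogonal to
`1` and `i` and has positive `j` component. -/
structure SpinCurve where
  γ : ℝ → ℍ[ℝ]
  L : ℝ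
  hL : 0 < L
  smooth : ContDiff ℝ ∞ γ
  norm_one : ∀ t, ‖γ t‖ = 1
  per : ∀ t, γ (t + L) = γ t
  hI : ∀ t, (star (γ t) * deriv γ t).imI = 0
  hJ : ∀ t, 0 < (star (γ t) * deriv γ t).imJ

namespace SpinCurve

variable (C : SpinCurve)

noncomputable def x (t : ℝ) : ℍ[ℝ] := star (C.γ t) * deriv C.γ t

noncomputable def B (s t : ℝ) : ℍ[ℝ] := star (C.γ s) * C.γ t

theorem star_mul_self' {q : ℍ[ℝ]} (h : ‖q‖ = 1) : star q * q = 1 := by
  rw [Quaternion.star_mul_self, Quaternion.normSq_eq_norm_mul_self, h]; simp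

theorem self_mul_star' {q : ℍ[ℝ]} (h : ‖q‖ = 1) : q * star q = 1 := by
  rw [Quaternion.self_mul_star, Quaternion.normSq_eq_norm_mul_self, h]; simp

theorem hasDeriv (t : ℝ) : HasDerivAt C.γ (C.γ t * C.x t) t := by
  have h1 : HasDerivAt C.γ (deriv C.γ t) t :=
    (C.smooth.differentiable (by simp) t).hasDerivAt
  have h2 : C.γ t * C.x t = deriv C.γ t := by
    rw [x, ← mul_assoc, self_mul_star' (C.norm_one t), one_mul]
  rw [h2]; exact h1

theorem continuous_γ : Continuous C.γ := C.smooth.continuous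

theorem contDiff_x : ContDiff ℝ ∞ C.x := by
  have h1 : ContDiff ℝ ∞ (fun t => star (C.γ t)) := contDiff_star C.smooth
  have h2 : ContDiff ℝ ∞ (deriv C.γ) := by
    have := C.smooth
    rw [contDiff_infty_iff_deriv] at this
    exact this.2
  exact h1.mul h2

theorem continuous_x : Continuous C.x := C.contDiff_x.continuous

theorem x_re (t : ℝ) : (C.x t).re = 0 := by
  have h1 : HasDerivAt (fun t => star (C.γ t) * C.γ t)
      (star (C.γ t * C.x t) * C.γ t + star (C.γ t) * (C.γ t * C.x t)) t :=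
    (hasDerivAt_star (C.hasDeriv t)).mul (C.hasDeriv t)
  have h2 : (fun t => star (C.γ t) * C.γ t) = fun _ => (1 : ℍ[ℝ]) := by
    funext s; exact star_mul_self' (C.norm_one s)
  rw [h2] at h1
  have h3 := h1.unique (hasDerivAt_const t (1 : ℍ[ℝ]))
  rw [star_mul, mul_assoc, star_mul_self' (C.norm_one t), mul_one, ← mul_assoc,
    star_mul_self' (C.norm_one t), one_mul] at h3
  have h4 := congrArg (fun q : ℍ[ℝ] => q.re) h3
  simp at h4
  linarith

theorem x_imI (t : ℝ) : (C.x t).imI = 0 := C.hI t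

theorem x_imJ (t : ℝ) : 0 < (C.x t).imJ := C.hJ t

theorem x_per (t : ℝ) : C.x (t + C.L) = C.x t := by
  have h1 : C.γ ∘ (fun s => s + C.L) = C.γ := by
    funext s; exact C.per s
  have h2 : deriv C.γ (t + C.L) = deriv C.γ t := by
    have h3 : deriv (fun s => C.γ (s + C.L)) t = deriv C.γ (t + C.L) :=
      deriv_comp_add_const C.γ C.L t
    have h4 : (fun s => C.γ (s + C.L)) = C.γ := funext C.per
    rw [h4] at h3
    exact h3.symm
  simp only [x, C.per t, h2]

theorem hasDeriv_B_right (s t : ℝ) : HasDerivAt (fun t => C.B s t) (C.B s t * C.x t) t := by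
  have := (C.hasDeriv t).const_mul (star (C.γ s))
  rw [← mul_assoc] at this
  exact this

theorem star_x (t : ℝ) : star (C.x t) = - C.x t := by
  ext <;> simp [C.x_re t]

theorem hasDeriv_B_left (s t : ℝ) : HasDerivAt (fun s => C.B s t) (-(C.x s * C.B s t)) s := by
  have h1 := (hasDerivAt_star (C.hasDeriv s)).mul_const (C.γ t)
  have h2 : star (C.γ s * C.x s) * C.γ t = -(C.x s * C.B s t) := by
    rw [star_mul, star_x, B, neg_mul, neg_mul, mul_assoc]
  rw [h2] at h1
  exact h1

theorem B_self (s : ℝ) : C.B s s = 1 := star_mul_self' (C.norm_one s)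

theorem norm_B (s t : ℝ) : ‖C.B s t‖ = 1 := by
  rw [B, norm_mul, norm_star, C.norm_one, C.norm_one, one_mul]

theorem star_B (s t : ℝ) : star (C.B s t) = C.B t s := by
  rw [B, B, star_mul, star_star]

theorem B_mul (s t u : ℝ) : C.B s t * C.B t u = C.B s u := by
  rw [B, B, B, mul_assoc, ← mul_assoc (C.γ t), self_mul_star' (C.norm_one t), one_mul]

theorem B_per_right (s t : ℝ) : C.B s (t + C.L) = C.B s t := by rw [B, B, C.per]

theorem B_per_left (s t : ℝ) : C.B (s + C.L) t = C.B s t := by rw [B, B, C.per]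

theorem continuous_B : Continuous (fun p : ℝ × ℝ => C.B p.1 p.2) := by
  unfold B
  exact ((C.continuous_γ.comp continuous_fst).star).mul (C.continuous_γ.comp continuous_snd)

/-- The `j` component of a quaternion as a continuous linear functional. -/
noncomputable def cJ : ℍ[ℝ] →L[ℝ] ℝ :=
  LinearMap.toContinuousLinearMap
    { toFun := fun q => q.imJ
      map_add' := fun a b => by simp
      map_smul' := fun m a => by simp }

theorem cJ_apply (q : ℍ[ℝ]) : cJ q = q.imJ := rfl

theorem hasDeriv_J_right (s t : ℝ) :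
    HasDerivAt (fun t => (C.B s t).imJ) (C.B s t * C.x t).imJ t := by
  have := (cJ.hasFDerivAt (x := C.B s t)).comp_hasDerivAt t (C.hasDeriv_B_right s t)
  exact this

theorem hasDeriv_J_left (s t : ℝ) :
    HasDerivAt (fun s => (C.B s t).imJ) (-(C.x s * C.B s t).imJ) s := by
  have := (cJ.hasFDerivAt (x := C.B s t)).comp_hasDerivAt s (C.hasDeriv_B_left s t)
  have h2 : cJ (-(C.x s * C.B s t)) = -(C.x s * C.B s t).imJ := by
    rw [cJ_apply]; simp
  rw [h2] at this
  exact this

theorem near_diag : ∃ δ : ℝ, 0 < δ ∧ δ < C.L ∧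
    ∀ s τ : ℝ, 0 < τ → τ ≤ δ → 0 < (C.B s (s + τ)).imJ := by
  set U : Set (ℝ × ℝ) := {p | 0 < (C.B p.1 (p.1 + p.2) * C.x (p.1 + p.2)).imJ} with hU
  have hUo : IsOpen U := by
    have h1 : Continuous (fun p : ℝ × ℝ => C.B p.1 (p.1 + p.2)) :=
      C.continuous_B.comp (continuous_fst.prodMk (continuous_fst.add continuous_snd))
    have h2 : Continuous (fun p : ℝ × ℝ => C.x (p.1 + p.2)) :=
      C.continuous_x.comp (continuous_fst.add continuous_snd)
    exact isOpen_lt continuous_const (Quaternion.continuous_imJ.comp (h1.mul h2))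
  have hsub : Set.Icc 0 C.L ×ˢ ({0} : Set ℝ) ⊆ U := by
    rintro ⟨s, τ⟩ ⟨-, hτ⟩
    simp only [Set.mem_singleton_iff] at hτ
    subst hτ
    show 0 < (C.B s (s + 0) * C.x (s + 0)).imJ
    rw [add_zero, C.B_self, one_mul]
    exact C.x_imJ s
  obtain ⟨u, v, -, hv, hu', hv', huv⟩ := generalized_tube_lemma (isCompact_Icc (a := 0) (b := C.L))
    (isCompact_singleton (x := (0 : ℝ))) hUo hsub
  obtain ⟨δ, hδ, hball⟩ := Metric.isOpen_iff.1 hv 0 (hv' rfl)
  have hL := C.hL
  refine ⟨min (δ / 2) (C.L / 2), by positivity, by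
    have := min_le_right (δ / 2) (C.L / 2); linarith, ?_⟩
  have key : ∀ s ∈ Set.Icc 0 C.L, ∀ τ : ℝ, 0 < τ → τ ≤ min (δ / 2) (C.L / 2) →
      0 < (C.B s (s + τ)).imJ := by
    intro s hs τ hτ0 hτ
    have hτδ : τ < δ := by have := min_le_left (δ / 2) (C.L / 2); linarith
    have hmono : StrictMonoOn (fun t => (C.B s t).imJ) (Set.Icc s (s + τ)) := by
      apply strictMonoOn_of_deriv_pos (convex_Icc _ _)
      · intro t _
        exact (C.hasDeriv_J_right s t).continuousAt.continuousWithinAt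
      · intro t ht
        rw [interior_Icc] at ht
        rw [(C.hasDeriv_J_right s t).deriv]
        have hmem : (s, t - s) ∈ U := by
          apply huv
          refine ⟨hu' hs, hball ?_⟩
          rw [Metric.mem_ball, Real.dist_eq, sub_zero, abs_lt]
          constructor <;> linarith [ht.1, ht.2]
        have h3 : 0 < (C.B s (s + (t - s)) * C.x (s + (t - s))).imJ := hmem
        rw [show s + (t - s) = t by ring] at h3
        exact h3
    have h0 := hmono ⟨le_refl s, by linarith⟩ ⟨by linarith, le_refl (s + τ)⟩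
      (by linarith : s < s + τ)
    simp only [C.B_self] at h0
    simpa using h0
  intro s τ hτ0 hτ
  have hper : Function.Periodic (fun s => (C.B s (s + τ)).imJ) C.L := by
    intro s
    simp only
    rw [show s + C.L + τ = (s + τ) + C.L by ring, C.B_per_left, C.B_per_right]
  obtain ⟨s', hs', hs''⟩ := hper.exists_mem_Ico₀ C.hL s
  rw [hs'']
  exact key s' ⟨hs'.1, hs'.2.le⟩ τ hτ0 hτ

/-- The component of `B s t` in the `(i,j)` plane, as a complex number. -/
noncomputable def W (s t : ℝ) : ℂ := ⟨(C.B s t).imJ, -(C.B s t).imI⟩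

theorem W_eq_zero {s t : ℝ} : C.W s t = 0 ↔ (C.B s t).imI = 0 ∧ (C.B s t).imJ = 0 := by
  rw [W, Complex.ext_iff]
  simp only [Complex.zero_re, Complex.zero_im, neg_eq_zero]
  tauto

theorem continuous_W : Continuous (fun p : ℝ × ℝ => C.W p.1 p.2) := by
  have h1 := Quaternion.continuous_imJ.comp C.continuous_B
  have h2 := Quaternion.continuous_imI.comp C.continuous_B
  have h3 : (fun p : ℝ × ℝ => C.W p.1 p.2) =
      fun p : ℝ × ℝ => (((C.B p.1 p.2).imJ : ℂ) + ((-(C.B p.1 p.2).imI : ℝ) : ℂ) * Complex.I) := by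
    funext p
    apply Complex.ext <;> simp [W]
  rw [h3]
  exact (Complex.continuous_ofReal.comp h1).add
    ((Complex.continuous_ofReal.comp h2.neg).mul continuous_const)

/-- There is a minimal self-crossing of the projected curve. -/
theorem exists_minimal : ∃ v m : ℝ, 0 < m ∧ C.W v (v + m) = 0 ∧
    ∀ s τ : ℝ, 0 < τ → τ < m → C.W s (s + τ) ≠ 0 := by
  obtain ⟨δ, hδ0, hδL, hδ⟩ := C.near_diag
  set Z : Set (ℝ × ℝ) := {p | p ∈ Set.Icc 0 C.L ×ˢ Set.Icc δ C.L ∧ C.W p.1 (p.1 + p.2) = 0}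
    with hZ
  have hcont : Continuous (fun p : ℝ × ℝ => C.W p.1 (p.1 + p.2)) :=
    C.continuous_W.comp (continuous_fst.prodMk (continuous_fst.add continuous_snd))
  have hZc : IsCompact Z := by
    have : Z = (Set.Icc 0 C.L ×ˢ Set.Icc δ C.L) ∩ (fun p : ℝ × ℝ => C.W p.1 (p.1 + p.2)) ⁻¹' {0} := by
      ext p; simp [hZ]
    rw [this]
    exact (isCompact_Icc.prod isCompact_Icc).inter_right (isClosed_singleton.preimage hcont)
  have hL := C.hL
  have hZne : Z.Nonempty := by
    refine ⟨(0, C.L), ⟨⟨⟨le_refl _, hL.le⟩, ⟨hδL.le, le_refl _⟩⟩, ?_⟩⟩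
    rw [W_eq_zero]
    simp only
    rw [C.B_per_right, C.B_self]
    simp
  obtain ⟨⟨v, m⟩, hvm, hmin⟩ := hZc.exists_isMinOn hZne continuous_snd.continuousOn
  refine ⟨v, m, by linarith [hvm.1.2.1], hvm.2, ?_⟩
  intro s τ hτ0 hτm hW
  rcases le_or_gt τ δ with h | h
  · have := hδ s τ hτ0 h
    rw [W_eq_zero] at hW
    linarith [hW.2]
  · have hper : Function.Periodic (fun s => C.W s (s + τ)) C.L := by
      intro s
      simp only [W]
      rw [show s + C.L + τ = (s + τ) + C.L by ring, C.B_per_left, C.B_per_right]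
    obtain ⟨s', hs', hs''⟩ := hper.exists_mem_Ico₀ C.hL s
    have h1 : ((s', τ) : ℝ × ℝ) ∈ Z := by
      refine ⟨⟨⟨hs'.1, hs'.2.le⟩, ⟨h.le, ?_⟩⟩, ?_⟩
      · have := hvm.1.2.2; simp only at this; linarith
      · simp only; rw [← hs'', hW]
    have h2 := hmin h1
    simp only [Set.mem_ofPred_eq] at h2
    linarith

end SpinCurve

end Pool.Agent.Helper253
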