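import Mathlib

set_option autoImplicit false

namespace Pool.Agent.Helper253.Degree

open MeasureTheory Topology Set
open scoped ContDiff

abbrev E3 := EuclideanSpace ℝ (Fin 3)

/-- The determinant of three vectors. -/
def det3 (a b c : E3) : ℝ :=
  a 0 * (b 1 * c 2 - b 2 * c 1) - a 1 * (b 0 * c 2 - b 2 * c 0) + a 2 * (b 0 * c 1 - b 1 * c 0)

theorem det3_add1 (a a' b c : E3) : det3 (a + a') b c = det3 a b c + det3 a' b c := by
  simp only [det3, PiLp.add_apply]; ring

theorem det3_smul1 (r : ℝ) (a b c : E3) : det3 (r • a) b c = r * det3 a b c := by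
  simp only [det3, PiLp.smul_apply, smul_eq_mul]; ring

theorem det3_add2 (a b b' c : E3) : det3 a (b + b') c = det3 a b c + det3 a b' c := by
  simp only [det3, PiLp.add_apply]; ring

theorem det3_smul2 (r : ℝ) (a b c : E3) : det3 a (r • b) c = r * det3 a b c := by
  simp only [det3, PiLp.smul_apply, smul_eq_mul]; ring

theorem det3_add3 (a b c c' : E3) : det3 a b (c + c') = det3 a b c + det3 a b c' := by
  simp only [det3, PiLp.add_apply]; ring

theorem det3_smul3 (r : ℝ) (a b c : E3) : det3 a b (r • c) = r * det3 a b c := by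
  simp only [det3, PiLp.smul_apply, smul_eq_mul]; ring

theorem det3_neg1 (a b c : E3) : det3 (-a) b c = -det3 a b c := by
  simp only [det3, PiLp.neg_apply]; ring

theorem det3_zero1 (b c : E3) : det3 0 b c = 0 := by
  simp only [det3, PiLp.zero_apply]; ring

theorem det3_swap23 (a b c : E3) : det3 a b c = -det3 a c b := by
  simp only [det3]; ring

theorem vec_eq (v : E3) : v = v 0 • EuclideanSpace.single 0 (1 : ℝ) +
    v 1 • EuclideanSpace.single 1 (1 : ℝ) + v 2 • EuclideanSpace.single 2 (1 : ℝ) := by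
  ext i
  fin_cases i <;> simp

theorem cramer (l : E3 →L[ℝ] ℝ) (h a b y : E3) :
    l h * det3 y a b + l a * det3 h y b + l b * det3 h a y = l y * det3 h a b := by
  have hl : ∀ v : E3, l v = v 0 * l (EuclideanSpace.single 0 (1 : ℝ)) +
      v 1 * l (EuclideanSpace.single 1 (1 : ℝ)) + v 2 * l (EuclideanSpace.single 2 (1 : ℝ)) := by
    intro v
    conv_lhs => rw [vec_eq v]
    simp only [map_add, map_smul, smul_eq_mul]
  rw [hl h, hl a, hl b, hl y]
  simp only [det3]
  ring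

theorem hasDerivAt_coord {a : ℝ → E3} {a' : E3} {t : ℝ} (h : HasDerivAt a a' t) (i : Fin 3) :
    HasDerivAt (fun t => a t i) (a' i) t :=
  ((EuclideanSpace.proj i : E3 →L[ℝ] ℝ).hasFDerivAt (x := a t)).comp_hasDerivAt t h

theorem hasDerivAt_det3 {a b c : ℝ → E3} {a' b' c' : E3} {t : ℝ} (ha : HasDerivAt a a' t)
    (hb : HasDerivAt b b' t) (hc : HasDerivAt c c' t) :
    HasDerivAt (fun t => det3 (a t) (b t) (c t))
      (det3 a' (b t) (c t) + det3 (a t) b' (c t) + det3 (a t) (b t) c') t := by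
  have a0 := hasDerivAt_coord ha 0
  have a1 := hasDerivAt_coord ha 1
  have a2 := hasDerivAt_coord ha 2
  have b0 := hasDerivAt_coord hb 0
  have b1 := hasDerivAt_coord hb 1
  have b2 := hasDerivAt_coord hb 2
  have c0 := hasDerivAt_coord hc 0
  have c1 := hasDerivAt_coord hc 1
  have c2 := hasDerivAt_coord hc 2
  have h := ((a0.mul ((b1.mul c2).sub (b2.mul c1))).sub
    (a1.mul ((b0.mul c2).sub (b2.mul c0)))).add (a2.mul ((b0.mul c1).sub (b1.mul c0)))
  refine (h.congr_deriv ?_).congr_of_eventuallyEq ?_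
  · simp only [det3, Pi.mul_apply, Pi.sub_apply]; ring
  · exact Filter.Eventually.of_forall fun s => by
      simp only [det3, Pi.mul_apply, Pi.sub_apply, Pi.add_apply]

theorem contDiffAt_coord {E : Type*} [NormedAddCommGroup E] [NormedSpace ℝ E] {a : E → E3} {x : E}
    {n : WithTop ℕ∞} (h : ContDiffAt ℝ n a x) (i : Fin 3) : ContDiffAt ℝ n (fun t => a t i) x :=
  (EuclideanSpace.proj i : E3 →L[ℝ] ℝ).contDiff.contDiffAt.comp x h

theorem contDiffAt_det3 {E : Type*} [NormedAddCommGroup E] [NormedSpace ℝ E] {a b c : E → E3}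
    {x : E} {n : WithTop ℕ∞} (ha : ContDiffAt ℝ n a x) (hb : ContDiffAt ℝ n b x)
    (hc : ContDiffAt ℝ n c x) : ContDiffAt ℝ n (fun t => det3 (a t) (b t) (c t)) x := by
  have a0 := contDiffAt_coord ha 0
  have a1 := contDiffAt_coord ha 1
  have a2 := contDiffAt_coord ha 2
  have b0 := contDiffAt_coord hb 0
  have b1 := contDiffAt_coord hb 1
  have b2 := contDiffAt_coord hb 2
  have c0 := contDiffAt_coord hc 0
  have c1 := contDiffAt_coord hc 1
  have c2 := contDiffAt_coord hc 2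
  exact ((a0.mul ((b1.mul c2).sub (b2.mul c1))).sub
    (a1.mul ((b0.mul c2).sub (b2.mul c0)))).add (a2.mul ((b0.mul c1).sub (b1.mul c0)))

theorem continuousAt_det3 {E : Type*} [TopologicalSpace E] {a b c : E → E3}
    {x : E} (ha : ContinuousAt a x) (hb : ContinuousAt b x)
    (hc : ContinuousAt c x) : ContinuousAt (fun t => det3 (a t) (b t) (c t)) x := by
  have key : Continuous (fun q : E3 × E3 × E3 => det3 q.1 q.2.1 q.2.2) := by
    unfold det3; fun_prop
  exact key.continuousAt.comp (x := x) (f := fun t => (a t, b t, c t)) (ha.prodMk (hb.prodMk hc))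

/-- Data for the flux integral: a doubly periodic smooth map to three-space. -/
structure Data where
  X : ℝ × ℝ → E3
  L : ℝ
  hL : 0 < L
  smooth : ContDiff ℝ ∞ X
  per1 : ∀ s t, X (s + L, t) = X (s, t)
  per2 : ∀ s t, X (s, t + L) = X (s, t)
  Ψ : E3 → ℝ
  hΨ : ∀ y, y ≠ 0 → ContDiffAt ℝ ∞ Ψ y
  hhom : ∀ y, y ≠ 0 → fderiv ℝ Ψ y y = -3 * Ψ y

namespace Data

variable (D : Data)

noncomputable def X1 (p : ℝ × ℝ) : E3 := fderiv ℝ D.X p (1, 0)

noncomputable def X2 (p : ℝ × ℝ) : E3 := fderiv ℝ D.X p (0, 1)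

theorem smooth1 : ContDiff ℝ ∞ D.X1 :=
  (D.smooth.fderiv_right (m := ∞) (by simp)).clm_apply contDiff_const

theorem smooth2 : ContDiff ℝ ∞ D.X2 :=
  (D.smooth.fderiv_right (m := ∞) (by simp)).clm_apply contDiff_const

theorem fderiv_shift (v : ℝ × ℝ) (hv : ∀ p, D.X (p + v) = D.X p) (p : ℝ × ℝ) :
    fderiv ℝ D.X (p + v) = fderiv ℝ D.X p := by
  have h : (fun p => D.X (p + v)) = D.X := funext hv
  have h2 := fderiv_comp_add_right (𝕜 := ℝ) (f := D.X) (x := p) v
  rw [h] at h2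
  exact h2.symm

theorem shift1 (p : ℝ × ℝ) : D.X (p + (D.L, 0)) = D.X p := by
  have : p + (D.L, 0) = (p.1 + D.L, p.2) := by ext <;> simp
  rw [this, D.per1]

theorem shift2 (p : ℝ × ℝ) : D.X (p + (0, D.L)) = D.X p := by
  have : p + (0, D.L) = (p.1, p.2 + D.L) := by ext <;> simp
  rw [this, D.per2]

theorem X1_per2 (s : ℝ) : D.X1 (s, D.L) = D.X1 (s, 0) := by
  have := D.fderiv_shift (0, D.L) D.shift2 (s, 0)
  simp only [Prod.mk_add_mk, add_zero, zero_add] at this
  rw [X1, X1, this]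

theorem X2_per1 (t : ℝ) : D.X2 (D.L, t) = D.X2 (0, t) := by
  have := D.fderiv_shift (D.L, 0) D.shift1 (0, t)
  simp only [Prod.mk_add_mk, add_zero, zero_add] at this
  rw [X2, X2, this]

/-- Mixed second derivatives commute. -/
theorem mixed (p : ℝ × ℝ) : fderiv ℝ D.X2 p (1, 0) = fderiv ℝ D.X1 p (0, 1) := by
  have hd : DifferentiableAt ℝ (fderiv ℝ D.X) p :=
    (D.smooth.fderiv_right (m := ∞) (by simp)).differentiable (by simp) p
  have h1 : fderiv ℝ D.X2 p (1, 0) = fderiv ℝ (fderiv ℝ D.X) p (1, 0) (0, 1) := by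
    have : D.X2 = fun p => fderiv ℝ D.X p (0, 1) := rfl
    rw [this, fderiv_clm_apply hd (differentiableAt_const _)]
    simp
  have h2 : fderiv ℝ D.X1 p (0, 1) = fderiv ℝ (fderiv ℝ D.X) p (0, 1) (1, 0) := by
    have : D.X1 = fun p => fderiv ℝ D.X p (1, 0) := rfl
    rw [this, fderiv_clm_apply hd (differentiableAt_const _)]
    simp
  rw [h1, h2]
  have hsymm : IsSymmSndFDerivAt ℝ D.X p :=
    (D.smooth.contDiffAt).isSymmSndFDerivAt
      (by simp only [minSmoothness_of_isRCLikeNormedField]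
          show ((2 : ℕ∞) : WithTop ℕ∞) ≤ ((⊤ : ℕ∞) : WithTop ℕ∞)
          exact WithTop.coe_le_coe.2 le_top)
  exact hsymm _ _

noncomputable def Omega (g : E3) : ℝ :=
  ∫ p in Icc ((0 : ℝ), (0 : ℝ)) (D.L, D.L), D.Ψ (D.X p - g) * det3 (D.X p - g) (D.X1 p) (D.X2 p)

/-- The derivative along lines through a point. -/
theorem deriv_line {E : Type*} [NormedAddCommGroup E] [NormedSpace ℝ E] {f : ℝ × ℝ → E}
    {p : ℝ × ℝ} (hf : DifferentiableAt ℝ f p) (v : ℝ × ℝ) :
    HasDerivAt (fun t : ℝ => f (p + t • v)) (fderiv ℝ f p v) 0 := by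
  have h1 : HasDerivAt (fun t : ℝ => p + t • v) v 0 := by
    simpa using ((hasDerivAt_id (0 : ℝ)).smul_const v).const_add p
  have h2 : HasFDerivAt f (fderiv ℝ f p) (p + (0 : ℝ) • v) := by
    simpa using hf.hasFDerivAt
  exact h2.comp_hasDerivAt 0 h1

noncomputable def V (y : E3) : E3 := D.Ψ y • y

theorem V_deriv {y : ℝ → E3} {y' : E3} {t : ℝ} (hy : HasDerivAt y y' t) (h0 : y t ≠ 0) :
    HasDerivAt (fun t => D.V (y t)) (D.Ψ (y t) • y' + (fderiv ℝ D.Ψ (y t) y') • y t) t := by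
  have h1 : HasDerivAt (fun t => D.Ψ (y t)) (fderiv ℝ D.Ψ (y t) y') t :=
    (((D.hΨ _ h0).differentiableAt (by simp)).hasFDerivAt).comp_hasDerivAt t hy
  exact h1.smul hy

theorem V_contDiffAt {y : ℝ × ℝ → E3} {p : ℝ × ℝ} (hy : ContDiffAt ℝ ∞ y p) (h0 : y p ≠ 0) :
    ContDiffAt ℝ ∞ (fun p => D.V (y p)) p := by
  have h1 : ContDiffAt ℝ ∞ (fun p => D.Ψ (y p)) p := (D.hΨ _ h0).comp p hy
  exact h1.smul hy

/-- The pointwise divergence identity. -/
theorem div_identity (g h : E3) (p : ℝ × ℝ) (hp : D.X p ≠ g) :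
    fderiv ℝ (fun p => det3 h (D.V (D.X p - g)) (D.X2 p)) p (1, 0) +
      fderiv ℝ (fun p => det3 h (D.X1 p) (D.V (D.X p - g))) p (0, 1) =
    -(fderiv ℝ D.Ψ (D.X p - g) h) * det3 (D.X p - g) (D.X1 p) (D.X2 p)
      - D.Ψ (D.X p - g) * det3 h (D.X1 p) (D.X2 p) := by
  have h0 : D.X p - g ≠ 0 := sub_ne_zero.2 hp
  have hY : ContDiffAt ℝ ∞ (fun p => D.X p - g) p := (D.smooth.contDiffAt).sub contDiffAt_const
  have hV := D.V_contDiffAt hY h0
  have hdA : DifferentiableAt ℝ (fun p => det3 h (D.V (D.X p - g)) (D.X2 p)) p :=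
    (contDiffAt_det3 contDiffAt_const hV D.smooth2.contDiffAt).differentiableAt (by simp)
  have hdB : DifferentiableAt ℝ (fun p => det3 h (D.X1 p) (D.V (D.X p - g))) p :=
    (contDiffAt_det3 contDiffAt_const D.smooth1.contDiffAt hV).differentiableAt (by simp)
  have dX : DifferentiableAt ℝ D.X p := D.smooth.differentiable (by simp) p
  have dX1 : DifferentiableAt ℝ D.X1 p := D.smooth1.differentiable (by simp) p
  have dX2 : DifferentiableAt ℝ D.X2 p := D.smooth2.differentiable (by simp) p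
  have hp0 : ∀ v : ℝ × ℝ, p + (0 : ℝ) • v = p := fun v => by simp
  have eA : fderiv ℝ (fun p => det3 h (D.V (D.X p - g)) (D.X2 p)) p (1, 0) =
      det3 h (D.Ψ (D.X p - g) • D.X1 p + (fderiv ℝ D.Ψ (D.X p - g) (D.X1 p)) • (D.X p - g))
        (D.X2 p) + det3 h (D.V (D.X p - g)) (fderiv ℝ D.X2 p (1, 0)) := by
    have l1 := deriv_line hdA (1, 0)
    have y1 : HasDerivAt (fun t : ℝ => D.X (p + t • ((1, 0) : ℝ × ℝ)) - g) (D.X1 p) 0 :=
      (deriv_line dX (1, 0)).sub_const g
    have v1 := D.V_deriv y1 (by simpa [hp0] using h0)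
    have z1 := deriv_line dX2 (1, 0)
    have w1 := hasDerivAt_det3 (hasDerivAt_const (0 : ℝ) h) v1 z1
    have := l1.unique w1
    rw [this]
    simp only [hp0, det3_zero1, zero_add]
  have eB : fderiv ℝ (fun p => det3 h (D.X1 p) (D.V (D.X p - g))) p (0, 1) =
      det3 h (fderiv ℝ D.X1 p (0, 1)) (D.V (D.X p - g)) +
      det3 h (D.X1 p)
        (D.Ψ (D.X p - g) • D.X2 p + (fderiv ℝ D.Ψ (D.X p - g) (D.X2 p)) • (D.X p - g)) := by
    have l1 := deriv_line hdB (0, 1)
    have y1 : HasDerivAt (fun t : ℝ => D.X (p + t • ((0, 1) : ℝ × ℝ)) - g) (D.X2 p) 0 :=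
      (deriv_line dX (0, 1)).sub_const g
    have v1 := D.V_deriv y1 (by simpa [hp0] using h0)
    have z1 := deriv_line dX1 (0, 1)
    have w1 := hasDerivAt_det3 (hasDerivAt_const (0 : ℝ) h) z1 v1
    have := l1.unique w1
    rw [this]
    simp only [hp0, det3_zero1, zero_add]
  rw [eA, eB, D.mixed, det3_swap23 h (D.V (D.X p - g))]
  simp only [det3_add2, det3_smul2, det3_add3, det3_smul3]
  have hc := cramer (fderiv ℝ D.Ψ (D.X p - g)) h (D.X1 p) (D.X2 p) (D.X p - g)
  rw [D.hhom _ h0] at hc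
  linear_combination hc

theorem Icc_eq : Icc ((0 : ℝ), (0 : ℝ)) (D.L, D.L) = Icc 0 D.L ×ˢ Icc 0 D.L :=
  (Icc_prod_Icc _ _ _ _).symm

theorem isCompact_box : IsCompact (Icc ((0 : ℝ), (0 : ℝ)) (D.L, D.L)) := by
  rw [Icc_eq]; exact isCompact_Icc.prod isCompact_Icc

/-- The divergence integrates to zero. -/
theorem integral_div (g h : E3) (hg : ∀ p, D.X p ≠ g) :
    ∫ p in Icc ((0 : ℝ), (0 : ℝ)) (D.L, D.L),
      (-(fderiv ℝ D.Ψ (D.X p - g) h) * det3 (D.X p - g) (D.X1 p) (D.X2 p)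
      - D.Ψ (D.X p - g) * det3 h (D.X1 p) (D.X2 p)) = 0 := by
  have hcA : ∀ p, ContDiffAt ℝ ∞ (fun p => det3 h (D.V (D.X p - g)) (D.X2 p)) p := fun p =>
    contDiffAt_det3 contDiffAt_const (D.V_contDiffAt ((D.smooth.contDiffAt).sub contDiffAt_const)
      (sub_ne_zero.2 (hg p))) D.smooth2.contDiffAt
  have hcB : ∀ p, ContDiffAt ℝ ∞ (fun p => det3 h (D.X1 p) (D.V (D.X p - g))) p := fun p =>
    contDiffAt_det3 contDiffAt_const D.smooth1.contDiffAt
      (D.V_contDiffAt ((D.smooth.contDiffAt).sub contDiffAt_const) (sub_ne_zero.2 (hg p)))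
  have hA : ContDiff ℝ ∞ (fun p => det3 h (D.V (D.X p - g)) (D.X2 p)) :=
    contDiff_iff_contDiffAt.2 hcA
  have hB : ContDiff ℝ ∞ (fun p => det3 h (D.X1 p) (D.V (D.X p - g))) :=
    contDiff_iff_contDiffAt.2 hcB
  have hA' : Continuous (fun p =>
      fderiv ℝ (fun p => det3 h (D.V (D.X p - g)) (D.X2 p)) p (1, 0)) :=
    (((hA.fderiv_right (m := ∞) (by simp)).clm_apply contDiff_const).continuous)
  have hB' : Continuous (fun p =>
      fderiv ℝ (fun p => det3 h (D.X1 p) (D.V (D.X p - g))) p (0, 1)) :=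
    (((hB.fderiv_right (m := ∞) (by simp)).clm_apply contDiff_const).continuous)
  have key := integral_divergence_prod_Icc_of_hasFDerivAt_of_le
    (fun p => det3 h (D.V (D.X p - g)) (D.X2 p)) (fun p => det3 h (D.X1 p) (D.V (D.X p - g)))
    (fun p => fderiv ℝ (fun p => det3 h (D.V (D.X p - g)) (D.X2 p)) p)
    (fun p => fderiv ℝ (fun p => det3 h (D.X1 p) (D.V (D.X p - g))) p)
    (0, 0) (D.L, D.L) ⟨D.hL.le, D.hL.le⟩ hA.continuous.continuousOn hB.continuous.continuousOn
    (fun x _ => (hA.differentiable (by simp) x).hasFDerivAt)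
    (fun x _ => (hB.differentiable (by simp) x).hasFDerivAt)
    ((hA'.add hB').continuousOn.integrableOn_compact D.isCompact_box)
  simp only at key
  have e1 : ∀ x : ℝ, det3 h (D.X1 (x, D.L)) (D.V (D.X (x, D.L) - g)) =
      det3 h (D.X1 (x, 0)) (D.V (D.X (x, 0) - g)) := by
    intro x
    have := D.per2 x 0
    rw [zero_add] at this
    rw [D.X1_per2, this]
  have e2 : ∀ y : ℝ, det3 h (D.V (D.X (D.L, y) - g)) (D.X2 (D.L, y)) =
      det3 h (D.V (D.X (0, y) - g)) (D.X2 (0, y)) := by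
    intro y
    have := D.per1 0 y
    rw [zero_add] at this
    rw [D.X2_per1, this]
  simp only [e1, e2] at key
  rw [sub_self, zero_add, sub_self] at key
  refine Eq.trans ?_ key
  apply integral_congr_ae
  exact Filter.Eventually.of_forall fun p => (D.div_identity g h p (hg p)).symm

theorem deriv_Omega (g h : E3) (hg : ∀ p, D.X p ≠ g) :
    HasDerivAt (fun t : ℝ => D.Omega (g + t • h)) 0 0 := by
  -- a uniform time interval
  set U : Set (ℝ × (ℝ × ℝ)) := {q | D.X q.2 - (g + q.1 • h) ≠ 0} with hU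
  have hYc : Continuous (fun q : ℝ × (ℝ × ℝ) => D.X q.2 - (g + q.1 • h)) :=
    (D.smooth.continuous.comp continuous_snd).sub
      (continuous_const.add (continuous_fst.smul continuous_const))
  have hUo : IsOpen U := isOpen_ne_fun hYc continuous_const
  have hsub : ({0} : Set ℝ) ×ˢ Icc ((0 : ℝ), (0 : ℝ)) (D.L, D.L) ⊆ U := by
    rintro ⟨t, p⟩ ⟨ht, -⟩
    simp only [mem_singleton_iff] at ht
    subst ht
    show D.X p - (g + (0 : ℝ) • h) ≠ 0
    rw [zero_smul, add_zero]
    exact sub_ne_zero.2 (hg p)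
  obtain ⟨u, v, hu, -, hu', hv', huv⟩ := generalized_tube_lemma (isCompact_singleton (x := (0 : ℝ)))
    D.isCompact_box hUo hsub
  obtain ⟨ε, hε, hball⟩ := Metric.isOpen_iff.1 hu 0 (hu' rfl)
  have hmem : ∀ t ∈ Metric.closedBall (0 : ℝ) (ε / 2), ∀ p ∈ Icc ((0 : ℝ), (0 : ℝ)) (D.L, D.L),
      D.X p - (g + t • h) ≠ 0 := by
    intro t ht p hp
    have : (t, p) ∈ U := huv ⟨hball (Metric.closedBall_subset_ball (by linarith) ht), hv' hp⟩
    exact this
  set F' : ℝ → ℝ × ℝ → ℝ := fun t p =>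
    -(fderiv ℝ D.Ψ (D.X p - (g + t • h)) h) * det3 (D.X p - (g + t • h)) (D.X1 p) (D.X2 p)
      - D.Ψ (D.X p - (g + t • h)) * det3 h (D.X1 p) (D.X2 p) with hF'
  have hΨ' : ∀ y, y ≠ 0 → ContinuousAt (fun y => fderiv ℝ D.Ψ y h) y := fun y hy =>
    (((D.hΨ y hy).fderiv_right (m := ∞) (by simp)).continuousAt).clm_apply continuousAt_const
  have hdetc1 : Continuous (fun q : ℝ × (ℝ × ℝ) =>
      det3 (D.X q.2 - (g + q.1 • h)) (D.X1 q.2) (D.X2 q.2)) :=
    continuous_iff_continuousAt.2 fun q => continuousAt_det3 hYc.continuousAt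
      (D.smooth1.continuous.comp continuous_snd).continuousAt
      (D.smooth2.continuous.comp continuous_snd).continuousAt
  have hdetc2 : Continuous (fun q : ℝ × (ℝ × ℝ) => det3 h (D.X1 q.2) (D.X2 q.2)) :=
    continuous_iff_continuousAt.2 fun q => continuousAt_det3 continuousAt_const
      (D.smooth1.continuous.comp continuous_snd).continuousAt
      (D.smooth2.continuous.comp continuous_snd).continuousAt
  have hF'c : ∀ q ∈ U, ContinuousAt (fun q : ℝ × (ℝ × ℝ) => F' q.1 q.2) q := by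
    intro q hq
    have h1 : ContinuousAt (fun q : ℝ × (ℝ × ℝ) => fderiv ℝ D.Ψ (D.X q.2 - (g + q.1 • h)) h) q :=
      ContinuousAt.comp (g := fun y => fderiv ℝ D.Ψ y h)
        (f := fun q : ℝ × (ℝ × ℝ) => D.X q.2 - (g + q.1 • h)) (hΨ' _ hq) hYc.continuousAt
    have h2 : ContinuousAt (fun q : ℝ × (ℝ × ℝ) => D.Ψ (D.X q.2 - (g + q.1 • h))) q :=
      ContinuousAt.comp (g := D.Ψ)
        (f := fun q : ℝ × (ℝ × ℝ) => D.X q.2 - (g + q.1 • h)) (D.hΨ _ hq).continuousAt
          hYc.continuousAt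
    exact (h1.neg.mul hdetc1.continuousAt).sub (h2.mul hdetc2.continuousAt)
  have hFc : ∀ q ∈ U, ContinuousAt (fun q : ℝ × (ℝ × ℝ) =>
      D.Ψ (D.X q.2 - (g + q.1 • h)) * det3 (D.X q.2 - (g + q.1 • h)) (D.X1 q.2) (D.X2 q.2)) q := by
    intro q hq
    have h2 : ContinuousAt (fun q : ℝ × (ℝ × ℝ) => D.Ψ (D.X q.2 - (g + q.1 • h))) q :=
      ContinuousAt.comp (g := D.Ψ)
        (f := fun q : ℝ × (ℝ × ℝ) => D.X q.2 - (g + q.1 • h)) (D.hΨ _ hq).continuousAt
          hYc.continuousAt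
    exact h2.mul hdetc1.continuousAt
  have hK : IsCompact (Metric.closedBall (0 : ℝ) (ε / 2) ×ˢ Icc ((0 : ℝ), (0 : ℝ)) (D.L, D.L)) :=
    (isCompact_closedBall _ _).prod D.isCompact_box
  obtain ⟨M, hM⟩ := hK.exists_bound_of_continuousOn (f := fun q : ℝ × (ℝ × ℝ) => F' q.1 q.2)
    (fun q hq => (hF'c q (hmem q.1 hq.1 q.2 hq.2)).continuousWithinAt)
  have hcont : ∀ t ∈ Metric.closedBall (0 : ℝ) (ε / 2),
      ContinuousOn (fun p => D.Ψ (D.X p - (g + t • h)) *
        det3 (D.X p - (g + t • h)) (D.X1 p) (D.X2 p)) (Icc ((0 : ℝ), (0 : ℝ)) (D.L, D.L)) := by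
    intro t ht p hp
    have h1 := hFc (t, p) (hmem t ht p hp)
    have h2 : ContinuousAt (fun p : ℝ × ℝ => (t, p)) p := (Continuous.prodMk_right t).continuousAt
    exact (ContinuousAt.comp (x := p) (f := fun p : ℝ × ℝ => (t, p)) h1 h2).continuousWithinAt
  have hcont' : ContinuousOn (F' 0) (Icc ((0 : ℝ), (0 : ℝ)) (D.L, D.L)) := by
    intro p hp
    have h1 := hF'c (0, p) (hmem 0 (Metric.mem_closedBall_self (by positivity)) p hp)
    have h2 : ContinuousAt (fun p : ℝ × ℝ => ((0 : ℝ), p)) p :=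
      (Continuous.prodMk_right (0 : ℝ)).continuousAt
    exact (ContinuousAt.comp (x := p) (f := fun p : ℝ × ℝ => ((0 : ℝ), p)) h1 h2).continuousWithinAt
  have hmeasI : MeasurableSet (Icc ((0 : ℝ), (0 : ℝ)) (D.L, D.L)) := measurableSet_Icc
  have main := hasDerivAt_integral_of_dominated_loc_of_deriv_le
    (μ := volume.restrict (Icc ((0 : ℝ), (0 : ℝ)) (D.L, D.L)))
    (F := fun t p => D.Ψ (D.X p - (g + t • h)) *
        det3 (D.X p - (g + t • h)) (D.X1 p) (D.X2 p)) (F' := F') (x₀ := (0 : ℝ))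
    (s := Metric.ball (0 : ℝ) (ε / 2)) (bound := fun _ => M)
    (Metric.ball_mem_nhds _ (by positivity))
    (Filter.eventually_of_mem (Metric.ball_mem_nhds (0 : ℝ) (by positivity : 0 < ε / 2))
      fun t ht => (hcont t (Metric.ball_subset_closedBall ht)).aestronglyMeasurable hmeasI)
    ((hcont 0 (Metric.mem_closedBall_self (by positivity))).integrableOn_compact D.isCompact_box)
    (hcont'.aestronglyMeasurable hmeasI)
    ((ae_restrict_iff' hmeasI).2 (Filter.Eventually.of_forall fun p hp t ht =>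
      hM (t, p) ⟨Metric.ball_subset_closedBall ht, hp⟩))
    ((continuousOn_const (c := M)).integrableOn_compact D.isCompact_box)
    ((ae_restrict_iff' hmeasI).2 (Filter.Eventually.of_forall fun p hp t ht => by
      have hne := hmem t (Metric.ball_subset_closedBall ht) p hp
      have hy : HasDerivAt (fun t : ℝ => D.X p - (g + t • h)) (-h) t := by
        have := ((hasDerivAt_id t).smul_const h).const_add g
        simpa using this.const_sub (D.X p)
      have h1 : HasDerivAt (fun t : ℝ => D.Ψ (D.X p - (g + t • h)))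
          (fderiv ℝ D.Ψ (D.X p - (g + t • h)) (-h)) t :=
        (((D.hΨ _ hne).differentiableAt (by simp)).hasFDerivAt).comp_hasDerivAt t hy
      have h2 := hasDerivAt_det3 hy (hasDerivAt_const t (D.X1 p)) (hasDerivAt_const t (D.X2 p))
      refine (h1.mul h2).congr_deriv ?_
      have z2 : det3 (D.X p - (g + t • h)) 0 (D.X2 p) = 0 := by
        simp only [det3, PiLp.zero_apply]; ring
      have z3 : det3 (D.X p - (g + t • h)) (D.X1 p) 0 = 0 := by
        simp only [det3, PiLp.zero_apply]; ring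
      rw [z2, z3, det3_neg1, map_neg]
      simp only [hF']
      ring))
  have h0 : ∫ p in Icc ((0 : ℝ), (0 : ℝ)) (D.L, D.L), F' 0 p = 0 := by
    have := D.integral_div g h hg
    simp only [hF', zero_smul, add_zero]
    exact this
  rw [h0] at main
  exact main.2

theorem Omega_segment (g h : E3) (hg : ∀ t ∈ Icc (0 : ℝ) 1, ∀ p, D.X p ≠ g + t • h) :
    D.Omega (g + h) = D.Omega g := by
  have hd : ∀ t ∈ Icc (0 : ℝ) 1, HasDerivAt (fun t : ℝ => D.Omega (g + t • h)) 0 t := by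
    intro t ht
    have h1 := D.deriv_Omega (g + t • h) h (hg t ht)
    have h2 : HasDerivAt (fun s : ℝ => s - t) 1 t := (hasDerivAt_id t).sub_const t
    have h1' : HasDerivAt (fun s : ℝ => D.Omega (g + t • h + s • h)) 0 (t - t) := by
      rw [sub_self]; exact h1
    have h3 := HasDerivAt.comp (h := fun s : ℝ => s - t)
      (h₂ := fun s : ℝ => D.Omega (g + t • h + s • h)) t h1' h2
    simp only [Function.comp_def, zero_mul] at h3
    refine h3.congr_of_eventuallyEq (Filter.Eventually.of_forall fun s => ?_)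
    simp only
    congr 1
    module
  have hconst := constant_of_has_deriv_right_zero (f := fun t : ℝ => D.Omega (g + t • h))
    (a := 0) (b := 1) (fun t ht => (hd t ht).continuousAt.continuousWithinAt)
    (fun t ht => (hd t ⟨ht.1, ht.2.le⟩).hasDerivWithinAt)
  have := hconst 1 ⟨zero_le_one, le_refl 1⟩
  simp only [one_smul, zero_smul, add_zero] at this
  exact this

end Data

end Pool.Agent.Helper253.Degree
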