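import Pool.Agent.Helper253.Separation

set_option autoImplicit false

namespace Pool.Agent.Helper253

open Quaternion Topology Set

theorem sub_of_preconn {T P Q : Set ℍ[ℝ]} (hT : IsPreconnected T) (hn : ∀ q ∈ T, ‖q‖ = 1)
    (hP : IsOpen P) (hQ : IsOpen Q) (hcov : ∀ q ∈ T, q ∈ P ∨ q ∈ Q)
    (hdis : ∀ q, ‖q‖ = 1 → q ∈ P → q ∉ Q) {a : ℍ[ℝ]} (ha : a ∈ T) (haQ : a ∈ Q) :
    ∀ q ∈ T, q ∈ Q := by
  intro q hq
  by_contra hcon
  have hqP : q ∈ P := (hcov q hq).resolve_right hcon
  obtain ⟨z, hz, hzP, hzQ⟩ := hT P Q hP hQ (fun q hq => hcov q hq) ⟨q, hq, hqP⟩ ⟨a, ha, haQ⟩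
  exact hdis z (hn z hz) hzP hzQ

namespace SpinCurve

theorem negRange_preconn (C : SpinCurve) :
    IsPreconnected (range (fun p : ℝ × ℝ => -C.B p.1 p.2)) :=
  isPreconnected_range C.continuous_B.neg

theorem negRange_norm (C : SpinCurve) :
    ∀ q ∈ range (fun p : ℝ × ℝ => -C.B p.1 p.2), ‖q‖ = 1 := by
  rintro _ ⟨p, rfl⟩
  simp only [norm_neg]
  exact C.norm_B _ _

/-- The one-sided case. -/
theorem two_curves_aux (C1 C2 : SpinCurve) (hno : ∀ s t s' t', C1.B s t ≠ -C2.B s' t')
    (hk1 : ∃ s t, C1.B s t = qk) (hk2 : ∀ s t, C2.B s t ≠ qk) : False := by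
  have h2 : ∀ s t, C2.B s t ≠ -1 := by
    intro s t h
    apply hno 0 0 s t
    rw [h, neg_neg, C1.B_self]
  obtain ⟨P, Q, hP, hQ, hcov, hdis, hkP, hQ1⟩ := C2.separation h2 hk2
  obtain ⟨s, t, hst⟩ := hk1
  have key := sub_of_preconn C1.negRange_preconn C1.negRange_norm hP hQ (by
    rintro _ ⟨p, rfl⟩
    apply hcov _ (by simp only [norm_neg]; exact C1.norm_B _ _)
    intro s' t' h
    apply hno p.1 p.2 s' t'
    rw [h]; simp) hdis (a := -1) ⟨(0, 0), by simp only [C1.B_self]⟩ hQ1
  have : qk ∈ Q := by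
    apply key
    refine ⟨(t, s), ?_⟩
    simp only
    rw [← C1.star_B s t, hst, star_qk, neg_neg]
  exact hdis qk norm_qk hkP this

theorem two_curves (C1 C2 : SpinCurve) : ∃ s t s' t', C1.B s t = -C2.B s' t' := by
  by_contra hcon
  have hno : ∀ s t s' t', C1.B s t ≠ -C2.B s' t' := by
    intro s t s' t' h
    exact hcon ⟨s, t, s', t', h⟩
  have hno' : ∀ s t s' t', C2.B s t ≠ -C1.B s' t' := by
    intro s t s' t' h
    apply hno s' t' s t
    rw [h, neg_neg]
  by_cases hk1 : ∃ s t, C1.B s t = qk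
  · by_cases hk2 : ∃ s t, C2.B s t = qk
    · obtain ⟨s, t, h⟩ := hk1
      obtain ⟨s', t', h'⟩ := hk2
      apply hno s t t' s'
      rw [h, ← C2.star_B s' t', h', star_qk, neg_neg]
    · exact two_curves_aux C1 C2 hno hk1 (fun s t h => hk2 ⟨s, t, h⟩)
  · by_cases hk2 : ∃ s t, C2.B s t = qk
    · exact two_curves_aux C2 C1 hno' hk2 (fun s t h => hk1 ⟨s, t, h⟩)
    · have k1 : ∀ s t, C1.B s t ≠ qk := fun s t h => hk1 ⟨s, t, h⟩
      have k2 : ∀ s t, C2.B s t ≠ qk := fun s t h => hk2 ⟨s, t, h⟩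
      have n1 : ∀ s t, C1.B s t ≠ -1 := by
        intro s t h
        apply hno' 0 0 s t
        rw [h, neg_neg, C2.B_self]
      have n2 : ∀ s t, C2.B s t ≠ -1 := by
        intro s t h
        apply hno 0 0 s t
        rw [h, neg_neg, C1.B_self]
      obtain ⟨P1, Q1, hP1, hQ1, hcov1, hdis1, hkP1, hQ11⟩ := C1.separation n1 k1
      obtain ⟨P2, Q2, hP2, hQ2, hcov2, hdis2, hkP2, hQ21⟩ := C2.separation n2 k2
      have key1 := sub_of_preconn C1.negRange_preconn C1.negRange_norm hP2 hQ2 (by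
        rintro _ ⟨p, rfl⟩
        apply hcov2 _ (by simp only [norm_neg]; exact C1.norm_B _ _)
        intro s' t' h
        apply hno p.1 p.2 s' t'
        rw [h]; simp) hdis2 (a := -1) ⟨(0, 0), by simp only [C1.B_self]⟩ hQ21
      have key2 := sub_of_preconn C2.negRange_preconn C2.negRange_norm hP1 hQ1 (by
        rintro _ ⟨p, rfl⟩
        apply hcov1 _ (by simp only [norm_neg]; exact C2.norm_B _ _)
        intro s' t' h
        apply hno' p.1 p.2 s' t'
        rw [h]; simp) hdis1 (a := -1) ⟨(0, 0), by simp only [C2.B_self]⟩ hQ11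
      set τ : ℍ[ℝ] → ℍ[ℝ] := fun g => -star g with hτ
      have hτc : Continuous τ := continuous_star.neg
      have hτn : ∀ g, ‖g‖ = 1 → ‖τ g‖ = 1 := by
        intro g hg
        simp only [hτ, norm_neg, norm_star, hg]
      have hsph : IsPreconnected (Metric.sphere (0 : ℍ[ℝ]) 1) := by
        apply isPreconnected_sphere
        rw [← Module.finrank_eq_rank, Quaternion.finrank_eq_four]
        norm_num
      have hU : IsOpen (P2 ∩ τ ⁻¹' P1) := hP2.inter (hP1.preimage hτc)
      have hV : IsOpen (Q2 ∪ τ ⁻¹' Q1) := hQ2.union (hQ1.preimage hτc)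
      have hcov : Metric.sphere (0 : ℍ[ℝ]) 1 ⊆ (P2 ∩ τ ⁻¹' P1) ∪ (Q2 ∪ τ ⁻¹' Q1) := by
        intro g hg
        rw [mem_sphere_zero_iff_norm] at hg
        by_cases hS2 : ∃ s t, C2.B s t = g
        · obtain ⟨s, t, hst⟩ := hS2
          right; right
          apply key2
          refine ⟨(t, s), ?_⟩
          simp only [hτ]
          rw [← hst, C2.star_B]
        · rcases hcov2 g hg (fun s t h => hS2 ⟨s, t, h⟩) with h | h
          · have h3 : ∀ s t, C1.B s t ≠ τ g := by
              intro s t h4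
              have h5 : g ∈ Q2 := by
                apply key1
                refine ⟨(t, s), ?_⟩
                simp only
                rw [← C1.star_B s t, h4]
                simp [hτ]
              exact hdis2 g hg h h5
            rcases hcov1 (τ g) (hτn g hg) h3 with h6 | h6
            · left; exact ⟨h, h6⟩
            · right; right; exact h6
          · right; left; exact h
      obtain ⟨z, hz, ⟨hz1, hz2⟩, hz3⟩ := hsph _ _ hU hV hcov
        ⟨qk, by rw [mem_sphere_zero_iff_norm]; exact norm_qk, hkP2, by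
          show τ qk ∈ P1
          simp only [hτ, star_qk, neg_neg]
          exact hkP1⟩
        ⟨1, by rw [mem_sphere_zero_iff_norm]; simp, Or.inr (by
          show τ 1 ∈ Q1
          simp only [hτ, star_one]
          exact hQ11)⟩
      rw [mem_sphere_zero_iff_norm] at hz
      rcases hz3 with h | h
      · exact hdis2 z hz hz1 h
      · exact hdis1 (τ z) (hτn z hz) hz2 h

end SpinCurve

end Pool.Agent.Helper253
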