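import Pool.Agent.Helper253.Product
import Pool.Agent.Helper253.TwoCurves

set_option autoImplicit false

namespace Pool.Agent.Helper253

open Quaternion Topology Set
open scoped ContDiff

def qi : ℍ[ℝ] := ⟨0, 1, 0, 0⟩
def qj : ℍ[ℝ] := ⟨0, 0, 1, 0⟩

theorem qi_re : qi.re = 0 := rfl
theorem qi_imI : qi.imI = 1 := rfl
theorem qi_imJ : qi.imJ = 0 := rfl
theorem qi_imK : qi.imK = 0 := rfl
theorem qj_re : qj.re = 0 := rfl
theorem qj_imI : qj.imI = 0 := rfl
theorem qj_imJ : qj.imJ = 1 := rfl
theorem qj_imK : qj.imK = 0 := rfl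

theorem qi_sq : qi * qi = -1 := by
  ext <;> simp [Quaternion.re_mul, Quaternion.imI_mul, Quaternion.imJ_mul, Quaternion.imK_mul,
    qi_re, qi_imI, qi_imJ, qi_imK]

/-- Normalising a nonzero intertwiner. -/
theorem normalise {q ν w : ℍ[ℝ]} (hq : q ≠ 0) (h : ν * q = q * w) :
    ∃ r : ℍ[ℝ], ‖r‖ = 1 ∧ ν * r = r * w := by
  refine ⟨(‖q‖⁻¹ : ℝ) • q, ?_, ?_⟩
  · rw [norm_smul, norm_inv, norm_norm, inv_mul_cancel₀ (norm_ne_zero_iff.2 hq)]
  · rw [mul_smul_comm, h, smul_mul_assoc]

/-- A unit imaginary quaternion is conjugate to `i`. -/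
theorem rot1 {ν : ℍ[ℝ]} (hsq : ν * ν = -1) : ∃ r : ℍ[ℝ], ‖r‖ = 1 ∧ ν * r = r * qi := by
  by_cases h : 1 - ν * qi = 0
  · have h1 : ν = -qi := by
      have h2 : ν * qi = 1 := (sub_eq_zero.1 h).symm
      have h3 : ν * qi * qi = qi := by rw [h2, one_mul]
      rw [mul_assoc, qi_sq, mul_neg_one] at h3
      rw [← h3, neg_neg]
    have hq : qj ≠ 0 := by
      intro h0
      have := congrArg (fun q : ℍ[ℝ] => q.imJ) h0
      simp [qj_imJ] at this
    apply normalise hq
    rw [h1]
    ext <;> simp [Quaternion.re_mul, Quaternion.imI_mul, Quaternion.imJ_mul, Quaternion.imK_mul,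
      qi_re, qi_imI, qi_imJ, qi_imK, qj_re, qj_imI, qj_imJ, qj_imK]
  · apply normalise h
    rw [mul_sub, sub_mul, ← mul_assoc, hsq, mul_assoc, qi_sq, mul_one, one_mul]
    simp only [neg_one_mul, mul_neg_one, sub_neg_eq_add]
    abel

/-- An orthonormal pair of imaginary quaternions is conjugate to `(i, k)`. -/
theorem rot2 {ν η : ℍ[ℝ]} (hν : ν * ν = -1) (hη : η.re = 0) (hηn : ‖η‖ = 1)
    (ho : (η * ν).re = 0) : ∃ r : ℍ[ℝ], ‖r‖ = 1 ∧ ν * r = r * qi ∧ η * r = r * qk := by
  obtain ⟨r1, hr1, h1⟩ := rot1 hν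
  have s1 := SpinCurve.star_mul_self' hr1
  have s2 := SpinCurve.self_mul_star' hr1
  set η' : ℍ[ℝ] := star r1 * η * r1 with hη'
  have hre : η'.re = 0 := by
    rw [hη', re_comm, ← mul_assoc, s2, one_mul, hη]
  have hn : ‖η'‖ = 1 := by
    rw [hη', norm_mul, norm_mul, norm_star, hr1, hηn]; norm_num
  have hI : η'.imI = 0 := by
    have h2 : (η' * qi).re = 0 := by
      have h3 : star r1 * η * r1 * qi = star r1 * (η * ν * r1) := by
        rw [mul_assoc _ r1 qi, ← h1]; simp only [mul_assoc]
      rw [hη', h3, re_comm, mul_assoc (η * ν), s2, mul_one, ho]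
    rw [Quaternion.re_mul, qi_re, qi_imI, qi_imJ, qi_imK] at h2
    linarith
  have hu := unit_eq hn
  rw [hre, hI] at hu
  obtain ⟨x, y, hxy, e1, e2⟩ : ∃ x y : ℝ, (x ≠ 0 ∨ y ≠ 0) ∧
      η'.imJ * x + η'.imK * y = -y ∧ η'.imK * x - η'.imJ * y = x := by
    by_cases hc : η'.imK = -1
    · have hb : η'.imJ = 0 := by
        rw [hc] at hu; nlinarith
      refine ⟨0, 1, Or.inr one_ne_zero, ?_, ?_⟩
      · rw [hb, hc]; ring
      · rw [hb, hc]; ring
    · refine ⟨1 + η'.imK, -η'.imJ, Or.inl ?_, ?_, ?_⟩
      · intro h; apply hc; linarith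
      · ring
      · nlinarith
  set s : ℍ[ℝ] := ⟨x, y, 0, 0⟩ with hs
  have s_re : s.re = x := rfl
  have s_imI : s.imI = y := rfl
  have s_imJ : s.imJ = 0 := rfl
  have s_imK : s.imK = 0 := rfl
  have hs0 : s ≠ 0 := by
    intro h0
    have a1 := congrArg (fun q : ℍ[ℝ] => q.re) h0
    have a2 := congrArg (fun q : ℍ[ℝ] => q.imI) h0
    simp only [s_re, s_imI, Quaternion.re_zero, Quaternion.imI_zero] at a1 a2
    rcases hxy with h | h
    · exact h a1
    · exact h a2
  have hsi : qi * s = s * qi := by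
    ext <;> simp [Quaternion.re_mul, Quaternion.imI_mul, Quaternion.imJ_mul, Quaternion.imK_mul,
      qi_re, qi_imI, qi_imJ, qi_imK, s_re, s_imI, s_imJ, s_imK]
  have hsk : η' * s = s * qk := by
    ext
    · simp [Quaternion.re_mul, qk_re, qk_imI, qk_imJ, qk_imK, s_re, s_imI, s_imJ, s_imK, hre, hI]
    · simp [Quaternion.imI_mul, qk_re, qk_imI, qk_imJ, qk_imK, s_re, s_imI, s_imJ, s_imK, hre, hI]
    · simp [Quaternion.imJ_mul, qk_re, qk_imI, qk_imJ, qk_imK, s_re, s_imI, s_imJ, s_imK, hre, hI]
      linarith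
    · simp [Quaternion.imK_mul, qk_re, qk_imI, qk_imJ, qk_imK, s_re, s_imI, s_imJ, s_imK, hre, hI]
      linarith
  have hn0 : ‖s‖ ≠ 0 := norm_ne_zero_iff.2 hs0
  refine ⟨r1 * ((‖s‖⁻¹ : ℝ) • s), ?_, ?_, ?_⟩
  · rw [norm_mul, hr1, one_mul, norm_smul, norm_inv, norm_norm, inv_mul_cancel₀ hn0]
  · rw [← mul_assoc, h1, mul_assoc, mul_smul_comm, hsi, mul_assoc, smul_mul_assoc]
  · have h3 : η * r1 = r1 * η' := by
      rw [hη', ← mul_assoc, ← mul_assoc, s2, one_mul]
    rw [← mul_assoc, h3, mul_assoc, mul_smul_comm, hsk, mul_assoc, smul_mul_assoc]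

/-- Building the closed curves of the topological theorem by a rotation and possibly a reversal. -/
theorem make_spin {γ : ℝ → ℍ[ℝ]} {L : ℝ} (hL : 0 < L) (hs : ContDiff ℝ ∞ γ)
    (hn : ∀ t, ‖γ t‖ = 1) (hp : ∀ t, γ (t + L) = γ t) {ν η r : ℍ[ℝ]} (hr : ‖r‖ = 1)
    (hνr : ν * r = r * qi) (hηr : η * r = r * qk)
    (ho : ∀ t, (star (γ t) * deriv γ t * ν).re = 0)
    (hre : ∀ t, (star (γ t) * deriv γ t).re = 0)
    (hu : ∀ t, ‖star (γ t) * deriv γ t‖ = 1)
    (hne1 : ∀ t, star (γ t) * deriv γ t ≠ η) (hne2 : ∀ t, star (γ t) * deriv γ t ≠ -η) :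
    ∃ (C : SpinCurve) (ε : ℝ), ∀ s t, C.B s t = star r * (star (γ (ε * s)) * γ (ε * t)) * r := by
  have s1 := SpinCurve.star_mul_self' hr
  have s2 := SpinCurve.self_mul_star' hr
  have hηeq : η = r * qk * star r := by
    rw [← hηr, mul_assoc, s2, mul_one]
  set x : ℝ → ℍ[ℝ] := fun t => star (γ t) * deriv γ t with hx
  have hxc : Continuous x := by
    have h2 : ContDiff ℝ ∞ (deriv γ) := by
      have := hs
      rw [contDiff_infty_iff_deriv] at this
      exact this.2
    exact ((contDiff_star hs).continuous).mul h2.continuous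
  have hI : ∀ t, (star r * x t * r).imI = 0 := by
    intro t
    have h2 : (star r * x t * r * qi).re = 0 := by
      rw [mul_assoc, ← hνr, re_comm, mul_assoc, ← mul_assoc r, s2, one_mul, re_comm]
      exact ho t
    rw [Quaternion.re_mul (star r * x t * r), qi_re, qi_imI, qi_imJ, qi_imK] at h2
    linarith
  have hJ : ∀ t, (star r * x t * r).imJ ≠ 0 := by
    intro t h0
    have hre' : (star r * x t * r).re = 0 := by
      rw [re_comm, ← mul_assoc, s2, one_mul]
      exact hre t
    have hn' : ‖star r * x t * r‖ = 1 := by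
      rw [norm_mul, norm_mul, norm_star, hr, one_mul, mul_one]
      exact hu t
    have h2 := unit_eq hn'
    rw [hre', hI, h0] at h2
    have h3 : ((star r * x t * r).imK - 1) * ((star r * x t * r).imK + 1) = 0 := by nlinarith
    have hback : x t = r * (star r * x t * r) * star r := by
      rw [← mul_assoc, ← mul_assoc, s2, one_mul, mul_assoc, s2, mul_one]
    rcases mul_eq_zero.1 h3 with h4 | h4
    · apply hne1 t
      have h5 : star r * x t * r = qk := by
        ext
        · rw [hre', qk_re]
        · rw [hI, qk_imI]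
        · rw [h0, qk_imJ]
        · rw [qk_imK]; linarith
      rw [hηeq, ← h5]
      exact hback
    · apply hne2 t
      have h5 : star r * x t * r = -qk := by
        ext
        · rw [hre', Quaternion.re_neg, qk_re, neg_zero]
        · rw [hI, Quaternion.imI_neg, qk_imI, neg_zero]
        · rw [h0, Quaternion.imJ_neg, qk_imJ, neg_zero]
        · rw [Quaternion.imK_neg, qk_imK]; linarith
      have h6 : x t = r * (-qk) * star r := by rw [← h5]; exact hback
      rw [mul_neg, neg_mul, ← hηeq] at h6
      exact h6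
  have hJc : Continuous (fun t => (star r * x t * r).imJ) :=
    Quaternion.continuous_imJ.comp ((continuous_const.mul hxc).mul continuous_const)
  have hdγ : ∀ t, HasDerivAt γ (deriv γ t) t := fun t =>
    (hs.differentiable (by simp) t).hasDerivAt
  -- the sign is constant
  have hsign : (∀ t, 0 < (star r * x t * r).imJ) ∨ (∀ t, (star r * x t * r).imJ < 0) := by
    by_contra hcon
    push Not at hcon
    obtain ⟨⟨a, ha⟩, ⟨b, hb⟩⟩ := hcon
    have := mem_range_of_exists_le_of_exists_ge hJc ⟨a, ha⟩ ⟨b, hb⟩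
    obtain ⟨c, hc⟩ := this
    exact hJ c hc
  rcases hsign with hpos | hneg
  · have hder : ∀ t, HasDerivAt (fun t => star r * γ t * r) (star r * deriv γ t * r) t :=
      fun t => ((hdγ t).const_mul (star r)).mul_const r
    have hlog : ∀ t, star (star r * γ t * r) * deriv (fun t => star r * γ t * r) t =
        star r * x t * r := by
      intro t
      rw [(hder t).deriv, star_mul, star_mul, star_star]
      simp only [hx, mul_assoc]
      rw [← mul_assoc r (star r), s2, one_mul]
    refine ⟨{ γ := fun t => star r * γ t * r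
              L := L
              hL := hL
              smooth := (contDiff_const.mul hs).mul contDiff_const
              norm_one := fun t => by
                rw [norm_mul, norm_mul, _root_.norm_star, hr, hn]; norm_num
              per := fun t => by rw [hp]
              hI := fun t => by rw [hlog]; exact hI t
              hJ := fun t => by rw [hlog]; exact hpos t }, 1, ?_⟩
    intro s t
    simp only [SpinCurve.B, one_mul, star_mul, star_star]
    simp only [mul_assoc]
    rw [← mul_assoc r (star r), s2, one_mul]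
  · have hder : ∀ t, HasDerivAt (fun t => star r * γ (-t) * r) (-(star r * deriv γ (-t) * r)) t := by
      intro t
      have h1 : HasDerivAt (fun t => γ (-t)) (-deriv γ (-t)) t := by
        have := HasDerivAt.scomp (h := fun t : ℝ => -t) t (hdγ (-t)) (hasDerivAt_neg t)
        exact this.congr_deriv (by simp)
      have h2 := (h1.const_mul (star r)).mul_const r
      simpa using h2
    have hlog : ∀ t, star (star r * γ (-t) * r) * deriv (fun t => star r * γ (-t) * r) t =
        -(star r * x (-t) * r) := by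
      intro t
      rw [(hder t).deriv, star_mul, star_mul, star_star]
      simp only [hx, mul_assoc, mul_neg]
      rw [← mul_assoc r (star r), s2, one_mul]
    refine ⟨{ γ := fun t => star r * γ (-t) * r
              L := L
              hL := hL
              smooth := (contDiff_const.mul (hs.comp contDiff_neg)).mul contDiff_const
              norm_one := fun t => by
                rw [norm_mul, norm_mul, _root_.norm_star, hr, hn]; norm_num
              per := fun t => by
                have : γ (-(t + L)) = γ (-t) := by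
                  rw [← hp (-(t + L))]; congr 1; ring
                rw [this]
              hI := fun t => by rw [hlog, Quaternion.imI_neg, hI, neg_zero]
              hJ := fun t => by rw [hlog, Quaternion.imJ_neg]; exact neg_pos.2 (hneg _) }, -1, ?_⟩
    intro s t
    simp only [SpinCurve.B, neg_mul, one_mul, star_mul, star_star]
    simp only [mul_assoc]
    rw [← mul_assoc r (star r), s2, one_mul]

end Pool.Agent.Helper253
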