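import Pool.Agent.Helper253.Rect

set_option autoImplicit false

namespace Pool.Agent.Helper253

open Topology Set
open scoped ContDiff
open Net

abbrev E2 := EuclideanSpace ℝ (Fin 2)
abbrev E4 := EuclideanSpace ℝ (Fin 4)

/-- The standard identification of the complex plane with the Euclidean plane. -/
noncomputable def isoT : ℂ ≃ₗᵢ[ℝ] E2 := Complex.orthonormalBasisOneI.repr

/-- The standard identification of the quaternions with Euclidean four-space. -/
noncomputable def isoQ : Quaternion ℝ ≃ₗᵢ[ℝ] E4 := Quaternion.linearIsometryEquivTuple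

theorem cross_ne {l1 l2 : ℂ} (h : LinearIndependent ℝ ![l1, l2]) : cr l1 l2 ≠ 0 := by
  intro h0
  rw [LinearIndependent.pair_iff] at h
  rw [cr] at h0
  have a := h l2.im (-l1.im) (by
    apply Complex.ext
    · simp only [Complex.add_re, Complex.real_smul, Complex.re_ofReal_mul, Complex.zero_re]
      linarith
    · simp only [Complex.add_im, Complex.real_smul, Complex.im_ofReal_mul, Complex.zero_im]
      ring)
  have b := h l2.re (-l1.re) (by
    apply Complex.ext
    · simp only [Complex.add_re, Complex.real_smul, Complex.re_ofReal_mul, Complex.zero_re]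
      ring
    · simp only [Complex.add_im, Complex.real_smul, Complex.im_ofReal_mul, Complex.zero_im]
      linarith)
  have c := h 1 0 (by
    apply Complex.ext
    · simp only [Complex.add_re, Complex.real_smul, Complex.re_ofReal_mul, Complex.zero_re]
      linarith [neg_eq_zero.1 b.2]
    · simp only [Complex.add_im, Complex.real_smul, Complex.im_ofReal_mul, Complex.zero_im]
      linarith [neg_eq_zero.1 a.2])
  exact one_ne_zero c.1

theorem li_symm {u v : E2} (hli : LinearIndependent ℝ ![u, v]) :
    LinearIndependent ℝ ![isoT.symm u, isoT.symm v] := by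
  rw [LinearIndependent.pair_iff] at hli ⊢
  intro s t hst
  apply hli s t
  have := congrArg isoT hst
  rw [map_add, map_smul, map_smul, isoT.apply_symm_apply, isoT.apply_symm_apply, map_zero] at this
  exact this

theorem fderiv_transport {F : E2 → E4} (hF : ContDiff ℝ ∞ F) (z w : ℂ) :
    fderiv ℝ (fun z => isoQ.symm (F (isoT z))) z w = isoQ.symm (fderiv ℝ F (isoT z) (isoT w)) := by
  have h1 : HasFDerivAt F (fderiv ℝ F (isoT z)) (isoT z) :=
    (hF.differentiable (by simp) (isoT z)).hasFDerivAt
  have h2 : HasFDerivAt (fun z : ℂ => isoT z) (isoT.toContinuousLinearEquiv : ℂ →L[ℝ] _) z :=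
    isoT.toContinuousLinearEquiv.hasFDerivAt
  have h3 : HasFDerivAt (fun y => isoQ.symm y)
      (isoQ.symm.toContinuousLinearEquiv : E4 →L[ℝ] Quaternion ℝ)
      (F (isoT z)) := isoQ.symm.toContinuousLinearEquiv.hasFDerivAt
  have h4 := h3.comp z (h1.comp z h2)
  have h5 := h4.fderiv
  have h6 : fderiv ℝ (fun z => isoQ.symm (F (isoT z))) z = _ := h5
  rw [h6]
  rfl

/-- The quaternionic form of an isometric immersion. -/
noncomputable def toImm {F : E2 → E4} (hF : ContDiff ℝ ∞ F) (hunit : ∀ x, ‖F x‖ = 1)
    (hiso : ∀ x w, ‖fderiv ℝ F x w‖ = ‖w‖) : Imm where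
  f := fun z => isoQ.symm (F (isoT z))
  smooth := isoQ.symm.contDiff.comp (hF.comp isoT.contDiff)
  unit := fun z => by rw [isoQ.symm.norm_map]; exact hunit _
  iso := fun z w => by rw [fderiv_transport hF, isoQ.symm.norm_map, hiso, isoT.norm_map]

/-- Lattice membership in transported form. -/
theorem lat_transport {u v p : E2} :
    p ∈ AddSubgroup.closure {u, v} ↔ isoT.symm p ∈ AddSubgroup.closure {isoT.symm u, isoT.symm v} := by
  rw [AddSubgroup.mem_closure_pair, AddSubgroup.mem_closure_pair]
  constructor
  · rintro ⟨m, n, rfl⟩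
    exact ⟨m, n, by rw [map_add, map_zsmul, map_zsmul]⟩
  · rintro ⟨m, n, h⟩
    refine ⟨m, n, ?_⟩
    apply isoT.symm.injective
    rw [map_add, map_zsmul, map_zsmul, h]

end Pool.Agent.Helper253
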