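import Pool.Agent.Helper253.NetOf

set_option autoImplicit false

namespace Pool.Agent.Helper253

open Quaternion Topology Set
open scoped ContDiff
open Net

theorem curve_deriv {E : Type*} [NormedAddCommGroup E] [NormedSpace ℝ E] {g : ℂ → E}
    (hg : ContDiff ℝ ∞ g) {c : ℝ → ℂ} {c' : ℂ} {t : ℝ} (hc : HasDerivAt c c' t) :
    HasDerivAt (fun t => g (c t)) (fderiv ℝ g (c t) c') t :=
  ((hg.differentiable (by simp) (c t)).hasFDerivAt).comp_hasDerivAt t hc

theorem const_of_deriv {E : Type*} [NormedAddCommGroup E] [NormedSpace ℝ E] {g : ℝ → E}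
    (hg : ∀ t, HasDerivAt g 0 t) (s t : ℝ) : g s = g t :=
  is_const_of_deriv_eq_zero (fun t => (hg t).differentiableAt) (fun t => (hg t).deriv) s t

namespace Imm

variable (S : Imm) (N : Net) (e1 : N.θ1 = S.θ1) (e2 : N.θ2 = S.θ2)

theorem T1_re (z : ℂ) : (S.T1 z).re = 0 := by
  have h1 := S.frameB.r1 z
  have h2 := S.frameB.r2 z
  unfold T1 Frame.T
  simp [h1, h2]

theorem T2_re (z : ℂ) : (S.T2 z).re = 0 := by
  have h1 := S.frameA.r1 z
  have h2 := S.frameA.r2 z
  unfold T2 Frame.T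
  simp [h1, h2]

include e1 in
theorem deriv_u (u v : ℝ) : HasDerivAt (fun u => S.f (N.α u + N.β v))
    (S.T1 (N.α u + N.β v) * S.f (N.α u + N.β v)) u := by
  have h := curve_deriv S.smooth ((N.α_deriv u).add_const (N.β v))
  rw [← N.θ1_net u v, e1, S.T1_eq] at h
  exact h

include e2 in
theorem deriv_v (u v : ℝ) : HasDerivAt (fun v => S.f (N.α u + N.β v))
    (S.f (N.α u + N.β v) * S.T2 (N.α u + N.β v)) v := by
  have h := curve_deriv S.smooth ((N.β_deriv v).const_add (N.α u))
  rw [← N.θ2_net u v, e2, S.T2_eq] at h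
  exact h

include e2 in
theorem T1_net (u v : ℝ) : S.T1 (N.α u + N.β v) = S.T1 (N.α u) := by
  have h : ∀ v, HasDerivAt (fun v => S.T1 (N.α u + N.β v)) 0 v := by
    intro v
    have h := curve_deriv S.T1_smooth ((N.β_deriv v).const_add (N.α u))
    rw [← N.θ2_net u v, e2, S.dT1 _ _ (S.d1 _)] at h
    exact h
  have := const_of_deriv h v 0
  simp only [N.β_zero, add_zero] at this
  exact this

include e1 e2 in
/-- The product formula. -/
theorem product (u v : ℝ) :
    S.f (N.α u + N.β v) = S.f (N.α u) * (star (S.f 0) * S.f (N.β v)) := by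
  have h : ∀ u, HasDerivAt (fun u => star (S.f (N.α u)) * S.f (N.α u + N.β v)) 0 u := by
    intro u
    have h1 := S.deriv_u N e1 u 0
    simp only [N.β_zero, add_zero] at h1
    have h2 := (hasDerivAt_star h1).mul (S.deriv_u N e1 u v)
    refine h2.congr_deriv ?_
    rw [S.T1_net N e2 u v, star_mul, imag_star (S.T1_re _)]
    simp only [mul_neg, neg_mul, mul_assoc]
    exact neg_add_cancel _
  have h3 := const_of_deriv h u 0
  simp only [N.α_zero, zero_add] at h3
  rw [← h3, ← mul_assoc, S.fs, one_mul]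

include e1 in
theorem m_const (u : ℝ) : S.m (N.α u) = S.m 0 := by
  have h : ∀ u, HasDerivAt (fun u => S.m (N.α u)) 0 u := by
    intro u
    have h := curve_deriv S.m_smooth (N.α_deriv u)
    rw [e1, S.dm] at h
    exact h
  have := const_of_deriv h u 0
  simp only [N.α_zero] at this
  exact this

include e2 in
theorem μ_const (v : ℝ) : S.μ (N.β v) = S.μ 0 := by
  have h : ∀ v, HasDerivAt (fun v => S.μ (N.β v)) 0 v := by
    intro v
    have h := curve_deriv S.μ_smooth (N.β_deriv v)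
    rw [e2, S.dμ] at h
    exact h
  have := const_of_deriv h v 0
  simp only [N.β_zero] at this
  exact this

theorem A_m_re (w z : ℂ) : (S.A w z * S.m z).re = 0 := by
  have h1 : S.A 1 z * S.m z = -S.A Complex.I z := S.frameA.P1m z
  have h2 : S.A Complex.I z * S.m z = S.A 1 z := S.frameA.P2m z
  rw [S.A_lin, add_mul, smul_mul_assoc, smul_mul_assoc, h1, h2]
  simp [S.A_re]

theorem B_μ_re (w z : ℂ) : (S.B w z * S.μ z).re = 0 := by
  rw [S.B_conj, μ, ← S.conj_mul, S.conj_re, S.A_m_re]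

/-- The first factor curve. -/
noncomputable def γ1 (u : ℝ) : ℍ[ℝ] := S.f (N.α u)

/-- The second factor curve. -/
noncomputable def γ2 (v : ℝ) : ℍ[ℝ] := star (S.f (N.β v)) * S.f 0

theorem γ1_smooth : ContDiff ℝ ∞ (S.γ1 N) := S.smooth.comp N.α_smooth

theorem γ2_smooth : ContDiff ℝ ∞ (S.γ2 N) :=
  (contDiff_star (S.smooth.comp N.β_smooth)).mul contDiff_const

theorem γ1_norm (u : ℝ) : ‖S.γ1 N u‖ = 1 := S.unit _

theorem γ2_norm (v : ℝ) : ‖S.γ2 N v‖ = 1 := by
  rw [γ2, norm_mul, norm_star, S.unit, S.unit, one_mul]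

include e1 e2 in
theorem product' (u v : ℝ) : S.f (N.α u + N.β v) = S.γ1 N u * star (S.γ2 N v) := by
  rw [S.product N e1 e2, γ1, γ2, star_mul, star_star]

theorem γ1_deriv (u : ℝ) : star (S.γ1 N u) * deriv (S.γ1 N) u =
    S.A (ei (N.θ1 (N.α u))) (N.α u) := by
  have h := curve_deriv S.smooth (N.α_deriv u)
  have h2 : deriv (S.γ1 N) u = fderiv ℝ S.f (N.α u) (ei (N.θ1 (N.α u))) := h.deriv
  rw [h2]; rfl

theorem γ2_deriv (v : ℝ) : star (S.γ2 N v) * deriv (S.γ2 N) v =
    -(star (S.f 0) * S.B (ei (N.θ2 (N.β v))) (N.β v) * S.f 0) := by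
  have h := (hasDerivAt_star (curve_deriv S.smooth (N.β_deriv v))).mul_const (S.f 0)
  have h2 : deriv (S.γ2 N) v = star (fderiv ℝ S.f (N.β v) (ei (N.θ2 (N.β v)))) * S.f 0 := h.deriv
  have h3 : fderiv ℝ S.f (N.β v) (ei (N.θ2 (N.β v))) =
      S.f (N.β v) * S.A (ei (N.θ2 (N.β v))) (N.β v) := S.dd_eq _ _
  rw [h2, h3, γ2, star_mul, star_mul, star_star, imag_star (S.A_re _ _), S.B_eq]
  simp only [mul_assoc, neg_mul, mul_neg]

include e1 in
theorem x1_orth (u : ℝ) : (star (S.γ1 N u) * deriv (S.γ1 N) u * S.m 0).re = 0 := by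
  rw [S.γ1_deriv N, ← S.m_const N e1 u, S.A_m_re]

include e2 in
theorem x2_orth (v : ℝ) : (star (S.γ2 N v) * deriv (S.γ2 N) v * S.m 0).re = 0 := by
  rw [S.γ2_deriv N, neg_mul, Quaternion.re_neg, neg_eq_zero]
  have h : (star (S.f 0) * S.B (ei (N.θ2 (N.β v))) (N.β v) * S.f 0 * S.m 0).re =
      (S.B (ei (N.θ2 (N.β v))) (N.β v) * S.μ (N.β v)).re := by
    rw [S.μ_const N e2 v, S.μ_eq, mul_assoc, mul_assoc, re_comm]
    simp only [mul_assoc]
  rw [h, S.B_μ_re]

include e1 e2 in
/-- The two logarithmic derivatives never agree up to sign. -/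
theorem x_ne (u v : ℝ) (ε : ℝ) :
    star (S.γ1 N u) * deriv (S.γ1 N) u ≠ ε • (star (S.γ2 N v) * deriv (S.γ2 N) v) := by
  intro h
  have g1 : HasDerivAt (S.γ1 N) (deriv (S.γ1 N) u) u :=
    ((S.γ1_smooth N).differentiable (by simp) u).hasDerivAt
  have g2 : HasDerivAt (S.γ2 N) (deriv (S.γ2 N) v) v :=
    ((S.γ2_smooth N).differentiable (by simp) v).hasDerivAt
  have a1 := curve_deriv S.smooth ((N.α_deriv u).add_const (N.β v))
  have a2 := curve_deriv S.smooth ((N.β_deriv v).const_add (N.α u))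
  have b1 : HasDerivAt (fun u => S.γ1 N u * star (S.γ2 N v))
      (deriv (S.γ1 N) u * star (S.γ2 N v)) u := g1.mul_const _
  have b2 : HasDerivAt (fun v => S.γ1 N u * star (S.γ2 N v))
      (S.γ1 N u * star (deriv (S.γ2 N) v)) v := (hasDerivAt_star g2).const_mul _
  have p1 : (fun u => S.f (N.α u + N.β v)) = fun u => S.γ1 N u * star (S.γ2 N v) :=
    funext fun u => S.product' N e1 e2 u v
  have p2 : (fun v => S.f (N.α u + N.β v)) = fun v => S.γ1 N u * star (S.γ2 N v) :=
    funext fun v => S.product' N e1 e2 u v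
  rw [← p1] at b1
  rw [← p2] at b2
  have c1 := a1.unique b1
  have c2 := a2.unique b2
  -- the second derivative in terms of the logarithmic derivative
  have n1 := SpinCurve.self_mul_star' (S.γ1_norm N u)
  have n2 := SpinCurve.self_mul_star' (S.γ2_norm N v)
  have hx2 : (star (S.γ2 N v) * deriv (S.γ2 N) v).re = 0 := by
    rw [S.γ2_deriv N, Quaternion.re_neg, re_comm, ← mul_assoc, S.fs, one_mul, S.B_conj,
      S.conj_re, S.A_re, neg_zero]
  have d1 : deriv (S.γ1 N) u = S.γ1 N u * (star (S.γ1 N u) * deriv (S.γ1 N) u) := by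
    rw [← mul_assoc, n1, one_mul]
  have d2 : deriv (S.γ2 N) v = S.γ2 N v * (star (S.γ2 N v) * deriv (S.γ2 N) v) := by
    rw [← mul_assoc, n2, one_mul]
  set x2 := star (S.γ2 N v) * deriv (S.γ2 N) v with hx
  rw [h] at d1
  have d3 : star (deriv (S.γ2 N) v) = -(x2 * star (S.γ2 N v)) := by
    rw [d2, star_mul, imag_star hx2, neg_mul]
  have hsum : fderiv ℝ S.f (N.α u + N.β v) (ei (N.θ1 (N.α u)) + ε • ei (N.θ2 (N.β v))) = 0 := by
    rw [map_add, map_smul, c1, c2, d1, d3]
    simp only [mul_smul_comm, smul_mul_assoc, mul_neg, smul_neg, mul_assoc]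
    exact add_neg_cancel _
  have hnorm := S.iso (N.α u + N.β v) (ei (N.θ1 (N.α u)) + ε • ei (N.θ2 (N.β v)))
  rw [hsum, norm_zero] at hnorm
  have h0 : ei (N.θ1 (N.α u)) + ε • ei (N.θ2 (N.β v)) = 0 := norm_eq_zero.1 hnorm.symm
  have hcr : cr (ei (N.θ2 (N.β v))) (ei (N.θ1 (N.α u)) + ε • ei (N.θ2 (N.β v))) = 0 := by
    rw [h0]; simp [cr]
  rw [cr_add, cr_smul_right, cr_self, mul_zero, add_zero, cr_ei] at hcr
  have := N.sin_net u v
  have := N.hs0
  linarith

include e1 in
/-- If the first angle is constant there is an antipodal pair. -/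
theorem antipodal_of_const1 (h : ∀ z, N.θ1 z = N.θ1 0) : ∃ x y, S.f y = -S.f x := by
  set w : ℂ := ei (N.θ1 0) with hw
  have hd : ∀ z v, fderiv ℝ S.θ1 z v = 0 := by
    intro z v
    have : S.θ1 = fun _ => N.θ1 0 := funext fun z => by rw [← e1]; exact h z
    rw [this]; simp
  have hT : ∀ t : ℝ, S.T1 (t • w) = S.T1 0 := by
    intro t
    have h2 : ∀ t : ℝ, HasDerivAt (fun t : ℝ => S.T1 (t • w)) 0 t := by
      intro t
      have h1 : HasDerivAt (fun t : ℝ => t • w) w t := by
        simpa using (hasDerivAt_id t).smul_const w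
      have := curve_deriv S.T1_smooth h1
      rw [S.dT1 _ _ (hd _ _)] at this
      exact this
    have := const_of_deriv h2 t 0
    simp only [zero_smul] at this
    exact this
  set y := S.T1 0 with hy
  have hyre : y.re = 0 := S.T1_re 0
  have hf : ∀ t : ℝ, HasDerivAt (fun t : ℝ => S.f (t • w)) (y * S.f (t • w)) t := by
    intro t
    have h1 : HasDerivAt (fun t : ℝ => t • w) w t := by
      simpa using (hasDerivAt_id t).smul_const w
    have h2 := curve_deriv S.smooth h1
    have h3 : w = ei (S.θ1 (t • w)) := by rw [← e1, h]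
    have h4 := S.T1_eq (t • w)
    rw [← h3, hT] at h4
    rw [h4] at h2
    exact h2
  have hnorm : ‖y‖ = 1 := by
    have h4 := S.T1_eq 0
    have h5 := S.iso 0 (ei (S.θ1 0))
    rw [h4, norm_mul, S.unit, mul_one, norm_ei] at h5
    exact h5
  have hyy : y * y = -1 := by
    rw [imag_sq hyre, hnorm]; simp
  have key : ∀ t : ℝ, HasDerivAt (fun t : ℝ => Real.cos t • S.f (t • w) -
      Real.sin t • (y * S.f (t • w))) 0 t := by
    intro t
    have h1 := (Real.hasDerivAt_cos t).smul (hf t)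
    have h2 := (Real.hasDerivAt_sin t).smul ((hf t).const_mul y)
    refine (h1.sub h2).congr_deriv ?_
    rw [← mul_assoc y y, hyy, neg_one_mul]
    module
  have hfin := const_of_deriv key Real.pi 0
  simp only [Real.cos_pi, Real.sin_pi, zero_smul, sub_zero, Real.cos_zero, Real.sin_zero,
    one_smul, neg_smul] at hfin
  exact ⟨Real.pi • w, 0, hfin.symm⟩

include e2 in
theorem antipodal_of_const2 (h : ∀ z, N.θ2 z = N.θ2 0) : ∃ x y, S.f y = -S.f x := by
  set w : ℂ := ei (N.θ2 0) with hw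
  have hd : ∀ z v, fderiv ℝ S.θ2 z v = 0 := by
    intro z v
    have : S.θ2 = fun _ => N.θ2 0 := funext fun z => by rw [← e2]; exact h z
    rw [this]; simp
  have hT : ∀ t : ℝ, S.T2 (t • w) = S.T2 0 := by
    intro t
    have h2 : ∀ t : ℝ, HasDerivAt (fun t : ℝ => S.T2 (t • w)) 0 t := by
      intro t
      have h1 : HasDerivAt (fun t : ℝ => t • w) w t := by
        simpa using (hasDerivAt_id t).smul_const w
      have := curve_deriv S.T2_smooth h1
      rw [S.dT2 _ _ (hd _ _)] at this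
      exact this
    have := const_of_deriv h2 t 0
    simp only [zero_smul] at this
    exact this
  set y := S.T2 0 with hy
  have hyre : y.re = 0 := S.T2_re 0
  have hf : ∀ t : ℝ, HasDerivAt (fun t : ℝ => S.f (t • w)) (S.f (t • w) * y) t := by
    intro t
    have h1 : HasDerivAt (fun t : ℝ => t • w) w t := by
      simpa using (hasDerivAt_id t).smul_const w
    have h2 := curve_deriv S.smooth h1
    have h3 : w = ei (S.θ2 (t • w)) := by rw [← e2, h]
    have h4 := S.T2_eq (t • w)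
    rw [← h3, hT] at h4
    rw [h4] at h2
    exact h2
  have hnorm : ‖y‖ = 1 := by
    have h4 := S.T2_eq 0
    have h5 := S.iso 0 (ei (S.θ2 0))
    rw [h4, norm_mul, S.unit, one_mul, norm_ei] at h5
    exact h5
  have hyy : y * y = -1 := by
    rw [imag_sq hyre, hnorm]; simp
  have key : ∀ t : ℝ, HasDerivAt (fun t : ℝ => Real.cos t • S.f (t • w) -
      Real.sin t • (S.f (t • w) * y)) 0 t := by
    intro t
    have h1 := (Real.hasDerivAt_cos t).smul (hf t)
    have h2 := (Real.hasDerivAt_sin t).smul ((hf t).mul_const y)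
    refine (h1.sub h2).congr_deriv ?_
    rw [mul_assoc _ y y, hyy, mul_neg_one]
    module
  have hfin := const_of_deriv key Real.pi 0
  simp only [Real.cos_pi, Real.sin_pi, zero_smul, sub_zero, Real.cos_zero, Real.sin_zero,
    one_smul, neg_smul] at hfin
  exact ⟨Real.pi • w, 0, hfin.symm⟩

end Imm

end Pool.Agent.Helper253
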