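import Pool.Agent.Helper253.Rot

set_option autoImplicit false

namespace Pool.Agent.Helper253

open Quaternion Topology Set
open scoped ContDiff
open Net

namespace Imm

variable (S : Imm)

/-- The circle orthogonal to the initial normal. -/
noncomputable def circ (t : ℝ) : ℍ[ℝ] := S.A (ei t) 0

theorem circ_cont : Continuous S.circ := by
  have h : S.circ = fun t => star (S.f 0) * fderiv ℝ S.f 0 (ei t) := rfl
  rw [h]
  exact continuous_const.mul ((fderiv ℝ S.f 0).continuous.comp contDiff_ei.continuous)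

theorem exists_circ {x : ℍ[ℝ]} (hre : x.re = 0) (hn : ‖x‖ = 1) (ho : (x * S.m 0).re = 0) :
    ∃ t, S.circ t = x := by
  set a : ℝ := -(x * S.A 1 0).re with ha
  set b : ℝ := -(x * S.A Complex.I 0).re with hb
  set w : ℂ := ⟨a, b⟩ with hw
  have q11 := S.A_sq1 0
  have q22 := S.A_sq2 0
  have q12 : S.A 1 0 * S.A Complex.I 0 = S.m 0 := rfl
  have q21 : S.A Complex.I 0 * S.A 1 0 = -S.m 0 := S.A_anti 0
  have hmre := S.m_re 0
  have m1 := S.frameA.P1m 0
  have m2 := S.frameA.P2m 0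
  have m1' : S.A 1 0 * S.m 0 = -S.A Complex.I 0 := m1
  have m2' : S.A Complex.I 0 * S.m 0 = S.A 1 0 := m2
  have hlin : S.A w 0 = a • S.A 1 0 + b • S.A Complex.I 0 := S.A_lin w 0
  have hp := multiple_of_orth (p := x - S.A w 0) (P1 := S.A 1 0) (P2 := S.A Complex.I 0)
    (m := S.m 0) (by rw [Quaternion.re_sub, hre, S.A_re, sub_zero]) (S.A_re _ _) (S.A_re _ _)
    hmre (S.mm 0) q12
    (by
      rw [sub_mul, hlin, add_mul, smul_mul_assoc, smul_mul_assoc, q11, q21]
      simp only [Quaternion.re_sub, Quaternion.re_add, Quaternion.re_smul, Quaternion.re_neg,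
        Quaternion.re_one, hmre, smul_eq_mul]
      rw [ha]; ring)
    (by
      rw [sub_mul, hlin, add_mul, smul_mul_assoc, smul_mul_assoc, q12, q22]
      simp only [Quaternion.re_sub, Quaternion.re_add, Quaternion.re_smul, Quaternion.re_neg,
        Quaternion.re_one, hmre, smul_eq_mul]
      rw [hb]; ring)
  have h0 : ((x - S.A w 0) * S.m 0).re = 0 := by
    rw [sub_mul, Quaternion.re_sub, ho, S.A_m_re, sub_zero]
  rw [h0, neg_zero, zero_smul] at hp
  have hx : x = S.A w 0 := sub_eq_zero.1 hp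
  have hwn : ‖w‖ = 1 := by rw [← S.A_norm w 0, ← hx, hn]
  refine ⟨w.arg, ?_⟩
  have h1 := Complex.norm_mul_exp_arg_mul_I w
  rw [hwn, Complex.ofReal_one, one_mul] at h1
  rw [circ, ei, h1, hx]

theorem x_periodic {γ : ℝ → ℍ[ℝ]} {L : ℝ} (hp : ∀ t, γ (t + L) = γ t) :
    Function.Periodic (fun t => star (γ t) * deriv γ t) L := by
  intro t
  have h2 : deriv γ (t + L) = deriv γ t := by
    have h3 : deriv (fun s => γ (s + L)) t = deriv γ (t + L) := deriv_comp_add_const γ L t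
    have h4 : (fun s => γ (s + L)) = γ := funext hp
    rw [h4] at h3
    exact h3.symm
  simp only [hp t, h2]

theorem x_cont {γ : ℝ → ℍ[ℝ]} (hs : ContDiff ℝ ∞ γ) :
    Continuous (fun t => star (γ t) * deriv γ t) := by
  have h2 : ContDiff ℝ ∞ (deriv γ) := by
    have := hs
    rw [contDiff_infty_iff_deriv] at this
    exact this.2
  exact ((contDiff_star hs).continuous).mul h2.continuous

theorem closed_set {x : ℝ → ℍ[ℝ]} {L : ℝ} (hL : 0 < L) (hp : Function.Periodic x L)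
    (hc : Continuous x) : IsClosed {t | S.circ t ∈ range x ∨ -S.circ t ∈ range x} := by
  have h1 : IsClosed (range x) := (hp.compact_of_continuous hL.ne' hc).isClosed
  exact (h1.preimage S.circ_cont).union (h1.preimage S.circ_cont.neg)

/-- The antipodal theorem for doubly periodic flat immersions. -/
theorem antipodal {l1 l2 : ℂ} (hl : cr l1 l2 ≠ 0) (p1 : Function.Periodic S.f l1)
    (p2 : Function.Periodic S.f l2) : ∃ x y, S.f y = -S.f x := by
  obtain ⟨N, e1, e2⟩ := S.exists_net hl p1 p2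
  have o1 : ∀ z w, |S.θ1 z - S.θ1 w| < Real.pi := by rw [← e1]; exact N.osc1
  have o2 : ∀ z w, |S.θ2 z - S.θ2 w| < Real.pi := by rw [← e2]; exact N.osc2
  have h11 : Function.Periodic N.θ1 l1 := by
    rw [e1]; exact periodic_of_osc o1 (S.cos1_periodic p1) (S.sin1_periodic p1)
  have h12 : Function.Periodic N.θ1 l2 := by
    rw [e1]; exact periodic_of_osc o1 (S.cos1_periodic p2) (S.sin1_periodic p2)
  have h21 : Function.Periodic N.θ2 l1 := by
    rw [e2]; exact periodic_of_osc o2 (S.cos2_periodic p1) (S.sin2_periodic p1)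
  have h22 : Function.Periodic N.θ2 l2 := by
    rw [e2]; exact periodic_of_osc o2 (S.cos2_periodic p2) (S.sin2_periodic p2)
  rcases N.beta_period hl h11 h12 h21 h22 with hc | ⟨q, hq, a, b, hβ⟩
  · exact S.antipodal_of_const1 N e1 hc
  rcases N.alpha_period hl h11 h12 h21 h22 with hc | ⟨p, hp, a', b', hα⟩
  · exact S.antipodal_of_const2 N e2 hc
  have P1 : ∀ t, S.γ1 N (t + p) = S.γ1 N t := by
    intro t
    rw [γ1, γ1, hα]
    exact ((p1.zsmul a').add_period (p2.zsmul b')) _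
  have P2 : ∀ t, S.γ2 N (t + q) = S.γ2 N t := by
    intro t
    rw [γ2, γ2, hβ]
    rw [((p1.zsmul a).add_period (p2.zsmul b)) (N.β t)]
  have n1 := S.γ1_norm N
  have n2 := S.γ2_norm N
  have re1 : ∀ t, (star (S.γ1 N t) * deriv (S.γ1 N) t).re = 0 := by
    intro t; rw [S.γ1_deriv N, S.A_re]
  have re2 : ∀ t, (star (S.γ2 N t) * deriv (S.γ2 N) t).re = 0 := by
    intro t
    rw [S.γ2_deriv N, Quaternion.re_neg, re_comm, ← mul_assoc, S.fs, one_mul, S.B_conj,
      S.conj_re, S.A_re, neg_zero]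
  have u1 : ∀ t, ‖star (S.γ1 N t) * deriv (S.γ1 N) t‖ = 1 := by
    intro t; rw [S.γ1_deriv N, S.A_norm, norm_ei]
  have u2 : ∀ t, ‖star (S.γ2 N t) * deriv (S.γ2 N) t‖ = 1 := by
    intro t
    rw [S.γ2_deriv N, norm_neg, norm_mul, norm_mul, _root_.norm_star, S.unit, one_mul, mul_one, B,
      norm_mul, _root_.norm_star, S.unit, mul_one]
    show ‖fderiv ℝ S.f _ _‖ = 1
    rw [S.iso, norm_ei]
  -- the choice of the third direction
  set x1 : ℝ → ℍ[ℝ] := fun t => star (S.γ1 N t) * deriv (S.γ1 N) t with hx1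
  set x2 : ℝ → ℍ[ℝ] := fun t => star (S.γ2 N t) * deriv (S.γ2 N) t with hx2
  have cl1 := S.closed_set hp (x_periodic P1) (x_cont (S.γ1_smooth N))
  have cl2 := S.closed_set hq (x_periodic P2) (x_cont (S.γ2_smooth N))
  have hxne : ∀ u v, x1 u ≠ x2 v := by
    intro u v h
    apply S.x_ne N e1 e2 u v 1
    rw [one_smul]; exact h
  have hxne' : ∀ u v, x1 u ≠ -x2 v := by
    intro u v h
    apply S.x_ne N e1 e2 u v (-1)
    rw [neg_one_smul]; exact h
  obtain ⟨t0, ht1, ht2⟩ : ∃ t0 : ℝ, ¬ (S.circ t0 ∈ range x1 ∨ -S.circ t0 ∈ range x1) ∧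
      ¬ (S.circ t0 ∈ range x2 ∨ -S.circ t0 ∈ range x2) := by
    by_contra hcon
    push Not at hcon
    have hcov : (univ : Set ℝ) ⊆ {t | S.circ t ∈ range x1 ∨ -S.circ t ∈ range x1} ∪
        {t | S.circ t ∈ range x2 ∨ -S.circ t ∈ range x2} := by
      intro t _
      by_cases h : S.circ t ∈ range x1 ∨ -S.circ t ∈ range x1
      · exact Or.inl h
      · right
        push Not at h
        exact hcon t h
    obtain ⟨s1, hs1⟩ := S.exists_circ (re1 0) (u1 0) (S.x1_orth N e1 0)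
    obtain ⟨s2, hs2⟩ := S.exists_circ (re2 0) (u2 0) (S.x2_orth N e2 0)
    obtain ⟨t, -, ht, ht'⟩ := isPreconnected_closed_iff.1 isPreconnected_univ _ _ cl1 cl2 hcov
      ⟨s1, mem_univ _, Or.inl ⟨0, hs1.symm⟩⟩ ⟨s2, mem_univ _, Or.inl ⟨0, hs2.symm⟩⟩
    rcases ht with ⟨u, hu⟩ | ⟨u, hu⟩ <;> rcases ht' with ⟨v, hv⟩ | ⟨v, hv⟩
    · exact hxne u v (hu.trans hv.symm)
    · apply hxne' u v
      have h1 : x1 u = S.circ t := hu
      have h2 : x2 v = -S.circ t := hv
      rw [h1, h2, neg_neg]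
    · apply hxne' u v
      have h1 : x1 u = -S.circ t := hu
      have h2 : x2 v = S.circ t := hv
      rw [h1, h2]
    · exact hxne u v (hu.trans hv.symm)
  set η := S.circ t0 with hη
  obtain ⟨r, hr, hνr, hηr⟩ := rot2 (S.mm 0) (S.A_re (ei t0) 0)
    (by rw [S.A_norm, norm_ei]) (S.A_m_re (ei t0) 0)
  have hηr' : η * r = r * qk := hηr
  have s1 := SpinCurve.star_mul_self' hr
  have s2 := SpinCurve.self_mul_star' hr
  obtain ⟨C1, ε1, hC1⟩ := make_spin hp (S.γ1_smooth N) n1 P1 hr hνr hηr' (S.x1_orth N e1) re1 u1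
    (fun t h => ht1 (Or.inl ⟨t, h⟩)) (fun t h => ht1 (Or.inr ⟨t, h⟩))
  obtain ⟨C2, ε2, hC2⟩ := make_spin hq (S.γ2_smooth N) n2 P2 hr hνr hηr' (S.x2_orth N e2) re2 u2
    (fun t h => ht2 (Or.inl ⟨t, h⟩)) (fun t h => ht2 (Or.inr ⟨t, h⟩))
  obtain ⟨s, t, s', t', hst⟩ := SpinCurve.two_curves C1 C2
  rw [hC1, hC2] at hst
  set g1 := S.γ1 N with hg1
  set g2 := S.γ2 N with hg2
  have key : star (g1 (ε1 * s)) * g1 (ε1 * t) = -(star (g2 (ε2 * s')) * g2 (ε2 * t')) := by
    have h := congrArg (fun q : ℍ[ℝ] => r * q * star r) hst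
    beta_reduce at h
    have h1 : ∀ q : ℍ[ℝ], r * (star r * q * r) * star r = q := by
      intro q
      rw [← mul_assoc, ← mul_assoc, s2, one_mul, mul_assoc, s2, mul_one]
    rw [h1, mul_neg, neg_mul, h1] at h
    exact h
  refine ⟨N.α (ε1 * s) + N.β (ε2 * s'), N.α (ε1 * t) + N.β (ε2 * t'), ?_⟩
  rw [S.product' N e1 e2, S.product' N e1 e2]
  have m1 := SpinCurve.self_mul_star' (n1 (ε1 * s))
  have m2 := SpinCurve.self_mul_star' (n2 (ε2 * t'))
  calc g1 (ε1 * t) * star (g2 (ε2 * t')) =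
      g1 (ε1 * s) * (star (g1 (ε1 * s)) * g1 (ε1 * t)) * star (g2 (ε2 * t')) := by
        rw [← mul_assoc, m1, one_mul]
    _ = -(g1 (ε1 * s) * star (g2 (ε2 * s'))) := by
        rw [key, mul_neg, neg_mul, ← mul_assoc, mul_assoc, m2, mul_one]

end Imm

end Pool.Agent.Helper253
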