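import Pool.Agent.Helper253.Degree

set_option autoImplicit false

namespace Pool.Agent.Helper253.Degree

open MeasureTheory Topology Set
open scoped ContDiff

namespace Data

variable (D : Data)

theorem range_eq : range D.X = D.X '' Icc ((0 : ℝ), (0 : ℝ)) (D.L, D.L) := by
  apply subset_antisymm
  · rintro _ ⟨⟨s, t⟩, rfl⟩
    have h1 : Function.Periodic (fun s => D.X (s, t)) D.L := fun s => D.per1 s t
    obtain ⟨s', hs', hs''⟩ := h1.exists_mem_Ico₀ D.hL s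
    have h2 : Function.Periodic (fun t => D.X (s', t)) D.L := fun t => D.per2 s' t
    obtain ⟨t', ht', ht''⟩ := h2.exists_mem_Ico₀ D.hL t
    refine ⟨(s', t'), ⟨⟨hs'.1, ht'.1⟩, ⟨hs'.2.le, ht'.2.le⟩⟩, ?_⟩
    rw [← ht'', ← hs'']
  · rintro _ ⟨p, -, rfl⟩
    exact ⟨p, rfl⟩

theorem isCompact_range : IsCompact (range D.X) := by
  rw [range_eq]
  exact D.isCompact_box.image D.smooth.continuous

theorem local_const (g : E3) (hg : g ∉ range D.X) :
    ∃ ε > 0, ∀ g', dist g' g < ε → g' ∉ range D.X ∧ D.Omega g' = D.Omega g := by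
  have ho : IsOpen (range D.X)ᶜ := D.isCompact_range.isClosed.isOpen_compl
  obtain ⟨ε, hε, hball⟩ := Metric.isOpen_iff.1 ho g hg
  refine ⟨ε, hε, fun g' hg' => ⟨hball hg', ?_⟩⟩
  have h := D.Omega_segment g (g' - g) (fun t ht p hp => ?_)
  · rw [add_sub_cancel] at h
    exact h
  · have h1 : g + t • (g' - g) ∈ Metric.ball g ε := by
      rw [mem_ball_iff_norm, add_sub_cancel_left, norm_smul, Real.norm_eq_abs, abs_of_nonneg ht.1]
      rw [dist_eq_norm] at hg'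
      calc t * ‖g' - g‖ ≤ 1 * ‖g' - g‖ := by
            apply mul_le_mul_of_nonneg_right ht.2 (norm_nonneg _)
        _ < ε := by rw [one_mul]; exact hg'
    exact hball h1 ⟨p, hp⟩

theorem isOpen_zero : IsOpen {g | g ∉ range D.X ∧ D.Omega g = 0} := by
  rw [Metric.isOpen_iff]
  rintro g ⟨hg, h0⟩
  obtain ⟨ε, hε, h⟩ := D.local_const g hg
  exact ⟨ε, hε, fun g' hg' => ⟨(h g' hg').1, by rw [(h g' hg').2, h0]⟩⟩

theorem isOpen_ne_zero : IsOpen {g | g ∉ range D.X ∧ D.Omega g ≠ 0} := by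
  rw [Metric.isOpen_iff]
  rintro g ⟨hg, h0⟩
  obtain ⟨ε, hε, h⟩ := D.local_const g hg
  exact ⟨ε, hε, fun g' hg' => ⟨(h g' hg').1, by rw [(h g' hg').2]; exact h0⟩⟩

theorem coord_le_norm (y : E3) (i : Fin 3) : |y i| ≤ ‖y‖ := by
  have := PiLp.norm_apply_le y i
  rwa [Real.norm_eq_abs] at this

theorem norm_sq_eq (y : E3) : ‖y‖ ^ 2 = y 0 ^ 2 + y 1 ^ 2 + y 2 ^ 2 := by
  rw [EuclideanSpace.norm_sq_eq, Fin.sum_univ_three]
  simp only [Real.norm_eq_abs, sq_abs]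

/-- The invariant vanishes far away. -/
theorem Omega_far (hsupp : ∀ y : E3, y 2 ≤ 0 → D.Ψ y = 0) {R : ℝ} (hR0 : 0 ≤ R)
    (hR : ∀ p, ‖D.X p‖ ≤ R) (g : E3) (hg : R < ‖g‖) : D.Omega g = 0 := by
  have hup : ∀ g : E3, R < g 2 → D.Omega g = 0 := by
    intro g hg
    have h1 : ∀ p, D.Ψ (D.X p - g) = 0 := by
      intro p
      apply hsupp
      have h2 := coord_le_norm (D.X p) 2
      have h3 := le_abs_self (D.X p 2)
      have h4 := hR p
      rw [PiLp.sub_apply]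
      linarith
    unfold Omega
    simp only [h1, zero_mul, integral_zero]
  have hstep : ∀ g : E3, R < |g 0| → D.Omega g = 0 := by
    intro g hg
    set h : E3 := EuclideanSpace.single 2 (R + 1 + |g 2|) with hh
    have h1 := D.Omega_segment g h (fun t ht p hp => by
      have h2 := coord_le_norm (D.X p) 0
      rw [hp] at h2
      have h3 : (g + t • h) 0 = g 0 := by
        simp [hh, PiLp.add_apply, PiLp.smul_apply]
      rw [h3] at h2
      have := hR p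
      rw [hp] at this
      linarith)
    rw [← h1]
    apply hup
    have h4 : (g + h) 2 = g 2 + (R + 1 + |g 2|) := by
      simp [hh, PiLp.add_apply]
    rw [h4]
    have := neg_abs_le (g 2)
    linarith
  obtain ⟨e, he, hge⟩ : ∃ e : ℝ, |e| = 1 ∧ 0 ≤ g 0 * e := by
    rcases le_total 0 (g 0) with h | h
    · exact ⟨1, by simp, by simpa using h⟩
    · exact ⟨-1, by simp, by simpa using h⟩
  set h : E3 := EuclideanSpace.single 0 ((R + 1) * e) with hh
  have e0 : ∀ t : ℝ, (g + t • h) 0 = g 0 + t * ((R + 1) * e) := by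
    intro t; simp [hh, PiLp.add_apply, PiLp.smul_apply]
  have e1 : ∀ t : ℝ, (g + t • h) 1 = g 1 := by
    intro t; simp [hh, PiLp.add_apply, PiLp.smul_apply]
  have e2 : ∀ t : ℝ, (g + t • h) 2 = g 2 := by
    intro t; simp [hh, PiLp.add_apply, PiLp.smul_apply]
  have hseg := D.Omega_segment g h (fun t ht p hp => by
    have h1 := hR p
    rw [hp] at h1
    have h2 : ‖g‖ ^ 2 ≤ ‖g + t • h‖ ^ 2 := by
      rw [norm_sq_eq, norm_sq_eq, e0, e1, e2]
      have : 0 ≤ g 0 * (t * ((R + 1) * e)) := by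
        have h5 : g 0 * (t * ((R + 1) * e)) = (t * (R + 1)) * (g 0 * e) := by ring
        rw [h5]
        exact mul_nonneg (mul_nonneg ht.1 (by linarith)) hge
      nlinarith [sq_nonneg (t * ((R + 1) * e))]
    have h3 : ‖g‖ ≤ ‖g + t • h‖ := by
      apply le_of_sq_le_sq h2 (norm_nonneg _)
    linarith)
  rw [← hseg]
  apply hstep
  have e0' : (g + h) 0 = g 0 + (R + 1) * e := by
    have := e0 1
    simpa using this
  rw [e0']
  have h6 : (R + 1) ^ 2 ≤ (g 0 + (R + 1) * e) ^ 2 := by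
    have h7 : e ^ 2 = 1 := by rw [← sq_abs, he]; norm_num
    have h8 : (g 0 + (R + 1) * e) ^ 2 = g 0 ^ 2 + 2 * (R + 1) * (g 0 * e) + (R + 1) ^ 2 * e ^ 2 := by
      ring
    rw [h8, h7]
    have : 0 ≤ 2 * (R + 1) * (g 0 * e) := mul_nonneg (by linarith) hge
    nlinarith [sq_nonneg (g 0)]
  have h9 : (R + 1) ≤ |g 0 + (R + 1) * e| := by
    rw [← sq_abs (g 0 + (R + 1) * e)] at h6
    exact le_of_sq_le_sq h6 (abs_nonneg _)
  linarith

end Data

/-- The cone-supported kernel. -/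
noncomputable def Psi (κ : ℝ) (y : E3) : ℝ := Real.smoothTransition (y 2 / ‖y‖ - κ) * (‖y‖ ^ 3)⁻¹

theorem Psi_contDiffAt (κ : ℝ) {y : E3} (hy : y ≠ 0) : ContDiffAt ℝ ∞ (Psi κ) y := by
  have h1 : ContDiffAt ℝ ∞ (fun y : E3 => ‖y‖) y := contDiffAt_norm ℝ hy
  have h2 : ContDiffAt ℝ ∞ (fun y : E3 => y 2) y := contDiffAt_coord contDiffAt_id 2
  have h3 : ‖y‖ ≠ 0 := norm_ne_zero_iff.2 hy
  have h4 : ContDiffAt ℝ ∞ (fun y : E3 => y 2 / ‖y‖ - κ) y := (h2.div h1 h3).sub contDiffAt_const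
  have h5 : ContDiffAt ℝ ∞ (fun y : E3 => Real.smoothTransition (y 2 / ‖y‖ - κ)) y :=
    (Real.smoothTransition.contDiffAt).comp y h4
  exact h5.mul ((h1.pow 3).inv (pow_ne_zero 3 h3))

theorem Psi_hom (κ : ℝ) {y : E3} (hy : y ≠ 0) : fderiv ℝ (Psi κ) y y = -3 * Psi κ y := by
  have hd : HasFDerivAt (Psi κ) (fderiv ℝ (Psi κ) y) ((1 : ℝ) • y) := by
    rw [one_smul]
    exact ((Psi_contDiffAt κ hy).differentiableAt (by simp)).hasFDerivAt
  have h1 : HasDerivAt (fun t : ℝ => t • y) y 1 := by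
    simpa using (hasDerivAt_id (1 : ℝ)).smul_const y
  have h2 : HasDerivAt (fun t : ℝ => Psi κ (t • y)) (fderiv ℝ (Psi κ) y y) 1 :=
    HasFDerivAt.comp_hasDerivAt (f := fun t : ℝ => t • y) 1 hd h1
  have h3 : HasDerivAt (fun t : ℝ => (t ^ 3)⁻¹ * Psi κ y) (-3 * Psi κ y) 1 := by
    have := ((hasDerivAt_pow 3 (1 : ℝ)).fun_inv (by norm_num)).mul_const (Psi κ y)
    refine this.congr_deriv ?_
    norm_num
  refine h2.unique (h3.congr_of_eventuallyEq ?_)
  filter_upwards [lt_mem_nhds (zero_lt_one (α := ℝ))] with t ht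
  have hyn : ‖y‖ ≠ 0 := norm_ne_zero_iff.2 hy
  simp only [Psi]
  rw [PiLp.smul_apply, norm_smul, Real.norm_eq_abs, abs_of_pos ht, smul_eq_mul,
    mul_div_mul_left _ _ ht.ne', mul_pow, mul_inv]
  ring

theorem Psi_nonneg (κ : ℝ) (y : E3) : 0 ≤ Psi κ y :=
  mul_nonneg (Real.smoothTransition.nonneg _) (by positivity)

theorem Psi_supp {κ : ℝ} {y : E3} (h : y 2 / ‖y‖ ≤ κ) : Psi κ y = 0 := by
  rw [Psi, Real.smoothTransition.zero_of_nonpos (by linarith), zero_mul]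

theorem Psi_supp' {κ : ℝ} (hκ : 0 ≤ κ) {y : E3} (h : y 2 ≤ 0) : Psi κ y = 0 := by
  apply Psi_supp
  exact (div_nonpos_of_nonpos_of_nonneg h (norm_nonneg _)).trans hκ

theorem Psi_pos {κ : ℝ} {y : E3} (hy : y ≠ 0) (h : κ < y 2 / ‖y‖) : 0 < Psi κ y := by
  have : 0 < ‖y‖ := norm_pos_iff.2 hy
  exact mul_pos (Real.smoothTransition.pos_of_pos (by linarith)) (by positivity)

end Pool.Agent.Helper253.Degree
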