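import Pool.Agent.Helper253.Curve

set_option autoImplicit false

namespace Pool.Agent.Helper253

open Quaternion Topology
open scoped ContDiff

namespace SpinCurve

variable (C : SpinCurve)

/-- The key relation between the two sides of the triangle. -/
theorem W_relation {v m : ℝ} (hI : (C.B v (v + m)).imI = 0) (hJ : (C.B v (v + m)).imJ = 0)
    (s : ℝ) :
    C.W s (v + m) = -(C.W v s * ⟨(C.B v (v + m)).re, -(C.B v (v + m)).imK⟩) := by
  have h1 : C.B s (v + m) = star (C.B v s) * C.B v (v + m) := by
    rw [C.star_B, C.B_mul]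
  have hI' := congrArg (fun q : ℍ[ℝ] => q.imI) h1
  have hJ' := congrArg (fun q : ℍ[ℝ] => q.imJ) h1
  simp only [Quaternion.imI_mul, Quaternion.imJ_mul, Quaternion.re_star, Quaternion.imI_star,
    Quaternion.imJ_star, Quaternion.imK_star, hI, hJ] at hI' hJ'
  apply Complex.ext
  · simp only [W, Complex.neg_re, Complex.mul_re]
    rw [hJ']; ring
  · simp only [W, Complex.neg_im, Complex.mul_im]
    rw [hI']; ring

theorem norm_corner {v m : ℝ} (hI : (C.B v (v + m)).imI = 0) (hJ : (C.B v (v + m)).imJ = 0) :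
    (C.B v (v + m)).re ^ 2 + (C.B v (v + m)).imK ^ 2 = 1 := by
  have h := C.norm_B v (v + m)
  have h2 : Quaternion.normSq (C.B v (v + m)) = 1 := by
    rw [Quaternion.normSq_eq_norm_mul_self, h]; norm_num
  rw [Quaternion.normSq_def', hI, hJ] at h2
  linarith

theorem exists_loop : ∃ s t : ℝ,
    (C.B s t).imI = 0 ∧ (C.B s t).imJ = 0 ∧ (C.B s t).re ≤ 0 := by
  obtain ⟨v, m, hm0, hW0, hmin⟩ := C.exists_minimal
  obtain ⟨hI, hJ⟩ := C.W_eq_zero.1 hW0
  refine ⟨v, v + m, hI, hJ, ?_⟩
  by_contra hpos
  push Not at hpos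
  obtain ⟨δ, hδ0, -, hδ⟩ := C.near_diag
  -- derivatives near the corner
  have hc1 : Continuous (fun p : ℝ × ℝ => (C.B p.1 p.2 * C.x p.2).imJ) :=
    Quaternion.continuous_imJ.comp (C.continuous_B.mul (C.continuous_x.comp continuous_snd))
  have hc2 : Continuous (fun p : ℝ × ℝ => (C.x p.1 * C.B p.1 p.2).imJ) :=
    Quaternion.continuous_imJ.comp ((C.continuous_x.comp continuous_fst).mul C.continuous_B)
  have hp1 : 0 < (C.B v (v + m) * C.x (v + m)).imJ := by
    rw [Quaternion.imJ_mul, hI, hJ, C.x_re, C.x_imI]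
    have := C.x_imJ (v + m)
    simp only [zero_mul, sub_zero, mul_zero, add_zero]
    positivity
  have hp2 : 0 < (C.x v * C.B v (v + m)).imJ := by
    rw [Quaternion.imJ_mul, hI, hJ, C.x_re, C.x_imI]
    have := C.x_imJ v
    simp only [zero_mul, mul_zero, add_zero, zero_sub, neg_zero, zero_add]
    positivity
  have hev : ∀ᶠ p : ℝ × ℝ in 𝓝 (v, v + m),
      0 < (C.B p.1 p.2 * C.x p.2).imJ ∧ 0 < (C.x p.1 * C.B p.1 p.2).imJ :=
    ((hc1.tendsto (v, v + m)).eventually (lt_mem_nhds hp1)).and
      ((hc2.tendsto (v, v + m)).eventually (lt_mem_nhds hp2))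
  obtain ⟨η, hη0, hη⟩ := Metric.eventually_nhds_iff.1 hev
  -- the size of the cut corner
  obtain ⟨ε, hε0, hεη, hεδ, hεm⟩ : ∃ ε : ℝ, 0 < ε ∧ ε < η ∧ ε ≤ δ ∧ 3 * ε ≤ m := by
    refine ⟨min (min (η / 2) δ) (m / 3), by positivity, ?_, ?_, ?_⟩
    · have h1 := min_le_left (min (η / 2) δ) (m / 3)
      have h2 := min_le_left (η / 2) δ
      linarith
    · exact (min_le_left _ _).trans (min_le_right _ _)
    · have := min_le_right (min (η / 2) δ) (m / 3)
      linarith
  have hbox : ∀ s t : ℝ, |s - v| ≤ ε → |t - (v + m)| ≤ ε →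
      0 < (C.B s t * C.x t).imJ ∧ 0 < (C.x s * C.B s t).imJ := by
    intro s t hs ht
    refine hη (y := (s, t)) ?_
    rw [Prod.dist_eq, Real.dist_eq, Real.dist_eq]
    exact max_lt (by linarith) (by linarith)
  -- the value near the corner is negative
  have hcorner : ∀ y z : ℝ, 0 ≤ y → y ≤ ε → 0 ≤ z → z ≤ ε → 0 < y + z →
      (C.B (v + y) (v + m - z)).imJ < 0 := by
    intro y z hy0 hy hz0 hz hyz
    have hmono1 : StrictMonoOn (fun t => (C.B v t).imJ) (Set.Icc (v + m - ε) (v + m)) := by
      apply strictMonoOn_of_deriv_pos (convex_Icc _ _)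
      · intro t _
        exact (C.hasDeriv_J_right v t).continuousAt.continuousWithinAt
      · intro t ht
        rw [interior_Icc] at ht
        rw [(C.hasDeriv_J_right v t).deriv]
        exact (hbox v t (by simp [hε0.le]) (by rw [abs_le]; constructor <;> linarith [ht.1, ht.2])).1
    have hanti : StrictAntiOn (fun s => (C.B s (v + m - z)).imJ) (Set.Icc v (v + ε)) := by
      apply strictAntiOn_of_deriv_neg (convex_Icc _ _)
      · intro s _
        exact (C.hasDeriv_J_left s (v + m - z)).continuousAt.continuousWithinAt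
      · intro s hs
        rw [interior_Icc] at hs
        rw [(C.hasDeriv_J_left s (v + m - z)).deriv]
        have := (hbox s (v + m - z) (by rw [abs_le]; constructor <;> linarith [hs.1, hs.2])
          (by rw [abs_le]; constructor <;> linarith)).2
        linarith
    have h1 : (C.B v (v + m - z)).imJ ≤ 0 := by
      rcases hz0.eq_or_lt with h | h
      · rw [← h, sub_zero, hJ]
      · have := hmono1 ⟨by linarith, by linarith⟩ ⟨by linarith, le_refl _⟩
          (by linarith : v + m - z < v + m)
        simp only [hJ] at this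
        exact this.le
    rcases hy0.eq_or_lt with h | h
    · have hz' : 0 < z := by linarith
      rw [← h, add_zero]
      have := hmono1 ⟨by linarith, by linarith⟩ ⟨by linarith, le_refl _⟩
        (by linarith : v + m - z < v + m)
      simp only [hJ] at this
      exact this
    · have := hanti ⟨le_refl _, by linarith⟩ ⟨by linarith, by linarith⟩ (by linarith : v < v + y)
      simp only at this
      linarith
  -- the angle function on the clamped strip
  set cl : ℝ → ℝ := fun τ => max ε (min τ (m - ε)) with hcl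
  have hclc : Continuous cl := by
    rw [hcl]; fun_prop
  have hcl1 : ∀ τ, ε ≤ cl τ := fun τ => le_max_left _ _
  have hcl2 : ∀ τ, cl τ ≤ m - ε := fun τ => max_le (by linarith) (min_le_right _ _)
  have hcl3 : ∀ τ, ε ≤ τ → τ ≤ m - ε → cl τ = τ := by
    intro τ h1 h2
    rw [hcl]
    simp only
    rw [min_eq_left h2, max_eq_right h1]
  have hwc : Continuous (fun p : ℝ × ℝ => C.W p.1 (p.1 + cl p.2)) :=
    C.continuous_W.comp (continuous_fst.prodMk (continuous_fst.add (hclc.comp continuous_snd)))
  obtain ⟨φ, hφc, hφ⟩ := Loop.exists_angle (fun p : ℝ × ℝ => C.W p.1 (p.1 + cl p.2)) hwc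
    (fun p => hmin p.1 (cl p.2) (by linarith [hcl1 p.2]) (by linarith [hcl2 p.2]))
  have hcos : ∀ s τ : ℝ, ε ≤ τ → τ ≤ m - ε →
      (C.B s (s + τ)).imJ = ‖C.W s (s + τ)‖ * Real.cos (φ (s, τ)) := by
    intro s τ h1 h2
    have h3 := hφ (s, τ)
    simp only [hcl3 τ h1 h2] at h3
    have h4 := congrArg Complex.re h3
    rw [Complex.re_ofReal_mul, Complex.exp_ofReal_mul_I_re] at h4
    exact h4
  -- along the cut the cosine is negative
  have hneg : Real.cos ((φ (v, m - ε) + φ (v + ε, m - ε)) / 2) < 0 := by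
    have hc : Continuous (fun s : ℝ => φ (s, m - ε)) := hφc.comp (by fun_prop)
    apply Loop.cos_mid_neg (φ := fun s => φ (s, m - ε)) (by linarith : v ≤ v + ε) hc.continuousOn
    intro s hs
    have h1 := hcos s (m - ε) (by linarith) le_rfl
    have h2 := hcorner (s - v) (ε - (s - v)) (by linarith [hs.1]) (by linarith [hs.2])
      (by linarith [hs.2]) (by linarith [hs.1]) (by linarith)
    rw [show v + (s - v) = s by ring, show v + m - (ε - (s - v)) = s + (m - ε) by ring, h1] at h2
    by_contra hcon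
    push Not at hcon
    have : 0 ≤ ‖C.W s (s + (m - ε))‖ * Real.cos (φ (s, m - ε)) :=
      mul_nonneg (norm_nonneg _) hcon
    linarith
  -- along the near-diagonal line the cosine is positive
  have hposi : 0 < Real.cos ((φ (v, ε) + φ (v + m - ε, ε)) / 2) := by
    have hc : Continuous (fun s : ℝ => φ (s, ε)) := hφc.comp (by fun_prop)
    apply Loop.cos_mid_pos (φ := fun s => φ (s, ε)) (by linarith : v ≤ v + m - ε) hc.continuousOn
    intro s hs
    have h1 := hcos s ε le_rfl (by linarith)
    have h2 := hδ s ε hε0 hεδ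
    rw [h1] at h2
    by_contra hcon
    push Not at hcon
    have : ‖C.W s (s + ε)‖ * Real.cos (φ (s, ε)) ≤ 0 :=
      mul_nonpos_of_nonneg_of_nonpos (norm_nonneg _) hcon
    linarith
  -- the difference of the angles on the two sides is constant
  have hD : (fun s => φ (s, v + m - s) - φ (v, s - v)) (v + ε) =
      (fun s => φ (s, v + m - s) - φ (v, s - v)) (v + m - ε) := by
    have hc : Continuous (fun s : ℝ => φ (s, v + m - s) - φ (v, s - v)) :=
      (hφc.comp (by fun_prop)).sub (hφc.comp (by fun_prop))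
    apply Loop.eq_of_exp_const (by linarith) hc.continuousOn
      (-⟨(C.B v (v + m)).re, -(C.B v (v + m)).imK⟩)
    intro s hs
    have r1 : ε ≤ v + m - s := by linarith [hs.2]
    have r2 : v + m - s ≤ m - ε := by linarith [hs.1]
    have r3 : ε ≤ s - v := by linarith [hs.1]
    have r4 : s - v ≤ m - ε := by linarith [hs.2]
    have h1 := hφ (s, v + m - s)
    have h2 := hφ (v, s - v)
    simp only [hcl3 _ r1 r2, hcl3 _ r3 r4] at h1 h2
    rw [show s + (v + m - s) = v + m by ring] at h1
    rw [show v + (s - v) = s by ring] at h2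
    have h3 := C.W_relation hI hJ s
    have hne : C.W v s ≠ 0 := by
      have := hmin v (s - v) (by linarith) (by linarith)
      rwa [show v + (s - v) = s by ring] at this
    have hnormc : ‖(⟨(C.B v (v + m)).re, -(C.B v (v + m)).imK⟩ : ℂ)‖ = 1 := by
      rw [Complex.norm_def, Complex.normSq_mk]
      have := C.norm_corner hI hJ
      rw [show (C.B v (v + m)).re * (C.B v (v + m)).re +
        -(C.B v (v + m)).imK * -(C.B v (v + m)).imK = 1 by linarith, Real.sqrt_one]
    have hnorm : ‖C.W s (v + m)‖ = ‖C.W v s‖ := by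
      rw [h3, norm_neg, norm_mul, hnormc, mul_one]
    rw [hnorm] at h1
    have hne' : (‖C.W v s‖ : ℂ) ≠ 0 := by
      rw [Complex.ofReal_ne_zero]; exact norm_ne_zero_iff.2 hne
    have h4 : (‖C.W v s‖ : ℂ) * Complex.exp (φ (s, v + m - s) * Complex.I) =
        (‖C.W v s‖ : ℂ) * (Complex.exp (φ (v, s - v) * Complex.I) *
          (-⟨(C.B v (v + m)).re, -(C.B v (v + m)).imK⟩)) := by
      rw [← h1, h3]
      conv_lhs => rw [h2]
      ring
    have h5 := mul_left_cancel₀ hne' h4
    push_cast
    rw [sub_mul, Complex.exp_sub, h5]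
    field_simp
  simp only at hD
  rw [show v + m - (v + ε) = m - ε by ring, show v + ε - v = ε by ring,
    show v + m - (v + m - ε) = ε by ring, show v + m - ε - v = m - ε by ring] at hD
  have hsum : φ (v, m - ε) + φ (v + ε, m - ε) = φ (v, ε) + φ (v + m - ε, ε) := by linarith
  rw [hsum] at hneg
  linarith

end SpinCurve

end Pool.Agent.Helper253
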