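import Pool.Agent.Helper253.Flux
import Pool.Agent.Helper253.LoopThm

set_option autoImplicit false

namespace Pool.Agent.Helper253

open Quaternion Topology Set MeasureTheory
open scoped ContDiff
open Degree

/-- The components of a quaternion as continuous linear functionals. -/
noncomputable def cR : ℍ[ℝ] →L[ℝ] ℝ :=
  LinearMap.toContinuousLinearMap
    { toFun := fun q => q.re
      map_add' := fun a b => by simp
      map_smul' := fun m a => by simp }

noncomputable def cI : ℍ[ℝ] →L[ℝ] ℝ :=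
  LinearMap.toContinuousLinearMap
    { toFun := fun q => q.imI
      map_add' := fun a b => by simp
      map_smul' := fun m a => by simp }

noncomputable def cK : ℍ[ℝ] →L[ℝ] ℝ :=
  LinearMap.toContinuousLinearMap
    { toFun := fun q => q.imK
      map_add' := fun a b => by simp
      map_smul' := fun m a => by simp }

/-- Stereographic projection from minus one. -/
noncomputable def sigma (q : ℍ[ℝ]) : E3 :=
  !₂[q.imI / (1 + q.re), q.imJ / (1 + q.re), q.imK / (1 + q.re)]

theorem sigma_zero (q : ℍ[ℝ]) : sigma q 0 = q.imI / (1 + q.re) := rfl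
theorem sigma_one (q : ℍ[ℝ]) : sigma q 1 = q.imJ / (1 + q.re) := rfl
theorem sigma_two (q : ℍ[ℝ]) : sigma q 2 = q.imK / (1 + q.re) := rfl

theorem unit_eq {q : ℍ[ℝ]} (h : ‖q‖ = 1) : q.re ^ 2 + q.imI ^ 2 + q.imJ ^ 2 + q.imK ^ 2 = 1 := by
  have h2 : Quaternion.normSq q = 1 := by
    rw [Quaternion.normSq_eq_norm_mul_self, h]; norm_num
  rw [Quaternion.normSq_def'] at h2
  exact h2

theorem re_bound {q : ℍ[ℝ]} (h : ‖q‖ = 1) : -1 ≤ q.re := by
  have := unit_eq h
  nlinarith [sq_nonneg q.imI, sq_nonneg q.imJ, sq_nonneg q.imK, sq_nonneg (q.re + 1),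
    sq_nonneg (q.re - 1)]

theorem re_eq_neg_one {q : ℍ[ℝ]} (h : ‖q‖ = 1) (hr : q.re = -1) : q = -1 := by
  have := unit_eq h
  rw [hr] at this
  have hI : q.imI = 0 := by nlinarith [sq_nonneg q.imI, sq_nonneg q.imJ, sq_nonneg q.imK]
  have hJ : q.imJ = 0 := by nlinarith [sq_nonneg q.imI, sq_nonneg q.imJ, sq_nonneg q.imK]
  have hK : q.imK = 0 := by nlinarith [sq_nonneg q.imI, sq_nonneg q.imJ, sq_nonneg q.imK]
  ext <;> simp [hr, hI, hJ, hK]

theorem re_gt {q : ℍ[ℝ]} (h : ‖q‖ = 1) (hne : q ≠ -1) : 0 < 1 + q.re := by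
  rcases (re_bound h).lt_or_eq with h1 | h1
  · linarith
  · exact absurd (re_eq_neg_one h h1.symm) hne

theorem sigma_norm {q : ℍ[ℝ]} (h : ‖q‖ = 1) (hr : 0 < 1 + q.re) :
    ‖sigma q‖ ^ 2 = (1 - q.re) / (1 + q.re) := by
  rw [Data.norm_sq_eq, sigma_zero, sigma_one, sigma_two]
  have := unit_eq h
  field_simp
  nlinarith

theorem sigma_inj {q q' : ℍ[ℝ]} (h : ‖q‖ = 1) (h' : ‖q'‖ = 1) (hr : 0 < 1 + q.re)
    (hr' : 0 < 1 + q'.re) (he : sigma q = sigma q') : q = q' := by
  have h1 := sigma_norm h hr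
  have h2 := sigma_norm h' hr'
  rw [he, h2, div_eq_div_iff hr'.ne' hr.ne'] at h1
  have h3 : q.re = q'.re := by nlinarith
  have e0 := congrArg (fun y : E3 => y 0) he
  have e1 := congrArg (fun y : E3 => y 1) he
  have e2 := congrArg (fun y : E3 => y 2) he
  simp only [sigma_zero, sigma_one, sigma_two, h3] at e0 e1 e2
  ext
  · exact h3
  · exact (div_left_inj' hr'.ne').1 e0
  · exact (div_left_inj' hr'.ne').1 e1
  · exact (div_left_inj' hr'.ne').1 e2

theorem sigma_contDiffAt {E : Type*} [NormedAddCommGroup E] [NormedSpace ℝ E] {f : E → ℍ[ℝ]}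
    {x : E} {n : WithTop ℕ∞} (hf : ContDiffAt ℝ n f x) (h : 1 + (f x).re ≠ 0) :
    ContDiffAt ℝ n (fun x => sigma (f x)) x := by
  have hR : ContDiffAt ℝ n (fun x => 1 + (f x).re) x :=
    contDiffAt_const.add (cR.contDiff.contDiffAt.comp x hf)
  have hI : ContDiffAt ℝ n (fun x => (f x).imI) x := cI.contDiff.contDiffAt.comp x hf
  have hJ : ContDiffAt ℝ n (fun x => (f x).imJ) x := SpinCurve.cJ.contDiff.contDiffAt.comp x hf
  have hK : ContDiffAt ℝ n (fun x => (f x).imK) x := cK.contDiff.contDiffAt.comp x hf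
  rw [contDiffAt_euclidean]
  intro i
  fin_cases i
  · exact hI.div hR h
  · exact hJ.div hR h
  · exact hK.div hR h

theorem sigma_continuousAt {q : ℍ[ℝ]} (h : 1 + q.re ≠ 0) : ContinuousAt sigma q :=
  (sigma_contDiffAt (n := 0) contDiffAt_id h).continuousAt

namespace SpinCurve

variable (C : SpinCurve)

theorem contDiff_B : ContDiff ℝ ∞ (fun p : ℝ × ℝ => C.B p.1 p.2) := by
  have h1 : ContDiff ℝ ∞ (fun p : ℝ × ℝ => star (C.γ p.1)) :=
    contDiff_star (C.smooth.comp contDiff_fst)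
  exact h1.mul (C.smooth.comp contDiff_snd)

noncomputable def X (p : ℝ × ℝ) : E3 := sigma (C.B p.1 p.2)

variable (h1 : ∀ s t, C.B s t ≠ -1)

include h1

theorem one_add_re_pos (s t : ℝ) : 0 < 1 + (C.B s t).re := re_gt (C.norm_B s t) (h1 s t)

theorem contDiff_X : ContDiff ℝ ∞ C.X :=
  contDiff_iff_contDiffAt.2 fun p =>
    sigma_contDiffAt C.contDiff_B.contDiffAt (C.one_add_re_pos h1 p.1 p.2).ne'

/-- The flux data attached to a curve and an opening parameter. -/
noncomputable def data (κ : ℝ) : Data where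
  X := C.X
  L := C.L
  hL := C.hL
  smooth := C.contDiff_X h1
  per1 := fun s t => by simp only [X, C.B_per_left]
  per2 := fun s t => by simp only [X, C.B_per_right]
  Ψ := Psi κ
  hΨ := fun y hy => Psi_contDiffAt κ hy
  hhom := fun y hy => Psi_hom κ hy

/-- The derivatives of the map at a point over the vertical axis. -/
theorem X1_axis (κ : ℝ) {s t : ℝ} (hI : (C.B s t).imI = 0) (hJ : (C.B s t).imJ = 0) :
    (C.data h1 κ).X1 (s, t) 0 = -((C.x s).imJ * (C.B s t).imK) / (1 + (C.B s t).re) ∧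
    (C.data h1 κ).X1 (s, t) 1 = -((C.x s).imJ * (C.B s t).re) / (1 + (C.B s t).re) := by
  have hpos := C.one_add_re_pos h1 s t
  have dX : DifferentiableAt ℝ C.X (s, t) := (C.contDiff_X h1).differentiable (by simp) _
  have l1 : HasDerivAt (fun r : ℝ => C.X ((s, t) + r • ((1 : ℝ), (0 : ℝ))))
      ((C.data h1 κ).X1 (s, t)) 0 := Data.deriv_line dX (1, 0)
  have hB : HasDerivAt (fun r : ℝ => C.B (s + r) t) (-(C.x s * C.B s t)) 0 := by
    have := C.hasDeriv_B_left (s + 0) t
    have h2 := this.comp_const_add s 0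
    simpa using h2
  have hbI : HasDerivAt (fun r : ℝ => (C.B (s + r) t).imI) (cI (-(C.x s * C.B s t))) 0 :=
    (cI.hasFDerivAt (x := C.B (s + 0) t)).comp_hasDerivAt (0 : ℝ) hB
  have hbJ : HasDerivAt (fun r : ℝ => (C.B (s + r) t).imJ) (cJ (-(C.x s * C.B s t))) 0 :=
    (cJ.hasFDerivAt (x := C.B (s + 0) t)).comp_hasDerivAt (0 : ℝ) hB
  have hbR : HasDerivAt (fun r : ℝ => 1 + (C.B (s + r) t).re) (cR (-(C.x s * C.B s t))) 0 :=
    ((cR.hasFDerivAt (x := C.B (s + 0) t)).comp_hasDerivAt (0 : ℝ) hB).const_add 1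
  have hne : 1 + (C.B (s + 0) t).re ≠ 0 := by rw [add_zero]; exact hpos.ne'
  have q0 := hbI.fun_div hbR hne
  have q1 := hbJ.fun_div hbR hne
  have e : ∀ r : ℝ, (s, t) + r • ((1 : ℝ), (0 : ℝ)) = (s + r, t) := by
    intro r; simp
  have c0 : HasDerivAt (fun r : ℝ => (C.B (s + r) t).imI / (1 + (C.B (s + r) t).re))
      ((C.data h1 κ).X1 (s, t) 0) 0 := by
    have := hasDerivAt_coord l1 0
    simpa only [e, X, sigma_zero] using this
  have c1 : HasDerivAt (fun r : ℝ => (C.B (s + r) t).imJ / (1 + (C.B (s + r) t).re))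
      ((C.data h1 κ).X1 (s, t) 1) 0 := by
    have := hasDerivAt_coord l1 1
    simpa only [e, X, sigma_one] using this
  have xr := C.x_re s
  have xI := C.x_imI s
  constructor
  · rw [c0.unique q0]
    simp only [add_zero, hI, zero_mul, sub_zero]
    have : cI (-(C.x s * C.B s t)) = -((C.x s).imJ * (C.B s t).imK) := by
      show (-(C.x s * C.B s t)).imI = _
      simp only [Quaternion.imI_neg, Quaternion.imI_mul, hI, hJ, xr, xI]
      ring
    rw [this]
    field_simp
  · rw [c1.unique q1]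
    simp only [add_zero, hJ, zero_mul, sub_zero]
    have : cJ (-(C.x s * C.B s t)) = -((C.x s).imJ * (C.B s t).re) := by
      show (-(C.x s * C.B s t)).imJ = _
      simp only [Quaternion.imJ_neg, Quaternion.imJ_mul, hI, hJ, xr, xI]
      ring
    rw [this]
    field_simp

theorem X2_axis (κ : ℝ) {s t : ℝ} (hI : (C.B s t).imI = 0) (hJ : (C.B s t).imJ = 0) :
    (C.data h1 κ).X2 (s, t) 0 = -((C.x t).imJ * (C.B s t).imK) / (1 + (C.B s t).re) ∧
    (C.data h1 κ).X2 (s, t) 1 = ((C.x t).imJ * (C.B s t).re) / (1 + (C.B s t).re) := by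
  have hpos := C.one_add_re_pos h1 s t
  have dX : DifferentiableAt ℝ C.X (s, t) := (C.contDiff_X h1).differentiable (by simp) _
  have l1 : HasDerivAt (fun r : ℝ => C.X ((s, t) + r • ((0 : ℝ), (1 : ℝ))))
      ((C.data h1 κ).X2 (s, t)) 0 := Data.deriv_line dX (0, 1)
  have hB : HasDerivAt (fun r : ℝ => C.B s (t + r)) (C.B s t * C.x t) 0 := by
    have := C.hasDeriv_B_right s (t + 0)
    have h2 := this.comp_const_add t 0
    simpa using h2
  have hbI : HasDerivAt (fun r : ℝ => (C.B s (t + r)).imI) (cI (C.B s t * C.x t)) 0 :=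
    (cI.hasFDerivAt (x := C.B s (t + 0))).comp_hasDerivAt (0 : ℝ) hB
  have hbJ : HasDerivAt (fun r : ℝ => (C.B s (t + r)).imJ) (cJ (C.B s t * C.x t)) 0 :=
    (cJ.hasFDerivAt (x := C.B s (t + 0))).comp_hasDerivAt (0 : ℝ) hB
  have hbR : HasDerivAt (fun r : ℝ => 1 + (C.B s (t + r)).re) (cR (C.B s t * C.x t)) 0 :=
    ((cR.hasFDerivAt (x := C.B s (t + 0))).comp_hasDerivAt (0 : ℝ) hB).const_add 1
  have hne : 1 + (C.B s (t + 0)).re ≠ 0 := by rw [add_zero]; exact hpos.ne'
  have q0 := hbI.fun_div hbR hne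
  have q1 := hbJ.fun_div hbR hne
  have e : ∀ r : ℝ, (s, t) + r • ((0 : ℝ), (1 : ℝ)) = (s, t + r) := by
    intro r; simp
  have c0 : HasDerivAt (fun r : ℝ => (C.B s (t + r)).imI / (1 + (C.B s (t + r)).re))
      ((C.data h1 κ).X2 (s, t) 0) 0 := by
    have := hasDerivAt_coord l1 0
    simpa only [e, X, sigma_zero] using this
  have c1 : HasDerivAt (fun r : ℝ => (C.B s (t + r)).imJ / (1 + (C.B s (t + r)).re))
      ((C.data h1 κ).X2 (s, t) 1) 0 := by
    have := hasDerivAt_coord l1 1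
    simpa only [e, X, sigma_one] using this
  have xr := C.x_re t
  have xI := C.x_imI t
  constructor
  · rw [c0.unique q0]
    simp only [add_zero, hI, zero_mul, sub_zero]
    have : cI (C.B s t * C.x t) = -((C.x t).imJ * (C.B s t).imK) := by
      show (C.B s t * C.x t).imI = _
      simp only [Quaternion.imI_mul, hI, hJ, xr, xI]
      ring
    rw [this]
    field_simp
  · rw [c1.unique q1]
    simp only [add_zero, hJ, zero_mul, sub_zero]
    have : cJ (C.B s t * C.x t) = ((C.x t).imJ * (C.B s t).re) := by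
      show (C.B s t * C.x t).imJ = _
      simp only [Quaternion.imJ_mul, hI, hJ, xr, xI]
      ring
    rw [this]
    field_simp

end SpinCurve

end Pool.Agent.Helper253
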