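import Pool.Agent.Helper253.Lattice
import Pool.Agent.Helper253.MainCurve

set_option autoImplicit false

namespace Pool.Agent.Helper253

open Quaternion Topology Set
open scoped ContDiff

section calculus

variable {E : Type*} [NormedAddCommGroup E] [NormedSpace ℝ E]

/-- Directional derivative on the complex plane. -/
noncomputable def dd (v : ℂ) (g : ℂ → E) (z : ℂ) : E := fderiv ℝ g z v

theorem contDiff_dd {g : ℂ → E} (hg : ContDiff ℝ ∞ g) (v : ℂ) : ContDiff ℝ ∞ (dd v g) :=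
  (hg.fderiv_right (m := ∞) (by simp)).clm_apply contDiff_const

theorem dd_lin (g : ℂ → E) (v z : ℂ) :
    dd v g z = v.re • dd 1 g z + v.im • dd Complex.I g z := by
  have h : v = v.re • (1 : ℂ) + v.im • Complex.I := by
    apply Complex.ext <;> simp
  unfold dd
  conv_lhs => rw [h]
  rw [map_add, map_smul, map_smul]

theorem dd_comm {g : ℂ → E} (hg : ContDiff ℝ ∞ g) (v w z : ℂ) :
    dd v (dd w g) z = dd w (dd v g) z := by
  have hd : DifferentiableAt ℝ (fderiv ℝ g) z :=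
    (hg.fderiv_right (m := ∞) (by simp)).differentiable (by simp) z
  have h1 : ∀ a b : ℂ, dd a (dd b g) z = fderiv ℝ (fderiv ℝ g) z a b := by
    intro a b
    have : dd b g = fun z => fderiv ℝ g z b := rfl
    rw [this]
    unfold dd
    rw [fderiv_clm_apply hd (differentiableAt_const _)]
    simp
  rw [h1, h1]
  have hsymm : IsSymmSndFDerivAt ℝ g z :=
    (hg.contDiffAt).isSymmSndFDerivAt
      (by simp only [minSmoothness_of_isRCLikeNormedField]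
          show ((2 : ℕ∞) : WithTop ℕ∞) ≤ ((⊤ : ℕ∞) : WithTop ℕ∞)
          exact WithTop.coe_le_coe.2 le_top)
  exact hsymm _ _

theorem dd_clm {F : Type*} [NormedAddCommGroup F] [NormedSpace ℝ F] (L : E →L[ℝ] F) {g : ℂ → E}
    (hg : ContDiff ℝ ∞ g) (v z : ℂ) : dd v (fun z => L (g z)) z = L (dd v g z) := by
  unfold dd
  have := (L.hasFDerivAt (x := g z)).comp z (hg.differentiable (by simp) z).hasFDerivAt
  have h2 : fderiv ℝ (fun z => L (g z)) z = L.comp (fderiv ℝ g z) := this.fderiv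
  rw [h2]
  rfl

theorem dd_star {g : ℂ → ℍ[ℝ]} (hg : ContDiff ℝ ∞ g) (v z : ℂ) :
    dd v (fun z => star (g z)) z = star (dd v g z) := dd_clm starC hg v z

theorem dd_add {g h : ℂ → E} (hg : ContDiff ℝ ∞ g) (hh : ContDiff ℝ ∞ h) (v z : ℂ) :
    dd v (fun z => g z + h z) z = dd v g z + dd v h z := by
  unfold dd
  rw [fderiv_fun_add (hg.differentiable (by simp) z) (hh.differentiable (by simp) z)]
  rfl

theorem dd_smul {r : ℂ → ℝ} {g : ℂ → E} (hr : ContDiff ℝ ∞ r) (hg : ContDiff ℝ ∞ g) (v z : ℂ) :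
    dd v (fun z => r z • g z) z = dd v r z • g z + r z • dd v g z := by
  unfold dd
  rw [fderiv_fun_smul (hr.differentiable (by simp) z) (hg.differentiable (by simp) z)]
  simp only [add_apply, smul_apply,
    ContinuousLinearMap.smulRight_apply]
  rw [add_comm]

theorem dd_mul {g h : ℂ → ℍ[ℝ]} (hg : ContDiff ℝ ∞ g) (hh : ContDiff ℝ ∞ h) (v z : ℂ) :
    dd v (fun z => g z * h z) z = dd v g z * h z + g z * dd v h z := by
  unfold dd
  have h1 := ((hg.differentiable (by simp) z).hasFDerivAt).mul'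
    ((hh.differentiable (by simp) z).hasFDerivAt)
  have h2 : fderiv ℝ (fun z => g z * h z) z = _ := h1.fderiv
  rw [h2]
  simp only [add_apply, smul_apply, smul_eq_mul]
  rw [add_comm]
  rfl

theorem dd_const (c : E) (v z : ℂ) : dd v (fun _ => c) z = 0 := by
  unfold dd
  simp

theorem dd_cos {r : ℂ → ℝ} (hr : ContDiff ℝ ∞ r) (v z : ℂ) :
    dd v (fun z => Real.cos (r z)) z = -(dd v r z * Real.sin (r z)) := by
  unfold dd
  have h1 := ((hr.differentiable (by simp) z).hasFDerivAt).cos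
  rw [h1.fderiv]
  simp only [smul_apply, smul_eq_mul]
  ring

theorem dd_sin {r : ℂ → ℝ} (hr : ContDiff ℝ ∞ r) (v z : ℂ) :
    dd v (fun z => Real.sin (r z)) z = dd v r z * Real.cos (r z) := by
  unfold dd
  have h1 := ((hr.differentiable (by simp) z).hasFDerivAt).sin
  rw [h1.fderiv]
  simp only [smul_apply, smul_eq_mul]
  ring

end calculus

/-- A moving orthonormal frame of imaginary quaternions along the plane with vanishing
connection form. -/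
structure Frame where
  P1 : ℂ → ℍ[ℝ]
  P2 : ℂ → ℍ[ℝ]
  m : ℂ → ℍ[ℝ]
  a11 : ℂ → ℝ
  a12 : ℂ → ℝ
  a21 : ℂ → ℝ
  a22 : ℂ → ℝ
  sP1 : ContDiff ℝ ∞ P1
  sP2 : ContDiff ℝ ∞ P2
  sm : ContDiff ℝ ∞ m
  s11 : ContDiff ℝ ∞ a11
  s12 : ContDiff ℝ ∞ a12
  s21 : ContDiff ℝ ∞ a21
  s22 : ContDiff ℝ ∞ a22
  r1 : ∀ z, (P1 z).re = 0
  r2 : ∀ z, (P2 z).re = 0
  rm : ∀ z, (m z).re = 0
  sq1 : ∀ z, P1 z * P1 z = -1
  sq2 : ∀ z, P2 z * P2 z = -1
  h12 : ∀ z, P1 z * P2 z = m z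
  h21 : ∀ z, P2 z * P1 z = -m z
  d11 : ∀ z, dd 1 P1 z = a11 z • m z
  d12 : ∀ z, dd Complex.I P1 z = a12 z • m z
  d21 : ∀ z, dd 1 P2 z = a21 z • m z
  d22 : ∀ z, dd Complex.I P2 z = a22 z • m z

namespace Frame

variable (Φ : Frame)

theorem P1m (z : ℂ) : Φ.P1 z * Φ.m z = -Φ.P2 z := by
  rw [← Φ.h12, ← mul_assoc, Φ.sq1, neg_one_mul]

theorem mP2 (z : ℂ) : Φ.m z * Φ.P2 z = -Φ.P1 z := by
  rw [← Φ.h12, mul_assoc, Φ.sq2, mul_neg_one]

theorem P2m (z : ℂ) : Φ.P2 z * Φ.m z = Φ.P1 z := by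
  rw [← neg_neg (Φ.m z), ← Φ.h21, mul_neg, ← mul_assoc, Φ.sq2, neg_one_mul, neg_neg]

theorem mP1 (z : ℂ) : Φ.m z * Φ.P1 z = Φ.P2 z := by
  rw [← neg_neg (Φ.m z), ← Φ.h21, neg_mul, mul_assoc, Φ.sq1, mul_neg_one, neg_neg]

theorem mm (z : ℂ) : Φ.m z * Φ.m z = -1 := by
  nth_rewrite 1 [← Φ.h12]
  rw [mul_assoc, Φ.P2m, Φ.sq1]

theorem dm1 (z : ℂ) : dd 1 Φ.m z = -(Φ.a11 z • Φ.P1 z) - Φ.a21 z • Φ.P2 z := by
  have h : Φ.m = fun z => Φ.P1 z * Φ.P2 z := funext fun z => (Φ.h12 z).symm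
  rw [h, dd_mul Φ.sP1 Φ.sP2, Φ.d11, Φ.d21, smul_mul_assoc, mul_smul_comm, Φ.mP2, Φ.P1m]
  simp only [smul_neg]
  abel

theorem dm2 (z : ℂ) : dd Complex.I Φ.m z = -(Φ.a12 z • Φ.P1 z) - Φ.a22 z • Φ.P2 z := by
  have h : Φ.m = fun z => Φ.P1 z * Φ.P2 z := funext fun z => (Φ.h12 z).symm
  rw [h, dd_mul Φ.sP1 Φ.sP2, Φ.d12, Φ.d22, smul_mul_assoc, mul_smul_comm, Φ.mP2, Φ.P1m]
  simp only [smul_neg]
  abel

/-- The coefficient matrix is singular. -/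
theorem det_eq (z : ℂ) : Φ.a12 z * Φ.a21 z = Φ.a11 z * Φ.a22 z := by
  have h := dd_comm Φ.sP1 1 Complex.I z
  have e1 : dd Complex.I Φ.P1 = fun z => Φ.a12 z • Φ.m z := funext Φ.d12
  have e2 : dd 1 Φ.P1 = fun z => Φ.a11 z • Φ.m z := funext Φ.d11
  rw [e1, e2, dd_smul Φ.s12 Φ.sm, dd_smul Φ.s11 Φ.sm, Φ.dm1, Φ.dm2] at h
  have h2 := congrArg (fun q : ℍ[ℝ] => (q * Φ.P2 z).re) h
  simp only [add_mul, sub_mul, neg_mul, smul_mul_assoc, smul_sub, smul_neg, Φ.h12, Φ.sq2, Φ.mP2,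
    Quaternion.re_add, Quaternion.re_sub, Quaternion.re_neg, Quaternion.re_smul, Φ.rm, Φ.r1,
    Quaternion.re_one, smul_eq_mul] at h2
  linarith

variable {θ : ℂ → ℝ} (hθ : ContDiff ℝ ∞ θ)
  (hk1 : ∀ z, Real.cos (θ z) * Φ.a11 z + Real.sin (θ z) * Φ.a21 z = 0)
  (hk2 : ∀ z, Real.cos (θ z) * Φ.a12 z + Real.sin (θ z) * Φ.a22 z = 0)

/-- The rotated first frame vector. -/
noncomputable def T (θ : ℂ → ℝ) (z : ℂ) : ℍ[ℝ] :=
  Real.cos (θ z) • Φ.P1 z + Real.sin (θ z) • Φ.P2 z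

/-- The rotated second frame vector. -/
noncomputable def T' (θ : ℂ → ℝ) (z : ℂ) : ℍ[ℝ] :=
  (-Real.sin (θ z)) • Φ.P1 z + Real.cos (θ z) • Φ.P2 z

include hθ in
theorem T_smooth : ContDiff ℝ ∞ (Φ.T θ) :=
  (hθ.cos.smul Φ.sP1).add (hθ.sin.smul Φ.sP2)

include hθ in
theorem T'_smooth : ContDiff ℝ ∞ (Φ.T' θ) :=
  (hθ.sin.neg.smul Φ.sP1).add (hθ.cos.smul Φ.sP2)

include hθ in
theorem dd_T_gen (v z : ℂ) : dd v (Φ.T θ) z = dd v θ z • Φ.T' θ z +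
    (Real.cos (θ z) • dd v Φ.P1 z + Real.sin (θ z) • dd v Φ.P2 z) := by
  have hA : ContDiff ℝ ∞ (fun z => Real.cos (θ z) • Φ.P1 z) := hθ.cos.smul Φ.sP1
  have hB : ContDiff ℝ ∞ (fun z => Real.sin (θ z) • Φ.P2 z) := hθ.sin.smul Φ.sP2
  unfold T T'
  rw [dd_add hA hB, dd_smul hθ.cos Φ.sP1, dd_smul hθ.sin Φ.sP2, dd_cos hθ, dd_sin hθ]
  module

include hθ in
theorem dd_T'_gen (v z : ℂ) : dd v (Φ.T' θ) z = -(dd v θ z • Φ.T θ z) +
    ((-Real.sin (θ z)) • dd v Φ.P1 z + Real.cos (θ z) • dd v Φ.P2 z) := by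
  have hs : ContDiff ℝ ∞ (fun z => -Real.sin (θ z)) := hθ.sin.neg
  have e : dd v (fun z => -Real.sin (θ z)) z = -(dd v θ z * Real.cos (θ z)) := by
    have := dd_clm (-(ContinuousLinearMap.id ℝ ℝ)) hθ.sin v z
    simp only [neg_apply, ContinuousLinearMap.id_apply] at this
    rw [this, dd_sin hθ]
  have hA : ContDiff ℝ ∞ (fun z => (-Real.sin (θ z)) • Φ.P1 z) := hs.smul Φ.sP1
  have hB : ContDiff ℝ ∞ (fun z => Real.cos (θ z) • Φ.P2 z) := hθ.cos.smul Φ.sP2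
  unfold T T'
  rw [dd_add hA hB, dd_smul hs Φ.sP1, dd_smul hθ.cos Φ.sP2, dd_cos hθ, e]
  module

include hθ hk1 in
theorem dd_T1 (z : ℂ) : dd 1 (Φ.T θ) z = dd 1 θ z • Φ.T' θ z := by
  rw [Φ.dd_T_gen hθ, Φ.d11, Φ.d21, smul_smul, smul_smul, ← add_smul, hk1, zero_smul, add_zero]

include hθ hk2 in
theorem dd_T2 (z : ℂ) : dd Complex.I (Φ.T θ) z = dd Complex.I θ z • Φ.T' θ z := by
  rw [Φ.dd_T_gen hθ, Φ.d12, Φ.d22, smul_smul, smul_smul, ← add_smul, hk2, zero_smul, add_zero]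

include hθ hk1 hk2 in
theorem dd_T (v z : ℂ) : dd v (Φ.T θ) z = dd v θ z • Φ.T' θ z := by
  rw [dd_lin (Φ.T θ), dd_lin θ, Φ.dd_T1 hθ hk1, Φ.dd_T2 hθ hk2]
  simp only [smul_smul, ← add_smul, smul_eq_mul]

include hθ hk1 hk2 in
/-- The integrability condition for the kernel angle. -/
theorem codazzi (z : ℂ) :
    dd Complex.I θ z * (-Real.sin (θ z) * Φ.a11 z + Real.cos (θ z) * Φ.a21 z) =
      dd 1 θ z * (-Real.sin (θ z) * Φ.a12 z + Real.cos (θ z) * Φ.a22 z) := by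
  have h := dd_comm (Φ.T_smooth hθ) 1 Complex.I z
  have e1 : dd Complex.I (Φ.T θ) = fun z => dd Complex.I θ z • Φ.T' θ z :=
    funext (Φ.dd_T2 hθ hk2)
  have e2 : dd 1 (Φ.T θ) = fun z => dd 1 θ z • Φ.T' θ z := funext (Φ.dd_T1 hθ hk1)
  rw [e1, e2, dd_smul (contDiff_dd hθ _) (Φ.T'_smooth hθ),
    dd_smul (contDiff_dd hθ _) (Φ.T'_smooth hθ), dd_comm hθ 1 Complex.I z] at h
  have h1 := add_left_cancel h
  rw [Φ.dd_T'_gen hθ, Φ.dd_T'_gen hθ, Φ.d11, Φ.d21, Φ.d12, Φ.d22] at h1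
  have h2 := congrArg (fun q : ℍ[ℝ] => (q * Φ.m z).re) h1
  simp only [T, add_mul, smul_mul_assoc, neg_mul, Φ.mm, Φ.P1m, Φ.P2m, Quaternion.re_add,
    Quaternion.re_smul, Quaternion.re_neg, Φ.r1, Φ.r2, Quaternion.re_one, smul_eq_mul] at h2
  linarith

end Frame

end Pool.Agent.Helper253
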