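import Pool.Agent.Helper253.Frame

set_option autoImplicit false

namespace Pool.Agent.Helper253

open Quaternion Topology Set
open scoped ContDiff

theorem imag_star {p : ℍ[ℝ]} (h : p.re = 0) : star p = -p := by
  ext <;> simp [h]

theorem re_zero_of_star {p : ℍ[ℝ]} (h : star p = -p) : p.re = 0 := by
  have := congrArg (fun q : ℍ[ℝ] => q.re) h
  simp at this
  linarith

theorem re_comm (p q : ℍ[ℝ]) : (p * q).re = (q * p).re := by
  simp only [Quaternion.re_mul]; ring

theorem imag_sq {p : ℍ[ℝ]} (h : p.re = 0) : p * p = ((-(‖p‖ ^ 2) : ℝ) : ℍ[ℝ]) := by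
  have h1 := Quaternion.self_mul_star p
  rw [imag_star h, mul_neg, Quaternion.normSq_eq_norm_mul_self] at h1
  rw [← neg_neg (p * p), h1, Quaternion.coe_neg, sq]

theorem real_of_star {p : ℍ[ℝ]} (h : star p = p) : p = ((p.re : ℝ) : ℍ[ℝ]) := by
  have h1 := congrArg (fun q : ℍ[ℝ] => q.imI) h
  have h2 := congrArg (fun q : ℍ[ℝ] => q.imJ) h
  have h3 := congrArg (fun q : ℍ[ℝ] => q.imK) h
  simp only [Quaternion.imI_star, Quaternion.imJ_star, Quaternion.imK_star] at h1 h2 h3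
  ext
  · simp
  · simp; linarith
  · simp; linarith
  · simp; linarith

theorem anti_of_re {p q : ℍ[ℝ]} (hp : p.re = 0) (hq : q.re = 0) (h : (p * q).re = 0) :
    p * q = -(q * p) := by
  have h1 : star (p * q) = q * p := by
    rw [star_mul, imag_star hp, imag_star hq, neg_mul_neg]
  rw [← h1, imag_star h, neg_neg]

/-- An imaginary quaternion orthogonal to two frame vectors is a multiple of the third. -/
theorem multiple_of_orth {p P1 P2 m : ℍ[ℝ]} (hp : p.re = 0) (h1 : P1.re = 0) (h2 : P2.re = 0)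
    (hm : m.re = 0) (hmm : m * m = -1) (h12 : P1 * P2 = m)
    (o1 : (p * P1).re = 0) (o2 : (p * P2).re = 0) : p = (-(p * m).re) • m := by
  have a1 := anti_of_re hp h1 o1
  have a2 := anti_of_re hp h2 o2
  have hc : p * m = m * p := by
    rw [← h12, ← mul_assoc, a1, neg_mul, mul_assoc, a2, mul_neg, neg_neg, mul_assoc]
  have hs : star (p * m) = p * m := by
    rw [star_mul, imag_star hp, imag_star hm, neg_mul_neg, hc]
  have hr := real_of_star hs
  have h3 : p * m * m = -p := by rw [mul_assoc, hmm, mul_neg_one]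
  have h4 : p * m * m = (p * m).re • m := by
    conv_lhs => rw [hr]
    rw [Quaternion.coe_mul_eq_smul]
  rw [neg_smul, ← h4, h3, neg_neg]

/-- A smooth isometric immersion of the plane into the unit quaternions. -/
structure Imm where
  f : ℂ → ℍ[ℝ]
  smooth : ContDiff ℝ ∞ f
  unit : ∀ z, ‖f z‖ = 1
  iso : ∀ z w, ‖fderiv ℝ f z w‖ = ‖w‖

namespace Imm

variable (S : Imm)

noncomputable def A (w z : ℂ) : ℍ[ℝ] := star (S.f z) * dd w S.f z

theorem A_smooth (w : ℂ) : ContDiff ℝ ∞ (S.A w) :=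
  (contDiff_star S.smooth).mul (contDiff_dd S.smooth w)

theorem sf (z : ℂ) : star (S.f z) * S.f z = 1 := SpinCurve.star_mul_self' (S.unit z)
theorem fs (z : ℂ) : S.f z * star (S.f z) = 1 := SpinCurve.self_mul_star' (S.unit z)

theorem dd_eq (w z : ℂ) : dd w S.f z = S.f z * S.A w z := by
  rw [A, ← mul_assoc, S.fs, one_mul]

theorem A_re (w z : ℂ) : (S.A w z).re = 0 := by
  have h1 : dd w (fun z => star (S.f z) * S.f z) z = 0 := by
    have : (fun z => star (S.f z) * S.f z) = fun _ => (1 : ℍ[ℝ]) := funext S.sf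
    rw [this, dd_const]
  rw [dd_mul (contDiff_star S.smooth) S.smooth, dd_star S.smooth] at h1
  have h2 : star (dd w S.f z) * S.f z = star (S.A w z) := by
    rw [A, star_mul, star_star]
  rw [h2] at h1
  have h3 : star (S.A w z) + S.A w z = 0 := h1
  exact re_zero_of_star (eq_neg_of_add_eq_zero_left h3)

theorem A_norm (w z : ℂ) : ‖S.A w z‖ = ‖w‖ := by
  rw [A, norm_mul, norm_star, S.unit, one_mul]
  exact S.iso z w

theorem A_sq (w z : ℂ) : S.A w z * S.A w z = ((-(‖w‖ ^ 2) : ℝ) : ℍ[ℝ]) := by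
  rw [imag_sq (S.A_re w z), S.A_norm]

theorem A_sq1 (z : ℂ) : S.A 1 z * S.A 1 z = -1 := by
  rw [A_sq]; simp

theorem A_sq2 (z : ℂ) : S.A Complex.I z * S.A Complex.I z = -1 := by
  rw [A_sq]; simp

theorem A_lin (w z : ℂ) : S.A w z = w.re • S.A 1 z + w.im • S.A Complex.I z := by
  rw [A, dd_lin, mul_add, mul_smul_comm, mul_smul_comm]
  rfl

theorem A_anti (z : ℂ) : S.A Complex.I z * S.A 1 z = -(S.A 1 z * S.A Complex.I z) := by
  have h := S.A_sq (1 + Complex.I) z
  rw [S.A_lin] at h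
  have h1 : ‖(1 + Complex.I : ℂ)‖ ^ 2 = 2 := by
    rw [← Complex.normSq_eq_norm_sq, Complex.normSq_apply]; simp; norm_num
  rw [h1] at h
  simp only [Complex.add_re, Complex.one_re, Complex.I_re, add_zero, one_smul, Complex.add_im,
    Complex.one_im, Complex.I_im, zero_add, mul_add, add_mul, S.A_sq1, S.A_sq2] at h
  have h2 : ((-2 : ℝ) : ℍ[ℝ]) = -1 + -1 := by
    ext <;> simp; norm_num
  rw [h2] at h
  have h3 : S.A 1 z * S.A Complex.I z + S.A Complex.I z * S.A 1 z = 0 := by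
    have h4 : (-1 + S.A Complex.I z * S.A 1 z + (S.A 1 z * S.A Complex.I z + -1)) - (-1 + -1) = 0 :=
      sub_eq_zero.2 h
    rw [← h4]; abel
  exact eq_neg_of_add_eq_zero_right h3

/-- The left translated unit normal. -/
noncomputable def m (z : ℂ) : ℍ[ℝ] := S.A 1 z * S.A Complex.I z

theorem m_smooth : ContDiff ℝ ∞ S.m := (S.A_smooth 1).mul (S.A_smooth Complex.I)

theorem m_re (z : ℂ) : (S.m z).re = 0 := by
  apply re_zero_of_star
  rw [m, star_mul, imag_star (S.A_re _ _), imag_star (S.A_re _ _), neg_mul_neg, S.A_anti]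

theorem mm (z : ℂ) : S.m z * S.m z = -1 := by
  rw [m, mul_assoc, ← mul_assoc (S.A Complex.I z), S.A_anti, neg_mul, mul_neg, ← mul_assoc,
    ← mul_assoc, S.A_sq1, neg_one_mul, neg_mul, neg_neg, S.A_sq2]

theorem dA (v w z : ℂ) : dd v (S.A w) z =
    -(S.A v z * S.A w z) + star (S.f z) * dd v (dd w S.f) z := by
  have h : S.A w = fun z => star (S.f z) * dd w S.f z := rfl
  rw [h, dd_mul (contDiff_star S.smooth) (contDiff_dd S.smooth w), dd_star S.smooth]
  congr 1
  rw [S.dd_eq v, star_mul, imag_star (S.A_re v z), neg_mul, neg_mul, mul_assoc]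

theorem curl (z : ℂ) : dd 1 (S.A Complex.I) z - dd Complex.I (S.A 1) z = -S.m z - S.m z := by
  rw [S.dA, S.dA, dd_comm S.smooth 1 Complex.I, S.A_anti]
  simp only [m]
  abel

theorem dA_re (v w z : ℂ) : (dd v (S.A w) z).re = 0 := by
  have h := dd_clm cR (S.A_smooth w) v z
  have h2 : (fun z => cR (S.A w z)) = fun _ => (0 : ℝ) := funext (S.A_re w)
  rw [h2, dd_const] at h
  exact h.symm

theorem orth_same (v w z : ℂ) : (dd v (S.A w) z * S.A w z).re = 0 := by
  have h : dd v (fun z => S.A w z * S.A w z) z = 0 := by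
    have : (fun z => S.A w z * S.A w z) = fun _ => ((-(‖w‖ ^ 2) : ℝ) : ℍ[ℝ]) := funext (S.A_sq w)
    rw [this, dd_const]
  rw [dd_mul (S.A_smooth w) (S.A_smooth w)] at h
  have h2 := congrArg (fun q : ℍ[ℝ] => q.re) h
  simp only [Quaternion.re_add, Quaternion.re_zero] at h2
  rw [re_comm (S.A w z)] at h2
  linarith

theorem orth_mixed (v z : ℂ) : (dd v (S.A 1) z * S.A Complex.I z).re +
    (dd v (S.A Complex.I) z * S.A 1 z).re = 0 := by
  have h : dd v (fun z => S.A 1 z * S.A Complex.I z) z = dd v S.m z := rfl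
  have h0 := dd_clm cR S.m_smooth v z
  have h2 : (fun z => cR (S.m z)) = fun _ => (0 : ℝ) := funext S.m_re
  rw [h2, dd_const] at h0
  have h3 : (dd v S.m z).re = 0 := h0.symm
  rw [← h, dd_mul (S.A_smooth 1) (S.A_smooth Complex.I), Quaternion.re_add,
    re_comm (S.A 1 z)] at h3
  exact h3

theorem mA1 (z : ℂ) : S.m z * S.A 1 z = S.A Complex.I z := by
  rw [m, mul_assoc, S.A_anti, mul_neg, ← mul_assoc, S.A_sq1, neg_one_mul, neg_neg]

theorem mA2 (z : ℂ) : S.m z * S.A Complex.I z = -S.A 1 z := by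
  rw [m, mul_assoc, S.A_sq2, mul_neg_one]

theorem curl1 (z : ℂ) : (dd 1 (S.A Complex.I) z * S.A 1 z).re =
    (dd Complex.I (S.A 1) z * S.A 1 z).re := by
  have h := congrArg (fun q : ℍ[ℝ] => (q * S.A 1 z).re) (S.curl z)
  simp only [sub_mul, neg_mul, S.mA1, Quaternion.re_sub, Quaternion.re_neg, S.A_re] at h
  linarith

theorem curl2 (z : ℂ) : (dd 1 (S.A Complex.I) z * S.A Complex.I z).re =
    (dd Complex.I (S.A 1) z * S.A Complex.I z).re := by
  have h := congrArg (fun q : ℍ[ℝ] => (q * S.A Complex.I z).re) (S.curl z)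
  simp only [sub_mul, neg_mul, S.mA2, Quaternion.re_sub, Quaternion.re_neg, S.A_re] at h
  linarith

/-- All tangential components of the derivatives of the frame vanish. -/
theorem tang (z : ℂ) : (dd 1 (S.A 1) z * S.A Complex.I z).re = 0 ∧
    (dd Complex.I (S.A 1) z * S.A Complex.I z).re = 0 ∧
    (dd 1 (S.A Complex.I) z * S.A 1 z).re = 0 ∧
    (dd Complex.I (S.A Complex.I) z * S.A 1 z).re = 0 := by
  have a1 := S.curl1 z
  have a2 := S.curl2 z
  have b1 := S.orth_same Complex.I 1 z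
  have b2 := S.orth_same 1 Complex.I z
  have c1 := S.orth_mixed 1 z
  have c2 := S.orth_mixed Complex.I z
  refine ⟨?_, ?_, ?_, ?_⟩ <;> linarith

noncomputable def c (v w z : ℂ) : ℝ := -(dd v (S.A w) z * S.m z).re

theorem c_smooth (v w : ℂ) : ContDiff ℝ ∞ (S.c v w) := by
  have h : ContDiff ℝ ∞ (fun z => cR (dd v (S.A w) z * S.m z)) :=
    cR.contDiff.comp ((contDiff_dd (S.A_smooth w) v).mul S.m_smooth)
  exact h.neg

theorem dA11 (z : ℂ) : dd 1 (S.A 1) z = S.c 1 1 z • S.m z :=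
  multiple_of_orth (S.dA_re _ _ _) (S.A_re _ _) (S.A_re _ _) (S.m_re z) (S.mm z) rfl
    (S.orth_same 1 1 z) (S.tang z).1

theorem dA12 (z : ℂ) : dd Complex.I (S.A 1) z = S.c Complex.I 1 z • S.m z :=
  multiple_of_orth (S.dA_re _ _ _) (S.A_re _ _) (S.A_re _ _) (S.m_re z) (S.mm z) rfl
    (S.orth_same Complex.I 1 z) (S.tang z).2.1

theorem dA21 (z : ℂ) : dd 1 (S.A Complex.I) z = S.c 1 Complex.I z • S.m z :=
  multiple_of_orth (S.dA_re _ _ _) (S.A_re _ _) (S.A_re _ _) (S.m_re z) (S.mm z) rfl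
    (S.tang z).2.2.1 (S.orth_same 1 Complex.I z)

theorem dA22 (z : ℂ) : dd Complex.I (S.A Complex.I) z = S.c Complex.I Complex.I z • S.m z :=
  multiple_of_orth (S.dA_re _ _ _) (S.A_re _ _) (S.A_re _ _) (S.m_re z) (S.mm z) rfl
    (S.tang z).2.2.2 (S.orth_same Complex.I Complex.I z)

theorem c_rel (z : ℂ) : S.c Complex.I 1 z - S.c 1 Complex.I z = 2 := by
  have h := congrArg (fun q : ℍ[ℝ] => (q * S.m z).re) (S.curl z)
  simp only [sub_mul, neg_mul, S.mm, Quaternion.re_sub, Quaternion.re_neg, neg_neg,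
    Quaternion.re_one] at h
  unfold c
  linarith

/-- The left invariant frame. -/
noncomputable def frameA : Frame where
  P1 := S.A 1
  P2 := S.A Complex.I
  m := S.m
  a11 := S.c 1 1
  a12 := S.c Complex.I 1
  a21 := S.c 1 Complex.I
  a22 := S.c Complex.I Complex.I
  sP1 := S.A_smooth 1
  sP2 := S.A_smooth Complex.I
  sm := S.m_smooth
  s11 := S.c_smooth _ _
  s12 := S.c_smooth _ _
  s21 := S.c_smooth _ _
  s22 := S.c_smooth _ _
  r1 := S.A_re 1
  r2 := S.A_re Complex.I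
  rm := S.m_re
  sq1 := S.A_sq1
  sq2 := S.A_sq2
  h12 := fun _ => rfl
  h21 := S.A_anti
  d11 := S.dA11
  d12 := S.dA12
  d21 := S.dA21
  d22 := S.dA22

noncomputable def B (w z : ℂ) : ℍ[ℝ] := dd w S.f z * star (S.f z)

theorem B_smooth (w : ℂ) : ContDiff ℝ ∞ (S.B w) :=
  (contDiff_dd S.smooth w).mul (contDiff_star S.smooth)

theorem B_eq (w z : ℂ) : S.B w z = S.f z * S.A w z * star (S.f z) := by
  rw [B, S.dd_eq]

/-- Conjugation by the immersion. -/
noncomputable def conj (z : ℂ) (q : ℍ[ℝ]) : ℍ[ℝ] := S.f z * q * star (S.f z)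

theorem conj_mul (z : ℂ) (p q : ℍ[ℝ]) : S.conj z (p * q) = S.conj z p * S.conj z q := by
  simp only [conj]
  rw [mul_assoc (S.f z * p), ← mul_assoc (star (S.f z)), ← mul_assoc (star (S.f z)), S.sf,
    one_mul]
  simp only [mul_assoc]

theorem conj_neg (z : ℂ) (p : ℍ[ℝ]) : S.conj z (-p) = -S.conj z p := by
  simp [conj]

theorem conj_smul (z : ℂ) (r : ℝ) (p : ℍ[ℝ]) : S.conj z (r • p) = r • S.conj z p := by
  simp [conj]

theorem conj_one (z : ℂ) : S.conj z 1 = 1 := by
  rw [conj, mul_one, S.fs]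

theorem conj_re (z : ℂ) (p : ℍ[ℝ]) : (S.conj z p).re = p.re := by
  rw [conj, re_comm, ← mul_assoc, S.sf, one_mul]

theorem B_conj (w z : ℂ) : S.B w z = S.conj z (S.A w z) := S.B_eq w z

noncomputable def μ (z : ℂ) : ℍ[ℝ] := S.conj z (S.m z)

theorem μ_eq (z : ℂ) : S.μ z = S.f z * S.m z * star (S.f z) := rfl

theorem μ_smooth : ContDiff ℝ ∞ S.μ :=
  (S.smooth.mul S.m_smooth).mul (contDiff_star S.smooth)

theorem dB (v w z : ℂ) : dd v (S.B w) z =
    S.conj z (dd v (S.A w) z + S.A v z * S.A w z - S.A w z * S.A v z) := by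
  have h : S.B w = fun z => dd w S.f z * star (S.f z) := rfl
  rw [h, dd_mul (contDiff_dd S.smooth w) (contDiff_star S.smooth), dd_star S.smooth]
  have h1 : dd v (dd w S.f) z = S.f z * (dd v (S.A w) z + S.A v z * S.A w z) := by
    rw [S.dA, mul_add, mul_add, ← mul_assoc (S.f z) (star (S.f z)), S.fs, one_mul, mul_neg]
    abel
  have h2 : dd w S.f z * star (dd v S.f z) = -(S.f z * (S.A w z * S.A v z) * star (S.f z)) := by
    rw [S.dd_eq w, S.dd_eq v, star_mul, imag_star (S.A_re v z)]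
    simp only [neg_mul, mul_neg, mul_assoc]
  rw [h1, h2, conj, mul_sub, sub_mul, ← sub_eq_add_neg]

theorem dB11 (z : ℂ) : dd 1 (S.B 1) z = S.c 1 1 z • S.μ z := by
  rw [S.dB, add_sub_cancel_right, S.dA11, S.conj_smul]; rfl

theorem dB12 (z : ℂ) : dd Complex.I (S.B 1) z = S.c 1 Complex.I z • S.μ z := by
  have h : dd Complex.I (S.A 1) z + S.A Complex.I z * S.A 1 z - S.A 1 z * S.A Complex.I z =
      S.c 1 Complex.I z • S.m z := by
    rw [S.dA12, S.A_anti]
    have e : S.c Complex.I 1 z = S.c 1 Complex.I z + 2 := by linarith [S.c_rel z]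
    rw [e]
    show (S.c 1 Complex.I z + 2) • S.m z + -S.m z - S.m z = S.c 1 Complex.I z • S.m z
    module
  rw [S.dB, h, S.conj_smul]; rfl

theorem dB21 (z : ℂ) : dd 1 (S.B Complex.I) z = S.c Complex.I 1 z • S.μ z := by
  have h : dd 1 (S.A Complex.I) z + S.A 1 z * S.A Complex.I z - S.A Complex.I z * S.A 1 z =
      S.c Complex.I 1 z • S.m z := by
    rw [S.dA21, S.A_anti]
    have e : S.c Complex.I 1 z = S.c 1 Complex.I z + 2 := by linarith [S.c_rel z]
    rw [e]
    show S.c 1 Complex.I z • S.m z + S.m z - -S.m z = (S.c 1 Complex.I z + 2) • S.m z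
    module
  rw [S.dB, h, S.conj_smul]; rfl

theorem dB22 (z : ℂ) : dd Complex.I (S.B Complex.I) z = S.c Complex.I Complex.I z • S.μ z := by
  rw [S.dB, add_sub_cancel_right, S.dA22, S.conj_smul]; rfl

/-- The right invariant frame. -/
noncomputable def frameB : Frame where
  P1 := S.B 1
  P2 := S.B Complex.I
  m := S.μ
  a11 := S.c 1 1
  a12 := S.c 1 Complex.I
  a21 := S.c Complex.I 1
  a22 := S.c Complex.I Complex.I
  sP1 := S.B_smooth 1
  sP2 := S.B_smooth Complex.I
  sm := S.μ_smooth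
  s11 := S.c_smooth _ _
  s12 := S.c_smooth _ _
  s21 := S.c_smooth _ _
  s22 := S.c_smooth _ _
  r1 := fun z => by rw [S.B_conj, S.conj_re, S.A_re]
  r2 := fun z => by rw [S.B_conj, S.conj_re, S.A_re]
  rm := fun z => by rw [μ, S.conj_re, S.m_re]
  sq1 := fun z => by rw [S.B_conj, ← S.conj_mul, S.A_sq1, S.conj_neg, S.conj_one]
  sq2 := fun z => by rw [S.B_conj, ← S.conj_mul, S.A_sq2, S.conj_neg, S.conj_one]
  h12 := fun z => by rw [S.B_conj, S.B_conj, ← S.conj_mul]; rfl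
  h21 := fun z => by rw [S.B_conj, S.B_conj, ← S.conj_mul, S.A_anti, S.conj_neg]; rfl
  d11 := S.dB11
  d12 := S.dB12
  d21 := S.dB21
  d22 := S.dB22

theorem det_c (z : ℂ) : S.c Complex.I 1 z * S.c 1 Complex.I z =
    S.c 1 1 z * S.c Complex.I Complex.I z := S.frameA.det_eq z

end Imm

end Pool.Agent.Helper253
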