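import Pool.Agent.Helper253.Net

set_option autoImplicit false

namespace Pool.Agent.Helper253

open Topology Set
open scoped ContDiff NNReal

open Net

theorem cr_smul_left (a : ℝ) (w z : ℂ) : cr (a • w) z = a * cr w z := by
  simp only [cr, Complex.real_smul, Complex.re_ofReal_mul, Complex.im_ofReal_mul]; ring

theorem cr_smul_right (a : ℝ) (w z : ℂ) : cr w (a • z) = a * cr w z := by
  simp only [cr, Complex.real_smul, Complex.re_ofReal_mul, Complex.im_ofReal_mul]; ring

theorem cr_add_left (w w' z : ℂ) : cr (w + w') z = cr w z + cr w' z := by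
  simp only [cr, Complex.add_re, Complex.add_im]; ring

/-- Coordinates with respect to a basis. -/
theorem basis_coords {l1 l2 : ℂ} (hl : cr l1 l2 ≠ 0) (z : ℂ) :
    z = (cr z l2 / cr l1 l2) • l1 + (cr l1 z / cr l1 l2) • l2 := by
  apply Complex.ext
  · simp only [Complex.add_re, Complex.real_smul, Complex.re_ofReal_mul]
    field_simp
    simp only [cr]; ring
  · simp only [Complex.add_im, Complex.real_smul, Complex.im_ofReal_mul]
    field_simp
    simp only [cr]; ring

/-- Continuous doubly periodic functions are bounded. -/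
theorem bounded_of_periodic {F : Type*} [NormedAddCommGroup F] {g : ℂ → F} (hg : Continuous g)
    {l1 l2 : ℂ} (hl : cr l1 l2 ≠ 0) (h1 : Function.Periodic g l1) (h2 : Function.Periodic g l2) :
    ∃ C, ∀ z, ‖g z‖ ≤ C := by
  have hc : Continuous (fun p : ℝ × ℝ => g (p.1 • l1 + p.2 • l2)) := by fun_prop
  obtain ⟨C, hC⟩ := ((isCompact_Icc (a := (0 : ℝ)) (b := 1)).prod
    (isCompact_Icc (a := (0 : ℝ)) (b := 1))).exists_bound_of_continuousOn hc.continuousOn
  refine ⟨C, fun z => ?_⟩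
  set a := cr z l2 / cr l1 l2 with ha
  set b := cr l1 z / cr l1 l2 with hb
  have hz : z = (Int.fract a • l1 + Int.fract b • l2) + (⌊a⌋ • l1 + ⌊b⌋ • l2) := by
    conv_lhs => rw [basis_coords hl z, ← ha, ← hb, ← Int.fract_add_floor a,
      ← Int.fract_add_floor b]
    rw [add_smul, add_smul, Int.cast_smul_eq_zsmul, Int.cast_smul_eq_zsmul]
    abel
  have hper : Function.Periodic g (⌊a⌋ • l1 + ⌊b⌋ • l2) :=
    (h1.zsmul ⌊a⌋).add_period (h2.zsmul ⌊b⌋)
  rw [hz, hper]
  exact hC (Int.fract a, Int.fract b) ⟨⟨Int.fract_nonneg _, (Int.fract_lt_one _).le⟩,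
    ⟨Int.fract_nonneg _, (Int.fract_lt_one _).le⟩⟩

namespace Net

variable (N : Net)

/-- A common period of the two angle functions translates the net. -/
theorem translate {l : ℂ} (h1 : Function.Periodic N.θ1 l) (h2 : Function.Periodic N.θ2 l)
    {p q : ℝ} (hpq : N.α p + N.β q = l) :
    (∀ u, N.α (u + p) = N.α u + N.α p) ∧ (∀ v, N.β (v + q) = N.β v + N.β q) := by
  constructor
  · have h : (fun u => N.α (u + p) + N.β q - l) = N.α := by
      apply Ode.unique N.lipv1 _ N.α_deriv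
      · simp only [zero_add]; rw [hpq, sub_self, N.α_zero]
      · intro t
        have h3 := ((N.α_deriv (t + p)).comp_add_const t p).add_const (N.β q) |>.sub_const l
        have h4 : N.θ1 (N.α (t + p) + N.β q - l) = N.θ1 (N.α (t + p)) := by
          rw [h1.sub_eq, N.θ1_net]
        rw [h4]
        exact h3
    intro u
    have h6 : N.α (u + p) + N.β q - (N.α p + N.β q) = N.α u := by
      rw [hpq]; exact congrFun h u
    linear_combination h6
  · have h : (fun v => N.α p + N.β (v + q) - l) = N.β := by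
      apply Ode.unique N.lipv2 _ N.β_deriv
      · simp only [zero_add]; rw [hpq, sub_self, N.β_zero]
      · intro t
        have h3 := ((N.β_deriv (t + q)).comp_add_const t q).const_add (N.α p) |>.sub_const l
        have h4 : N.θ2 (N.α p + N.β (t + q) - l) = N.θ2 (N.β (t + q)) := by
          rw [h2.sub_eq, N.θ2_net]
        rw [h4]
        exact h3
    intro v
    have h6 : N.α p + N.β (v + q) - (N.α p + N.β q) = N.β v := by
      rw [hpq]; exact congrFun h v
    linear_combination h6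

/-- The group of parameter shifts that translate the net. -/
def shifts : AddSubgroup (ℝ × ℝ) where
  carrier := {x | (∀ u, N.α (u + x.1) = N.α u + N.α x.1) ∧
    (∀ v, N.β (v + x.2) = N.β v + N.β x.2)}
  add_mem' := by
    rintro x y ⟨hx1, hx2⟩ ⟨hy1, hy2⟩
    refine ⟨fun u => ?_, fun v => ?_⟩
    · rw [Prod.fst_add, ← add_assoc, hy1, hx1, hy1]; ring
    · rw [Prod.snd_add, ← add_assoc, hy2, hx2, hy2]; ring
  zero_mem' := by
    refine ⟨fun u => ?_, fun v => ?_⟩
    · simp [N.α_zero]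
    · simp [N.β_zero]
  neg_mem' := by
    rintro x ⟨hx1, hx2⟩
    refine ⟨fun u => ?_, fun v => ?_⟩
    · have e1 := hx1 (u - x.1)
      have e2 := hx1 (-x.1)
      rw [sub_add_cancel] at e1
      rw [neg_add_cancel, N.α_zero] at e2
      rw [Prod.fst_neg, ← sub_eq_add_neg]
      linear_combination e2 - e1
    · have e1 := hx2 (v - x.2)
      have e2 := hx2 (-x.2)
      rw [sub_add_cancel] at e1
      rw [neg_add_cancel, N.β_zero] at e2
      rw [Prod.snd_neg, ← sub_eq_add_neg]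
      linear_combination e2 - e1

/-- The translation vector of a shift. -/
noncomputable def shiftHom : N.shifts →+ ℂ :=
  AddMonoidHom.mk' (fun x => N.α x.1.1 + N.β x.1.2) (by
    intro x y
    have hy1 : ∀ u, N.α (u + y.1.1) = N.α u + N.α y.1.1 := y.2.1
    have hy2 : ∀ v, N.β (v + y.1.2) = N.β v + N.β y.1.2 := y.2.2
    show N.α (x.1.1 + y.1.1) + N.β (x.1.2 + y.1.2) = _
    rw [hy1, hy2]
    ring)

theorem shift_combo {l1 l2 : ℂ} (h11 : Function.Periodic N.θ1 l1)
    (h12 : Function.Periodic N.θ1 l2) (h21 : Function.Periodic N.θ2 l1)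
    (h22 : Function.Periodic N.θ2 l2) {p1 q1 p2 q2 : ℝ} (e1 : N.α p1 + N.β q1 = l1)
    (e2 : N.α p2 + N.β q2 = l2) (a b : ℤ) :
    (∀ u, N.α (u + (a * p1 + b * p2)) = N.α u + N.α (a * p1 + b * p2)) ∧
    (∀ v, N.β (v + (a * q1 + b * q2)) = N.β v + N.β (a * q1 + b * q2)) ∧
    N.α (a * p1 + b * p2) + N.β (a * q1 + b * q2) = a • l1 + b • l2 := by
  have m1 : (p1, q1) ∈ N.shifts := N.translate h11 h21 e1
  have m2 : (p2, q2) ∈ N.shifts := N.translate h12 h22 e2
  have hm := (a • (⟨(p1, q1), m1⟩ : N.shifts) + b • (⟨(p2, q2), m2⟩ : N.shifts)).2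
  have hval : ((a • (⟨(p1, q1), m1⟩ : N.shifts) + b • (⟨(p2, q2), m2⟩ : N.shifts) : N.shifts) :
      ℝ × ℝ) = (a * p1 + b * p2, a * q1 + b * q2) := by
    simp
  rw [hval] at hm
  refine ⟨hm.1, hm.2, ?_⟩
  have h := map_add N.shiftHom (a • (⟨(p1, q1), m1⟩ : N.shifts)) (b • (⟨(p2, q2), m2⟩ : N.shifts))
  rw [map_zsmul, map_zsmul] at h
  have h3 : N.shiftHom (⟨(p1, q1), m1⟩ : N.shifts) = l1 := e1
  have h4 : N.shiftHom (⟨(p2, q2), m2⟩ : N.shifts) = l2 := e2
  rw [h3, h4] at h
  rw [← h]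
  show _ = N.α (_ : ℝ × ℝ).1 + N.β (_ : ℝ × ℝ).2
  rw [hval]

/-- Either a continuous function is constant or its periods are commensurable. -/
theorem period_dichotomy {g : ℝ → ℝ} (hg : Continuous g) {p1 p2 : ℝ}
    (h1 : ∀ u, g (u + p1) = g u) (h2 : ∀ u, g (u + p2) = g u) :
    (∀ u, g u = g 0) ∨ ∃ a b : ℤ, (a ≠ 0 ∨ b ≠ 0) ∧ a * p1 + b * p2 = 0 := by
  set G : AddSubgroup ℝ :=
    { carrier := {p | ∀ u, g (u + p) = g u}
      add_mem' := by
        intro x y hx hy u
        rw [← add_assoc, hy, hx]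
      zero_mem' := by intro u; simp
      neg_mem' := by
        intro x hx u
        have := hx (u + -x)
        rw [neg_add_cancel_right] at this
        exact this.symm } with hG
  have m1 : p1 ∈ G := h1
  have m2 : p2 ∈ G := h2
  rcases AddSubgroup.dense_or_cyclic G with h | ⟨c, hc⟩
  · left
    intro u
    have hcl : IsClosed {p : ℝ | g p = g 0} := isClosed_eq hg continuous_const
    have hsub : (G : Set ℝ) ⊆ {p : ℝ | g p = g 0} := by
      intro p hp
      have := hp 0
      rw [zero_add] at this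
      exact this
    have := h.closure_eq
    have h3 : closure (G : Set ℝ) ⊆ {p : ℝ | g p = g 0} := closure_minimal hsub hcl
    rw [this] at h3
    exact h3 (mem_univ u)
  · right
    rw [hc, AddSubgroup.mem_closure_singleton] at m1 m2
    obtain ⟨m, hm⟩ := m1
    obtain ⟨n, hn⟩ := m2
    rw [zsmul_eq_mul] at hm hn
    by_cases h0 : m = 0
    · refine ⟨1, 0, Or.inl one_ne_zero, ?_⟩
      rw [← hm, h0]; simp
    · refine ⟨n, -m, Or.inr (neg_ne_zero.2 h0), ?_⟩
      rw [← hm, ← hn]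
      push_cast
      ring

theorem lattice_ne_zero {l1 l2 : ℂ} (hl : cr l1 l2 ≠ 0) {a b : ℤ} (hab : a ≠ 0 ∨ b ≠ 0) :
    a • l1 + b • l2 ≠ 0 := by
  intro h
  rw [← Int.cast_smul_eq_zsmul ℝ, ← Int.cast_smul_eq_zsmul ℝ] at h
  have e1 : cr ((a : ℝ) • l1 + (b : ℝ) • l2) l2 = a * cr l1 l2 := by
    rw [cr_add_left, cr_smul_left, cr_smul_left, cr_self]; ring
  have e2 : cr l1 ((a : ℝ) • l1 + (b : ℝ) • l2) = b * cr l1 l2 := by
    rw [cr_add, cr_smul_right, cr_smul_right, cr_self]; ring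
  rw [h] at e1 e2
  have z1 : cr 0 l2 = 0 := by simp [cr]
  have z2 : cr l1 0 = 0 := by simp [cr]
  rw [z1] at e1
  rw [z2] at e2
  rcases hab with ha | hb
  · have := mul_ne_zero (Int.cast_ne_zero.2 ha : (a : ℝ) ≠ 0) hl
    exact this e1.symm
  · have := mul_ne_zero (Int.cast_ne_zero.2 hb : (b : ℝ) ≠ 0) hl
    exact this e2.symm

variable {l1 l2 : ℂ} (hl : cr l1 l2 ≠ 0) (h11 : Function.Periodic N.θ1 l1)
    (h12 : Function.Periodic N.θ1 l2) (h21 : Function.Periodic N.θ2 l1)
    (h22 : Function.Periodic N.θ2 l2)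

include hl h11 h12 h21 h22

theorem beta_period : (∀ z, N.θ1 z = N.θ1 0) ∨
    ∃ q : ℝ, 0 < q ∧ ∃ a b : ℤ, ∀ v, N.β (v + q) = N.β v + (a • l1 + b • l2) := by
  obtain ⟨p1, q1, e1⟩ := N.surj l1
  obtain ⟨p2, q2, e2⟩ := N.surj l2
  have hper : ∀ {l : ℂ}, Function.Periodic N.θ1 l → Function.Periodic N.θ2 l → ∀ {p q : ℝ},
      N.α p + N.β q = l → ∀ u, N.θ1 (N.α (u + p)) = N.θ1 (N.α u) := by
    intro l hl1 hl2 p q e u
    have h := (N.translate hl1 hl2 e).1 u
    rw [← N.θ1_net (u + p) q, h, add_assoc, e, hl1]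
  rcases period_dichotomy (g := fun u => N.θ1 (N.α u)) (N.smooth1.continuous.comp N.α_cont)
    (hper h11 h21 e1) (hper h12 h22 e2) with h | ⟨a, b, hab, hz⟩
  · left
    intro z
    obtain ⟨u, v, rfl⟩ := N.surj z
    rw [N.θ1_net, h u, N.α_zero]
  · right
    obtain ⟨c1, c2, c3⟩ := N.shift_combo h11 h12 h21 h22 e1 e2 a b
    rw [hz, N.α_zero, zero_add] at c3
    have hq : (a * q1 + b * q2 : ℝ) ≠ 0 := by
      intro h
      rw [h, N.β_zero] at c3
      exact lattice_ne_zero hl hab c3.symm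
    rw [c3] at c2
    rcases lt_or_gt_of_ne hq with h | h
    · refine ⟨-(a * q1 + b * q2), by linarith, -a, -b, fun v => ?_⟩
      have := c2 (v + -(a * q1 + b * q2))
      rw [neg_add_cancel_right] at this
      rw [this]
      simp only [neg_smul]
      ring
    · exact ⟨_, h, a, b, c2⟩

theorem alpha_period : (∀ z, N.θ2 z = N.θ2 0) ∨
    ∃ p : ℝ, 0 < p ∧ ∃ a b : ℤ, ∀ u, N.α (u + p) = N.α u + (a • l1 + b • l2) := by
  obtain ⟨p1, q1, e1⟩ := N.surj l1
  obtain ⟨p2, q2, e2⟩ := N.surj l2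
  have hper : ∀ {l : ℂ}, Function.Periodic N.θ1 l → Function.Periodic N.θ2 l → ∀ {p q : ℝ},
      N.α p + N.β q = l → ∀ v, N.θ2 (N.β (v + q)) = N.θ2 (N.β v) := by
    intro l hl1 hl2 p q e v
    have h := (N.translate hl1 hl2 e).2 v
    rw [← N.θ2_net p (v + q), h, ← add_assoc, add_comm (N.α p), add_assoc, e, hl2]
  rcases period_dichotomy (g := fun u => N.θ2 (N.β u)) (N.smooth2.continuous.comp N.β_cont)
    (hper h11 h21 e1) (hper h12 h22 e2) with h | ⟨a, b, hab, hz⟩
  · left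
    intro z
    obtain ⟨u, v, rfl⟩ := N.surj z
    rw [N.θ2_net, h v, N.β_zero]
  · right
    obtain ⟨c1, c2, c3⟩ := N.shift_combo h11 h12 h21 h22 e1 e2 a b
    rw [hz, N.β_zero, add_zero] at c3
    have hq : (a * p1 + b * p2 : ℝ) ≠ 0 := by
      intro h
      rw [h, N.α_zero] at c3
      exact lattice_ne_zero hl hab c3.symm
    rw [c3] at c1
    rcases lt_or_gt_of_ne hq with h | h
    · refine ⟨-(a * p1 + b * p2), by linarith, -a, -b, fun v => ?_⟩
      have := c1 (v + -(a * p1 + b * p2))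
      rw [neg_add_cancel_right] at this
      rw [this]
      simp only [neg_smul]
      ring
    · exact ⟨_, h, a, b, c1⟩

end Net

end Pool.Agent.Helper253
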