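import Mathlib

set_option autoImplicit false

namespace Pool.Agent.Helper253.Loop

open Quaternion Topology

theorem exists_angle (w : ℝ × ℝ → ℂ) (hw : Continuous w) (h0 : ∀ p, w p ≠ 0) :
    ∃ φ : ℝ × ℝ → ℝ, Continuous φ ∧
      ∀ p, w p = (‖w p‖ : ℂ) * Complex.exp (φ p * Complex.I) := by
  obtain ⟨z₀, hz₀⟩ : ∃ z₀ : ℂ, Complex.exp z₀ = w (0, 0) := ⟨_, Complex.exp_log (h0 _)⟩
  obtain ⟨G, ⟨-, hG⟩, -⟩ := Complex.isCoveringMapOn_exp.existsUnique_continuousMap_lifts
    (⟨w, hw⟩ : C(ℝ × ℝ, ℂ)) (a₀ := (0, 0)) (e₀ := z₀) hz₀ (fun a => h0 a)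
  refine ⟨fun p => (G p).im, Complex.continuous_im.comp G.continuous, fun p => ?_⟩
  have h1 : Complex.exp (G p) = w p := congrFun hG p
  have h2 : ‖w p‖ = Real.exp (G p).re := by rw [← h1, Complex.norm_exp]
  rw [h2]
  conv_lhs => rw [← h1, ← Complex.re_add_im (G p)]
  rw [Complex.exp_add, Complex.ofReal_exp]

theorem cos_mid_pos {φ : ℝ → ℝ} {a b : ℝ} (hab : a ≤ b) (hφ : ContinuousOn φ (Set.Icc a b))
    (h : ∀ t ∈ Set.Icc a b, 0 < Real.cos (φ t)) : 0 < Real.cos ((φ a + φ b) / 2) := by
  have hmem : (φ a + φ b) / 2 ∈ φ '' Set.Icc a b := by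
    rcases le_total (φ a) (φ b) with hle | hle
    · exact intermediate_value_Icc hab hφ ⟨by linarith, by linarith⟩
    · exact intermediate_value_Icc' hab hφ ⟨by linarith, by linarith⟩
  obtain ⟨t, ht, heq⟩ := hmem
  rw [← heq]
  exact h t ht

theorem cos_mid_neg {φ : ℝ → ℝ} {a b : ℝ} (hab : a ≤ b) (hφ : ContinuousOn φ (Set.Icc a b))
    (h : ∀ t ∈ Set.Icc a b, Real.cos (φ t) < 0) : Real.cos ((φ a + φ b) / 2) < 0 := by
  have hmem : (φ a + φ b) / 2 ∈ φ '' Set.Icc a b := by
    rcases le_total (φ a) (φ b) with hle | hle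
    · exact intermediate_value_Icc hab hφ ⟨by linarith, by linarith⟩
    · exact intermediate_value_Icc' hab hφ ⟨by linarith, by linarith⟩
  obtain ⟨t, ht, heq⟩ := hmem
  rw [← heq]
  exact h t ht

/-- A continuous real function whose exponential is constant has equal end values. -/
theorem eq_of_exp_const {D : ℝ → ℝ} {a b : ℝ} (hab : a ≤ b) (hD : ContinuousOn D (Set.Icc a b))
    (c : ℂ) (h : ∀ t ∈ Set.Icc a b, Complex.exp (D t * Complex.I) = c) : D a = D b := by
  by_contra hne
  have hsub : ∀ y ∈ Set.uIcc (D a) (D b), Complex.exp (y * Complex.I) = c := by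
    intro y hy
    obtain ⟨t, ht, rfl⟩ : y ∈ D '' Set.Icc a b := by
      rcases le_total (D a) (D b) with hle | hle
      · rw [Set.uIcc_of_le hle] at hy
        exact intermediate_value_Icc hab hD hy
      · rw [Set.uIcc_of_ge hle] at hy
        exact intermediate_value_Icc' hab hD hy
    exact h t ht
  -- pick a point strictly inside at distance less than one
  set e : ℝ := min 1 |D b - D a| with he
  have he0 : 0 < e := by
    have : 0 < |D b - D a| := abs_pos.2 (sub_ne_zero.2 (Ne.symm hne))
    exact lt_min one_pos this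
  have he1 : e ≤ 1 := min_le_left _ _
  have he2 : e ≤ |D b - D a| := min_le_right _ _
  have key : ∀ y, y - D a = e ∨ y - D a = -e → Complex.exp (y * Complex.I) ≠ c := by
    intro y hy heq
    have h1 := hsub (D a) Set.left_mem_uIcc
    rw [← h1, Complex.exp_eq_exp_iff_exists_int] at heq
    obtain ⟨n, hn⟩ := heq
    have h2 : y = D a + n * (2 * Real.pi) := by
      have h3 : ((y : ℂ) - (D a + n * (2 * Real.pi))) * Complex.I = 0 := by
        linear_combination hn
      have h4 := (mul_eq_zero.1 h3).resolve_right Complex.I_ne_zero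
      have h5 : ((y - (D a + n * (2 * Real.pi)) : ℝ) : ℂ) = 0 := by push_cast; exact h4
      have := Complex.ofReal_eq_zero.1 h5
      linarith
    have hpi := Real.pi_gt_three
    have habs : |(n : ℝ)| * (2 * Real.pi) ≤ 1 := by
      have : |y - D a| ≤ 1 := by
        rcases hy with h | h
        · rw [h, abs_of_pos he0]; exact he1
        · rw [h, abs_neg, abs_of_pos he0]; exact he1
      have h3 : y - D a = n * (2 * Real.pi) := by linarith
      rw [h3, abs_mul, abs_of_pos (by positivity : 0 < 2 * Real.pi)] at this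
      exact this
    have hn0 : n = 0 := by
      by_contra hn0
      have : (1 : ℝ) ≤ |(n : ℝ)| := by
        rw [← Int.cast_abs]
        exact_mod_cast Int.one_le_abs hn0
      nlinarith
    rw [hn0] at h2
    simp at h2
    rcases hy with h | h
    · rw [h2] at h; linarith
    · rw [h2] at h; linarith
  rcases lt_or_gt_of_ne hne with hlt | hlt
  · have h1 : D a + e ∈ Set.uIcc (D a) (D b) := by
      rw [Set.uIcc_of_le hlt.le]
      rw [abs_of_pos (by linarith)] at he2
      exact ⟨by linarith, by linarith⟩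
    exact key (D a + e) (Or.inl (by ring)) (by simpa using hsub _ h1)
  · have h1 : D a - e ∈ Set.uIcc (D a) (D b) := by
      rw [Set.uIcc_of_ge hlt.le]
      rw [abs_of_neg (by linarith)] at he2
      exact ⟨by linarith, by linarith⟩
    exact key (D a - e) (Or.inr (by ring)) (by simpa using hsub _ h1)

end Pool.Agent.Helper253.Loop
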