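import Pool.Agent.Helper253.Ode

set_option autoImplicit false

namespace Pool.Agent.Helper253

open Topology Set
open scoped ContDiff NNReal

/-- The unit complex number with given angle. -/
noncomputable def ei (θ : ℝ) : ℂ := Complex.exp (θ * Complex.I)

theorem ei_re (θ : ℝ) : (ei θ).re = Real.cos θ := Complex.exp_ofReal_mul_I_re θ

theorem ei_im (θ : ℝ) : (ei θ).im = Real.sin θ := Complex.exp_ofReal_mul_I_im θ

theorem norm_ei (θ : ℝ) : ‖ei θ‖ = 1 := Complex.norm_exp_ofReal_mul_I θ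

theorem hasDerivAt_ei (θ : ℝ) : HasDerivAt ei (Complex.I * ei θ) θ := by
  have h1 : HasDerivAt (fun t : ℝ => (t : ℂ) * Complex.I) Complex.I θ := by
    simpa using (Complex.ofRealCLM.hasDerivAt (x := θ)).mul_const Complex.I
  have := h1.cexp
  rw [mul_comm] at this
  exact this

theorem contDiff_ei : ContDiff ℝ ∞ ei := by
  have h1 : ContDiff ℝ ∞ (fun t : ℝ => (t : ℂ) * Complex.I) :=
    (Complex.ofRealCLM.contDiff).mul contDiff_const
  exact h1.cexp

theorem ei_lip (a b : ℝ) : ‖ei a - ei b‖ ≤ |a - b| := by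
  have := Convex.norm_image_sub_le_of_norm_hasDerivWithin_le (f := ei)
    (f' := fun θ => Complex.I * ei θ) (s := univ) (C := 1) (x := b) (y := a)
    (fun x _ => (hasDerivAt_ei x).hasDerivWithinAt)
    (fun x _ => by rw [norm_mul, Complex.norm_I, norm_ei, one_mul]) convex_univ (mem_univ _)
    (mem_univ _)
  rw [one_mul, Real.norm_eq_abs] at this
  exact this

/-- A pair of direction fields forming a net of parallel translates. -/
structure Net where
  θ1 : ℂ → ℝ
  θ2 : ℂ → ℝ
  smooth1 : ContDiff ℝ ∞ θ1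
  smooth2 : ContDiff ℝ ∞ θ2
  K : ℝ
  hK1 : ∀ z, ‖fderiv ℝ θ1 z‖ ≤ K
  hK2 : ∀ z, ‖fderiv ℝ θ2 z‖ ≤ K
  hd1 : ∀ z, fderiv ℝ θ1 z (ei (θ2 z)) = 0
  hd2 : ∀ z, fderiv ℝ θ2 z (ei (θ1 z)) = 0
  s0 : ℝ
  hs0 : 0 < s0
  hs : ∀ z, s0 ≤ Real.sin (θ1 z - θ2 z)
  hpos : ∀ z, 0 < θ1 z - θ2 z
  hpi : ∀ z, θ1 z - θ2 z < Real.pi

namespace Net

variable (N : Net)

theorem hK0 : 0 ≤ N.K := (norm_nonneg _).trans (N.hK1 0)

theorem lip1 (z w : ℂ) : |N.θ1 z - N.θ1 w| ≤ N.K * ‖z - w‖ := by
  have := Convex.norm_image_sub_le_of_norm_fderiv_le (f := N.θ1) (s := univ) (C := N.K) (x := w)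
    (y := z) (fun x _ => N.smooth1.differentiable (by simp) x) (fun x _ => N.hK1 x) convex_univ
    (mem_univ _) (mem_univ _)
  exact this

theorem lip2 (z w : ℂ) : |N.θ2 z - N.θ2 w| ≤ N.K * ‖z - w‖ := by
  have := Convex.norm_image_sub_le_of_norm_fderiv_le (f := N.θ2) (s := univ) (C := N.K) (x := w)
    (y := z) (fun x _ => N.smooth2.differentiable (by simp) x) (fun x _ => N.hK2 x) convex_univ
    (mem_univ _) (mem_univ _)
  exact this

theorem lipv1 : LipschitzWith ⟨N.K, N.hK0⟩ (fun z => ei (N.θ1 z)) :=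
  LipschitzWith.of_dist_le_mul fun z w => by
    rw [dist_eq_norm, dist_eq_norm]
    exact (ei_lip _ _).trans (N.lip1 z w)

theorem lipv2 : LipschitzWith ⟨N.K, N.hK0⟩ (fun z => ei (N.θ2 z)) :=
  LipschitzWith.of_dist_le_mul fun z w => by
    rw [dist_eq_norm, dist_eq_norm]
    exact (ei_lip _ _).trans (N.lip2 z w)

theorem exists_alpha : ∃ α : ℝ → ℂ, α 0 = 0 ∧ ∀ t, HasDerivAt α (ei (N.θ1 (α t))) t :=
  Ode.exists_global N.lipv1 (fun _ => (norm_ei _).le)

theorem exists_beta : ∃ α : ℝ → ℂ, α 0 = 0 ∧ ∀ t, HasDerivAt α (ei (N.θ2 (α t))) t :=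
  Ode.exists_global N.lipv2 (fun _ => (norm_ei _).le)

noncomputable def α : ℝ → ℂ := N.exists_alpha.choose
noncomputable def β : ℝ → ℂ := N.exists_beta.choose

theorem α_zero : N.α 0 = 0 := N.exists_alpha.choose_spec.1
theorem β_zero : N.β 0 = 0 := N.exists_beta.choose_spec.1
theorem α_deriv (t : ℝ) : HasDerivAt N.α (ei (N.θ1 (N.α t))) t := N.exists_alpha.choose_spec.2 t
theorem β_deriv (t : ℝ) : HasDerivAt N.β (ei (N.θ2 (N.β t))) t := N.exists_beta.choose_spec.2 t

theorem α_smooth : ContDiff ℝ ∞ N.α :=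
  Ode.smooth (v := fun z => ei (N.θ1 z)) (contDiff_ei.comp N.smooth1) N.α_deriv

theorem β_smooth : ContDiff ℝ ∞ N.β :=
  Ode.smooth (v := fun z => ei (N.θ2 z)) (contDiff_ei.comp N.smooth2) N.β_deriv

theorem α_cont : Continuous N.α := N.α_smooth.continuous
theorem β_cont : Continuous N.β := N.β_smooth.continuous

/-- The derivative of a function along the beta direction of the net. -/
theorem comp_deriv {g : ℂ → ℝ} (hg : ContDiff ℝ ∞ g) {c : ℝ → ℂ} {c' : ℂ} {t : ℝ}
    (hc : HasDerivAt c c' t) : HasDerivAt (fun t => g (c t)) (fderiv ℝ g (c t) c') t :=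
  ((hg.differentiable (by simp) (c t)).hasFDerivAt).comp_hasDerivAt t hc

/-- One half of the uniqueness argument: a bound for one difference in terms of a bound for the
other. -/
theorem half_step {g B B' : ℝ → ℝ} {g' : ℝ → ℝ} (hg : ∀ s, HasDerivAt g (g' s) s)
    (h0 : g 0 = 0) (hB0 : 0 ≤ B 0) (hB : ∀ s, HasDerivAt B (B' s) s)
    (hle : ∀ s ∈ Icc (0 : ℝ) 1, |g' s| ≤ B' s) : |g 1| ≤ B 1 := by
  have := image_norm_le_of_norm_deriv_right_le_deriv_boundary (f := g) (f' := g') (a := 0) (b := 1)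
    (fun s _ => (hg s).continuousAt.continuousWithinAt) (fun s _ => (hg s).hasDerivWithinAt)
    (B := B) (B' := B') (by rw [h0, norm_zero]; exact hB0) hB
    (fun s hs => by rw [Real.norm_eq_abs]; exact hle s ⟨hs.1, hs.2.le⟩)
    (x := 1) ⟨zero_le_one, le_refl 1⟩
  rwa [Real.norm_eq_abs] at this

/-- The net is a translation net. -/
theorem goursat (u v : ℝ) : N.θ1 (N.α u + N.β v) = N.θ1 (N.α u) ∧
    N.θ2 (N.α u + N.β v) = N.θ2 (N.β v) := by
  set a : ℝ × ℝ → ℝ := fun p => N.θ1 (N.α p.1 + N.β p.2) - N.θ1 (N.α p.1) with ha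
  set b : ℝ × ℝ → ℝ := fun p => N.θ2 (N.α p.1 + N.β p.2) - N.θ2 (N.β p.2) with hb
  have hK := N.hK0
  have c1 := N.α_cont
  have c2 := N.β_cont
  have t1 := N.smooth1.continuous
  have t2 := N.smooth2.continuous
  have hac : Continuous a := by rw [ha]; fun_prop
  have hbc : Continuous b := by rw [hb]; fun_prop
  set T : ℝ := max |u| |v| with hT
  set w : ℝ × ℝ → ℝ := fun p => Real.exp (-(2 * N.K * (|p.1| + |p.2|))) with hw
  have hwc : Continuous w := by rw [hw]; fun_prop
  set m : ℝ × ℝ → ℝ := fun p => max |a p| |b p| * w p with hm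
  have hmc : Continuous m := (hac.abs.max hbc.abs).mul hwc
  have hcomp : IsCompact (Icc (-T) T ×ˢ Icc (-T) T) := isCompact_Icc.prod isCompact_Icc
  have huv : (u, v) ∈ Icc (-T) T ×ˢ Icc (-T) T := by
    constructor
    · exact abs_le.1 (le_max_left _ _)
    · exact abs_le.1 (le_max_right _ _)
  obtain ⟨⟨u0, v0⟩, hp0, hmax⟩ := hcomp.exists_isMaxOn ⟨_, huv⟩ hmc.continuousOn
  set M : ℝ := m (u0, v0) with hM
  have hM0 : 0 ≤ M := mul_nonneg ((abs_nonneg _).trans (le_max_left _ _)) (Real.exp_pos _).le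
  have hwe : ∀ p, w p * Real.exp (2 * N.K * (|p.1| + |p.2|)) = 1 := by
    intro p
    simp only [hw]
    rw [← Real.exp_add]; simp
  have hbound : ∀ p ∈ Icc (-T) T ×ˢ Icc (-T) T,
      |a p| ≤ M * Real.exp (2 * N.K * (|p.1| + |p.2|)) ∧
      |b p| ≤ M * Real.exp (2 * N.K * (|p.1| + |p.2|)) := by
    intro p hp
    have h1 : m p ≤ M := hmax hp
    have h2 : max |a p| |b p| ≤ M * Real.exp (2 * N.K * (|p.1| + |p.2|)) := by
      calc max |a p| |b p| = m p * Real.exp (2 * N.K * (|p.1| + |p.2|)) := by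
            simp only [hm]; rw [mul_assoc, hwe, mul_one]
        _ ≤ _ := by gcongr
    exact ⟨(le_max_left _ _).trans h2, (le_max_right _ _).trans h2⟩
  -- the sup vanishes
  have hMz : M = 0 := by
    by_contra hne
    have hMpos : 0 < M := lt_of_le_of_ne hM0 (Ne.symm hne)
    have hu0 : |u0| ≤ T := abs_le.2 hp0.1
    have hv0 : |v0| ≤ T := abs_le.2 hp0.2
    have hA : |a (u0, v0)| ≤ M / 2 * Real.exp (2 * N.K * (|u0| + |v0|)) := by
      have key := half_step (g := fun s => a (u0, s * v0))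
        (g' := fun s => fderiv ℝ N.θ1 (N.α u0 + N.β (s * v0)) (v0 • ei (N.θ2 (N.β (s * v0)))))
        (B := fun s => M / 2 * Real.exp (2 * N.K * (|u0| + s * |v0|)))
        (B' := fun s => M / 2 * (Real.exp (2 * N.K * (|u0| + s * |v0|)) * (2 * N.K * |v0|)))
        (fun s => by
          have h1 : HasDerivAt (fun s : ℝ => s * v0) v0 s := by
            simpa using (hasDerivAt_id s).mul_const v0
          have h2 : HasDerivAt (fun s : ℝ => N.β (s * v0)) (v0 • ei (N.θ2 (N.β (s * v0)))) s :=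
            HasDerivAt.scomp s (N.β_deriv (s * v0)) h1
          have h3 := comp_deriv N.smooth1 (h2.const_add (N.α u0))
          simp only [ha]
          exact h3.sub_const _)
        (by simp [ha, N.β_zero]) (by positivity)
        (fun s => by
          have h1 : HasDerivAt (fun s : ℝ => 2 * N.K * (|u0| + s * |v0|)) (2 * N.K * |v0|) s := by
            have := (((hasDerivAt_id s).mul_const |v0|).const_add |u0|).const_mul (2 * N.K)
            simpa using this
          exact (h1.exp).const_mul (M / 2))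
        (fun s hs => by
          have hmem : (u0, s * v0) ∈ Icc (-T) T ×ˢ Icc (-T) T := by
            refine ⟨hp0.1, abs_le.1 ?_⟩
            simp only
            rw [abs_mul, abs_of_nonneg hs.1]
            have := mul_le_of_le_one_left (abs_nonneg v0) hs.2
            linarith
          have hbb := (hbound _ hmem).2
          have e1 : fderiv ℝ N.θ1 (N.α u0 + N.β (s * v0)) (v0 • ei (N.θ2 (N.β (s * v0)))) =
              v0 * fderiv ℝ N.θ1 (N.α u0 + N.β (s * v0))
                (ei (N.θ2 (N.β (s * v0))) - ei (N.θ2 (N.α u0 + N.β (s * v0)))) := by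
            rw [map_smul, map_sub, N.hd1, sub_zero, smul_eq_mul]
          rw [e1, abs_mul]
          have e2 : |fderiv ℝ N.θ1 (N.α u0 + N.β (s * v0))
                (ei (N.θ2 (N.β (s * v0))) - ei (N.θ2 (N.α u0 + N.β (s * v0))))| ≤
              N.K * |b (u0, s * v0)| := by
            rw [← Real.norm_eq_abs]
            refine (ContinuousLinearMap.le_opNorm _ _).trans ?_
            refine mul_le_mul (N.hK1 _) ?_ (norm_nonneg _) hK
            rw [norm_sub_rev]
            exact ei_lip _ _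
          have e3 : |((u0, s * v0) : ℝ × ℝ).2| = s * |v0| := by
            simp only; rw [abs_mul, abs_of_nonneg hs.1]
          rw [e3] at hbb
          simp only at hbb
          calc |v0| * _ ≤ |v0| * (N.K * (M * Real.exp (2 * N.K * (|u0| + s * |v0|)))) := by
                refine mul_le_mul_of_nonneg_left (e2.trans ?_) (abs_nonneg _)
                exact mul_le_mul_of_nonneg_left hbb hK
            _ = _ := by ring)
      simpa using key
    have hB : |b (u0, v0)| ≤ M / 2 * Real.exp (2 * N.K * (|u0| + |v0|)) := by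
      have key := half_step (g := fun s => b (s * u0, v0))
        (g' := fun s => fderiv ℝ N.θ2 (N.α (s * u0) + N.β v0) (u0 • ei (N.θ1 (N.α (s * u0)))))
        (B := fun s => M / 2 * Real.exp (2 * N.K * (s * |u0| + |v0|)))
        (B' := fun s => M / 2 * (Real.exp (2 * N.K * (s * |u0| + |v0|)) * (2 * N.K * |u0|)))
        (fun s => by
          have h1 : HasDerivAt (fun s : ℝ => s * u0) u0 s := by
            simpa using (hasDerivAt_id s).mul_const u0
          have h2 : HasDerivAt (fun s : ℝ => N.α (s * u0)) (u0 • ei (N.θ1 (N.α (s * u0)))) s :=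
            HasDerivAt.scomp s (N.α_deriv (s * u0)) h1
          have h3 := comp_deriv N.smooth2 (h2.add_const (N.β v0))
          simp only [hb]
          exact h3.sub_const _)
        (by simp [hb, N.α_zero]) (by positivity)
        (fun s => by
          have h1 : HasDerivAt (fun s : ℝ => 2 * N.K * (s * |u0| + |v0|)) (2 * N.K * |u0|) s := by
            have := (((hasDerivAt_id s).mul_const |u0|).add_const |v0|).const_mul (2 * N.K)
            simpa using this
          exact (h1.exp).const_mul (M / 2))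
        (fun s hs => by
          have hmem : (s * u0, v0) ∈ Icc (-T) T ×ˢ Icc (-T) T := by
            refine ⟨abs_le.1 ?_, hp0.2⟩
            simp only
            rw [abs_mul, abs_of_nonneg hs.1]
            have := mul_le_of_le_one_left (abs_nonneg u0) hs.2
            linarith
          have hbb := (hbound _ hmem).1
          have e1 : fderiv ℝ N.θ2 (N.α (s * u0) + N.β v0) (u0 • ei (N.θ1 (N.α (s * u0)))) =
              u0 * fderiv ℝ N.θ2 (N.α (s * u0) + N.β v0)
                (ei (N.θ1 (N.α (s * u0))) - ei (N.θ1 (N.α (s * u0) + N.β v0))) := by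
            rw [map_smul, map_sub, N.hd2, sub_zero, smul_eq_mul]
          rw [e1, abs_mul]
          have e2 : |fderiv ℝ N.θ2 (N.α (s * u0) + N.β v0)
                (ei (N.θ1 (N.α (s * u0))) - ei (N.θ1 (N.α (s * u0) + N.β v0)))| ≤
              N.K * |a (s * u0, v0)| := by
            rw [← Real.norm_eq_abs]
            refine (ContinuousLinearMap.le_opNorm _ _).trans ?_
            refine mul_le_mul (N.hK2 _) ?_ (norm_nonneg _) hK
            rw [norm_sub_rev]
            exact ei_lip _ _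
          have e3 : |((s * u0, v0) : ℝ × ℝ).1| = s * |u0| := by
            simp only; rw [abs_mul, abs_of_nonneg hs.1]
          rw [e3] at hbb
          simp only at hbb
          calc |u0| * _ ≤ |u0| * (N.K * (M * Real.exp (2 * N.K * (s * |u0| + |v0|)))) := by
                refine mul_le_mul_of_nonneg_left (e2.trans ?_) (abs_nonneg _)
                exact mul_le_mul_of_nonneg_left hbb hK
            _ = _ := by ring)
      simpa using key
    have h1 : max |a (u0, v0)| |b (u0, v0)| ≤ M / 2 * Real.exp (2 * N.K * (|u0| + |v0|)) :=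
      max_le hA hB
    have h2 : M ≤ M / 2 := by
      calc M = max |a (u0, v0)| |b (u0, v0)| * w (u0, v0) := rfl
        _ ≤ (M / 2 * Real.exp (2 * N.K * (|u0| + |v0|))) * w (u0, v0) := by
            apply mul_le_mul_of_nonneg_right h1 (Real.exp_pos _).le
        _ = M / 2 := by
            have := hwe (u0, v0)
            simp only at this
            rw [mul_assoc, mul_comm (Real.exp _), this, mul_one]
    linarith
  have hfin := hbound (u, v) huv
  rw [hMz] at hfin
  simp only [zero_mul] at hfin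
  exact ⟨sub_eq_zero.1 (abs_nonpos_iff.1 hfin.1), sub_eq_zero.1 (abs_nonpos_iff.1 hfin.2)⟩

theorem θ1_net (u v : ℝ) : N.θ1 (N.α u + N.β v) = N.θ1 (N.α u) := (N.goursat u v).1
theorem θ2_net (u v : ℝ) : N.θ2 (N.α u + N.β v) = N.θ2 (N.β v) := (N.goursat u v).2

theorem sin_net (u v : ℝ) : N.s0 ≤ Real.sin (N.θ1 (N.α u) - N.θ2 (N.β v)) := by
  have := N.hs (N.α u + N.β v)
  rwa [N.θ1_net, N.θ2_net] at this

/-- The cross product of two complex numbers. -/
def cr (w z : ℂ) : ℝ := w.re * z.im - w.im * z.re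

theorem cr_ei (a b : ℝ) : cr (ei a) (ei b) = Real.sin (b - a) := by
  rw [cr, ei_re, ei_im, ei_re, ei_im, Real.sin_sub]; ring

theorem cr_le (w z : ℂ) : |cr w z| ≤ ‖w‖ * ‖z‖ := by
  have h1 : cr w z = ((starRingEnd ℂ) w * z).im := by
    rw [cr, Complex.mul_im, Complex.conj_re, Complex.conj_im]; ring
  rw [h1]
  refine (Complex.abs_im_le_norm _).trans ?_
  rw [norm_mul, Complex.norm_conj]

theorem cr_add (w z z' : ℂ) : cr w (z + z') = cr w z + cr w z' := by
  simp only [cr, Complex.add_re, Complex.add_im]; ring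

theorem cr_self (w : ℂ) : cr w w = 0 := by
  rw [cr]; ring

theorem hasDerivAt_re {c : ℝ → ℂ} {c' : ℂ} {t : ℝ} (h : HasDerivAt c c' t) :
    HasDerivAt (fun t => (c t).re) c'.re t :=
  (Complex.reCLM.hasFDerivAt (x := c t)).comp_hasDerivAt t h

theorem hasDerivAt_im {c : ℝ → ℂ} {c' : ℂ} {t : ℝ} (h : HasDerivAt c c' t) :
    HasDerivAt (fun t => (c t).im) c'.im t :=
  (Complex.imCLM.hasFDerivAt (x := c t)).comp_hasDerivAt t h

theorem deriv_scale {c : ℝ → ℂ} {c' : ℝ → ℂ} (h : ∀ t, HasDerivAt c (c' t) t) (v s : ℝ) :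
    HasDerivAt (fun s : ℝ => c (s * v)) (v • c' (s * v)) s := by
  have h1 : HasDerivAt (fun s : ℝ => s * v) v s := by
    simpa using (hasDerivAt_id s).mul_const v
  exact HasDerivAt.scomp s (h (s * v)) h1

theorem ge_of_deriv_ge {g g' : ℝ → ℝ} {C : ℝ} (hg : ∀ s, HasDerivAt g (g' s) s) (h0 : g 0 = 0)
    (hle : ∀ s, C ≤ g' s) : C ≤ g 1 := by
  have h1 : MonotoneOn (fun s => g s - C * s) (Icc (0 : ℝ) 1) := by
    apply monotoneOn_of_deriv_nonneg (convex_Icc _ _)
    · intro s _
      exact ((hg s).sub ((hasDerivAt_id s).const_mul C)).continuousAt.continuousWithinAt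
    · intro s _
      exact ((hg s).sub ((hasDerivAt_id s).const_mul C)).differentiableAt.differentiableWithinAt
    · intro s _
      have h2 : HasDerivAt (fun s => g s - C * s) (g' s - C * 1) s :=
        (hg s).sub ((hasDerivAt_id s).const_mul C)
      rw [h2.deriv]
      linarith [hle s]
  have := h1 ⟨le_refl 0, zero_le_one⟩ ⟨zero_le_one, le_refl 1⟩ zero_le_one
  simp only [h0, mul_zero, sub_zero, mul_one] at this
  linarith

/-- A lower bound for the cross product of the two parts of the net. -/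
theorem cross_lower (u v : ℝ) : N.s0 * u ^ 2 * v ^ 2 ≤ u * v * cr (N.β v) (N.α u) := by
  have h1 : ∀ u' : ℝ, N.s0 * v ^ 2 ≤ v * cr (N.β v) (ei (N.θ1 (N.α u'))) := by
    intro u'
    have key := ge_of_deriv_ge (g := fun s => v * cr (N.β (s * v)) (ei (N.θ1 (N.α u'))))
      (g' := fun s => v * (v * cr (ei (N.θ2 (N.β (s * v)))) (ei (N.θ1 (N.α u')))))
      (C := N.s0 * v ^ 2) (fun s => by
        have h2 := deriv_scale N.β_deriv v s
        have h3 := (hasDerivAt_re h2).mul_const (ei (N.θ1 (N.α u'))).im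
        have h4 := (hasDerivAt_im h2).mul_const (ei (N.θ1 (N.α u'))).re
        refine ((h3.sub h4).const_mul v).congr_deriv ?_
        simp only [cr, Complex.real_smul, Complex.re_ofReal_mul, Complex.im_ofReal_mul]
        ring)
      (by simp [cr, N.β_zero]) (fun s => by
        rw [cr_ei]
        have := N.sin_net u' (s * v)
        nlinarith [sq_nonneg v])
    simpa using key
  have key := ge_of_deriv_ge (g := fun s => u * v * cr (N.β v) (N.α (s * u)))
      (g' := fun s => u ^ 2 * (v * cr (N.β v) (ei (N.θ1 (N.α (s * u))))))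
      (C := N.s0 * u ^ 2 * v ^ 2) (fun s => by
        have h2 := deriv_scale N.α_deriv u s
        have h3 := (hasDerivAt_im h2).const_mul (N.β v).re
        have h4 := (hasDerivAt_re h2).const_mul (N.β v).im
        refine ((h3.sub h4).const_mul (u * v)).congr_deriv ?_
        simp only [cr, Complex.real_smul, Complex.re_ofReal_mul, Complex.im_ofReal_mul]
        ring)
      (by simp [cr, N.α_zero]) (fun s => by
        have := h1 (s * u)
        nlinarith [sq_nonneg u])
  simpa using key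

theorem norm_α_le (u : ℝ) : ‖N.α u‖ ≤ |u| := by
  have := Convex.norm_image_sub_le_of_norm_hasDerivWithin_le (f := N.α)
    (f' := fun t => ei (N.θ1 (N.α t))) (s := univ) (C := 1) (x := 0) (y := u)
    (fun x _ => (N.α_deriv x).hasDerivWithinAt)
    (fun x _ => (norm_ei _).le) convex_univ (mem_univ _) (mem_univ _)
  simpa [N.α_zero] using this

theorem norm_β_le (u : ℝ) : ‖N.β u‖ ≤ |u| := by
  have := Convex.norm_image_sub_le_of_norm_hasDerivWithin_le (f := N.β)
    (f' := fun t => ei (N.θ2 (N.β t))) (s := univ) (C := 1) (x := 0) (y := u)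
    (fun x _ => (N.β_deriv x).hasDerivWithinAt)
    (fun x _ => (norm_ei _).le) convex_univ (mem_univ _) (mem_univ _)
  simpa [N.β_zero] using this

theorem proper1 (u v : ℝ) : N.s0 * |u| ≤ ‖N.α u + N.β v‖ := by
  rcases eq_or_ne u 0 with hu | hu
  · rw [hu]; simp
  have hu' : 0 < |u| := abs_pos.2 hu
  rcases eq_or_ne v 0 with hv | hv
  · rw [hv, N.β_zero, add_zero]
    have h1 := N.cross_lower u 1
    have h2 := cr_le (N.β 1) (N.α u)
    have h3 := N.norm_β_le 1
    rw [abs_one] at h3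
    have h4 : u * 1 * cr (N.β 1) (N.α u) ≤ |u| * ‖N.α u‖ := by
      calc u * 1 * cr (N.β 1) (N.α u) ≤ |u * 1 * cr (N.β 1) (N.α u)| := le_abs_self _
        _ = |u| * |cr (N.β 1) (N.α u)| := by rw [mul_one, abs_mul]
        _ ≤ |u| * (‖N.β 1‖ * ‖N.α u‖) := mul_le_mul_of_nonneg_left h2 hu'.le
        _ ≤ |u| * (1 * ‖N.α u‖) := by gcongr
        _ = _ := by ring
    have h5 : |u| * (N.s0 * |u|) ≤ |u| * ‖N.α u‖ := by
      have : N.s0 * u ^ 2 * 1 ^ 2 = |u| * (N.s0 * |u|) := by rw [← sq_abs u]; ring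
      linarith
    exact le_of_mul_le_mul_left h5 hu'
  · have hv' : 0 < |v| := abs_pos.2 hv
    have h1 := N.cross_lower u v
    have h2 : cr (N.β v) (N.α u) = cr (N.β v) (N.α u + N.β v) := by
      rw [cr_add, cr_self, add_zero]
    rw [h2] at h1
    have h3 := cr_le (N.β v) (N.α u + N.β v)
    have h4 := N.norm_β_le v
    have h5 : u * v * cr (N.β v) (N.α u + N.β v) ≤ |u| * |v| * (|v| * ‖N.α u + N.β v‖) := by
      calc u * v * cr (N.β v) (N.α u + N.β v) ≤ |u * v * cr (N.β v) (N.α u + N.β v)| :=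
            le_abs_self _
        _ = |u| * |v| * |cr (N.β v) (N.α u + N.β v)| := by rw [abs_mul, abs_mul]
        _ ≤ |u| * |v| * (‖N.β v‖ * ‖N.α u + N.β v‖) :=
            mul_le_mul_of_nonneg_left h3 (by positivity)
        _ ≤ |u| * |v| * (|v| * ‖N.α u + N.β v‖) := by gcongr
    have h6 : (|u| * |v| * |v|) * (N.s0 * |u|) ≤ (|u| * |v| * |v|) * ‖N.α u + N.β v‖ := by
      have : N.s0 * u ^ 2 * v ^ 2 = (|u| * |v| * |v|) * (N.s0 * |u|) := by
        rw [← sq_abs u, ← sq_abs v]; ring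
      linarith
    exact le_of_mul_le_mul_left h6 (by positivity)

theorem proper2 (u v : ℝ) : N.s0 * |v| ≤ ‖N.α u + N.β v‖ := by
  rcases eq_or_ne v 0 with hv | hv
  · rw [hv]; simp
  have hv' : 0 < |v| := abs_pos.2 hv
  rcases eq_or_ne u 0 with hu | hu
  · rw [hu, N.α_zero, zero_add]
    have h1 := N.cross_lower 1 v
    have h2 := cr_le (N.β v) (N.α 1)
    have h3 := N.norm_α_le 1
    rw [abs_one] at h3
    have h4 : 1 * v * cr (N.β v) (N.α 1) ≤ |v| * ‖N.β v‖ := by
      calc 1 * v * cr (N.β v) (N.α 1) ≤ |1 * v * cr (N.β v) (N.α 1)| := le_abs_self _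
        _ = |v| * |cr (N.β v) (N.α 1)| := by rw [one_mul, abs_mul]
        _ ≤ |v| * (‖N.β v‖ * ‖N.α 1‖) := mul_le_mul_of_nonneg_left h2 hv'.le
        _ ≤ |v| * (‖N.β v‖ * 1) := by gcongr
        _ = _ := by ring
    have h5 : |v| * (N.s0 * |v|) ≤ |v| * ‖N.β v‖ := by
      have : N.s0 * 1 ^ 2 * v ^ 2 = |v| * (N.s0 * |v|) := by rw [← sq_abs v]; ring
      linarith
    exact le_of_mul_le_mul_left h5 hv'
  · have hu' : 0 < |u| := abs_pos.2 hu
    have h1 := N.cross_lower u v
    have h2 : cr (N.β v) (N.α u) = -cr (N.α u) (N.α u + N.β v) := by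
      rw [cr_add, cr_self, zero_add]; simp only [cr]; ring
    rw [h2] at h1
    have h3 := cr_le (N.α u) (N.α u + N.β v)
    have h4 := N.norm_α_le u
    have h5 : u * v * -cr (N.α u) (N.α u + N.β v) ≤ |u| * |v| * (|u| * ‖N.α u + N.β v‖) := by
      calc u * v * -cr (N.α u) (N.α u + N.β v) ≤ |u * v * -cr (N.α u) (N.α u + N.β v)| :=
            le_abs_self _
        _ = |u| * |v| * |cr (N.α u) (N.α u + N.β v)| := by rw [abs_mul, abs_mul, abs_neg]
        _ ≤ |u| * |v| * (‖N.α u‖ * ‖N.α u + N.β v‖) :=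
            mul_le_mul_of_nonneg_left h3 (by positivity)
        _ ≤ |u| * |v| * (|u| * ‖N.α u + N.β v‖) := by gcongr
    have h6 : (|u| * |v| * |u|) * (N.s0 * |v|) ≤ (|u| * |v| * |u|) * ‖N.α u + N.β v‖ := by
      have : N.s0 * u ^ 2 * v ^ 2 = (|u| * |v| * |u|) * (N.s0 * |v|) := by
        rw [← sq_abs u, ← sq_abs v]; ring
      linarith
    exact le_of_mul_le_mul_left h6 (by positivity)

/-- The net covers the plane. -/
theorem surj (z : ℂ) : ∃ u v : ℝ, N.α u + N.β v = z := by
  have hs0 := N.hs0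
  set R : ℝ := (2 * ‖z‖ + 1) / N.s0 with hR
  have hR0 : 0 ≤ R := by positivity
  have c1 := N.α_cont
  have c2 := N.β_cont
  set g : ℝ × ℝ → ℝ := fun p => ‖N.α p.1 + N.β p.2 - z‖ ^ 2 with hg
  have hgc : Continuous g := by rw [hg]; fun_prop
  obtain ⟨⟨u0, v0⟩, hp0, hmin⟩ := (isCompact_Icc (a := -R) (b := R)).prod
    (isCompact_Icc (a := -R) (b := R)) |>.exists_isMinOn
    ⟨((0 : ℝ), (0 : ℝ)), ⟨⟨by simpa using hR0, hR0⟩, ⟨by simpa using hR0, hR0⟩⟩⟩ hgc.continuousOn
  have hglob : ∀ p, g (u0, v0) ≤ g p := by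
    intro p
    by_cases hp : p ∈ Icc (-R) R ×ˢ Icc (-R) R
    · exact hmin hp
    · have h1 : g (u0, v0) ≤ g (0, 0) :=
        hmin (show ((0 : ℝ), (0 : ℝ)) ∈ Icc (-R) R ×ˢ Icc (-R) R from
          ⟨⟨by simpa using hR0, hR0⟩, ⟨by simpa using hR0, hR0⟩⟩)
      have h2 : g (0, 0) = ‖z‖ ^ 2 := by
        simp [hg, N.α_zero, N.β_zero]
      have h3 : R < |p.1| ∨ R < |p.2| := by
        by_contra hcon
        push Not at hcon
        exact hp ⟨abs_le.1 hcon.1, abs_le.1 hcon.2⟩
      have h4 : 2 * ‖z‖ + 1 ≤ ‖N.α p.1 + N.β p.2‖ := by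
        have h5 : N.s0 * R = 2 * ‖z‖ + 1 := by rw [hR]; field_simp
        rcases h3 with h | h
        · calc 2 * ‖z‖ + 1 = N.s0 * R := h5.symm
            _ ≤ N.s0 * |p.1| := by gcongr
            _ ≤ _ := N.proper1 _ _
        · calc 2 * ‖z‖ + 1 = N.s0 * R := h5.symm
            _ ≤ N.s0 * |p.2| := by gcongr
            _ ≤ _ := N.proper2 _ _
      have h6 : ‖z‖ ≤ ‖N.α p.1 + N.β p.2 - z‖ := by
        have := norm_sub_norm_le (N.α p.1 + N.β p.2) z
        linarith [norm_nonneg z]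
      calc g (u0, v0) ≤ ‖z‖ ^ 2 := by rw [← h2]; exact h1
        _ ≤ g p := by simp only [hg]; gcongr
  set w : ℂ := N.α u0 + N.β v0 - z with hw
  have hsq : ∀ p, g p = (N.α p.1 + N.β p.2 - z).re ^ 2 + (N.α p.1 + N.β p.2 - z).im ^ 2 := by
    intro p
    simp only [hg]
    rw [← Complex.normSq_eq_norm_sq, Complex.normSq_apply]; ring
  have d1 : w.re * Real.cos (N.θ1 (N.α u0)) + w.im * Real.sin (N.θ1 (N.α u0)) = 0 := by
    have h1 : HasDerivAt (fun u => N.α u + N.β v0 - z) (ei (N.θ1 (N.α u0))) u0 :=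
      ((N.α_deriv u0).add_const _).sub_const _
    have h2 := ((hasDerivAt_re h1).fun_pow 2).add ((hasDerivAt_im h1).fun_pow 2)
    have h3 : IsLocalMin (fun u => (N.α u + N.β v0 - z).re ^ 2 + (N.α u + N.β v0 - z).im ^ 2) u0 :=
      Filter.Eventually.of_forall fun u => by
        have := hglob (u, v0)
        rw [hsq, hsq] at this
        exact this
    have h4 := h3.hasDerivAt_eq_zero h2
    rw [ei_re, ei_im] at h4
    simp only [Nat.cast_ofNat, Nat.reduceSub, pow_one] at h4
    simp only [hw]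
    linarith
  have d2 : w.re * Real.cos (N.θ2 (N.β v0)) + w.im * Real.sin (N.θ2 (N.β v0)) = 0 := by
    have h1 : HasDerivAt (fun v => N.α u0 + N.β v - z) (ei (N.θ2 (N.β v0))) v0 :=
      ((N.β_deriv v0).const_add _).sub_const _
    have h2 := ((hasDerivAt_re h1).fun_pow 2).add ((hasDerivAt_im h1).fun_pow 2)
    have h3 : IsLocalMin (fun v => (N.α u0 + N.β v - z).re ^ 2 + (N.α u0 + N.β v - z).im ^ 2) v0 :=
      Filter.Eventually.of_forall fun v => by
        have := hglob (u0, v)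
        rw [hsq, hsq] at this
        exact this
    have h4 := h3.hasDerivAt_eq_zero h2
    rw [ei_re, ei_im] at h4
    simp only [Nat.cast_ofNat, Nat.reduceSub, pow_one] at h4
    simp only [hw]
    linarith
  have hsin := N.sin_net u0 v0
  rw [Real.sin_sub] at hsin
  set c1' := Real.cos (N.θ1 (N.α u0))
  set s1' := Real.sin (N.θ1 (N.α u0))
  set c2' := Real.cos (N.θ2 (N.β v0))
  set s2' := Real.sin (N.θ2 (N.β v0))
  have hre : w.re * (s1' * c2' - c1' * s2') = 0 := by linear_combination s1' * d2 - s2' * d1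
  have him : w.im * (s1' * c2' - c1' * s2') = 0 := by linear_combination c2' * d1 - c1' * d2
  have hne : s1' * c2' - c1' * s2' ≠ 0 := by
    have := N.hs0
    intro h
    rw [h] at hsin
    linarith
  have hw0 : w = 0 := Complex.ext ((mul_eq_zero.1 hre).resolve_right hne)
    ((mul_eq_zero.1 him).resolve_right hne)
  exact ⟨u0, v0, sub_eq_zero.1 hw0⟩

theorem osc1 (z w : ℂ) : |N.θ1 z - N.θ1 w| < Real.pi := by
  obtain ⟨u, v, rfl⟩ := N.surj z
  obtain ⟨u', v', rfl⟩ := N.surj w
  have a1 := N.hpos (N.α u + N.β v)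
  have a2 := N.hpi (N.α u + N.β v)
  have b1 := N.hpos (N.α u' + N.β v)
  have b2 := N.hpi (N.α u' + N.β v)
  rw [N.θ1_net, N.θ2_net] at a1 a2 b1 b2
  rw [N.θ1_net, N.θ1_net, abs_lt]
  constructor <;> linarith

theorem osc2 (z w : ℂ) : |N.θ2 z - N.θ2 w| < Real.pi := by
  obtain ⟨u, v, rfl⟩ := N.surj z
  obtain ⟨u', v', rfl⟩ := N.surj w
  have a1 := N.hpos (N.α u + N.β v)
  have a2 := N.hpi (N.α u + N.β v)
  have b1 := N.hpos (N.α u + N.β v')
  have b2 := N.hpi (N.α u + N.β v')
  rw [N.θ1_net, N.θ2_net] at a1 a2 b1 b2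
  rw [N.θ2_net, N.θ2_net, abs_lt]
  constructor <;> linarith

end Net

end Pool.Agent.Helper253
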