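import Pool.Agent.Helper253.Angles

set_option autoImplicit false

namespace Pool.Agent.Helper253

open Quaternion Topology Set
open scoped ContDiff
open Net

namespace Imm

variable (S : Imm)

theorem kB1 (z : ℂ) : Real.cos (S.θ1 z) * S.c 1 1 z + Real.sin (S.θ1 z) * S.c Complex.I 1 z = 0 := by
  obtain ⟨h1, h2, h3, h4⟩ := S.c_angles z
  rw [h1, h2]; ring

theorem kB2 (z : ℂ) : Real.cos (S.θ1 z) * S.c 1 Complex.I z +
    Real.sin (S.θ1 z) * S.c Complex.I Complex.I z = 0 := by
  obtain ⟨h1, h2, h3, h4⟩ := S.c_angles z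
  rw [h3, h4]; ring

theorem kA1 (z : ℂ) : Real.cos (S.θ2 z) * S.c 1 1 z + Real.sin (S.θ2 z) * S.c 1 Complex.I z = 0 := by
  obtain ⟨h1, h2, h3, h4⟩ := S.c_angles z
  rw [h1, h3]; ring

theorem kA2 (z : ℂ) : Real.cos (S.θ2 z) * S.c Complex.I 1 z +
    Real.sin (S.θ2 z) * S.c Complex.I Complex.I z = 0 := by
  obtain ⟨h1, h2, h3, h4⟩ := S.c_angles z
  rw [h2, h4]; ring

theorem fderiv_ei {E : Type*} [NormedAddCommGroup E] [NormedSpace ℝ E] (g : ℂ → E) (a : ℝ)
    (z : ℂ) : fderiv ℝ g z (ei a) = Real.cos a • dd 1 g z + Real.sin a • dd Complex.I g z := by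
  have := dd_lin g (ei a) z
  rw [ei_re, ei_im] at this
  exact this

/-- The first angle is constant along the second asymptotic direction. -/
theorem d1 (z : ℂ) : fderiv ℝ S.θ1 z (ei (S.θ2 z)) = 0 := by
  have h := S.frameB.codazzi S.θ1_smooth S.kB1 S.kB2 z
  have e11 : S.frameB.a11 z = S.c 1 1 z := rfl
  have e12 : S.frameB.a12 z = S.c 1 Complex.I z := rfl
  have e21 : S.frameB.a21 z = S.c Complex.I 1 z := rfl
  have e22 : S.frameB.a22 z = S.c Complex.I Complex.I z := rfl
  rw [e11, e12, e21, e22] at h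
  obtain ⟨h1, h2, h3, h4⟩ := S.c_angles z
  rw [h1, h2, h3, h4] at h
  have hs := Real.sin_sq_add_cos_sq (S.θ1 z)
  have hr := (S.r_pos z).ne'
  rw [fderiv_ei, smul_eq_mul, smul_eq_mul]
  have h5 : S.r z * (Real.cos (S.θ2 z) * dd 1 S.θ1 z + Real.sin (S.θ2 z) * dd Complex.I S.θ1 z) = 0 := by
    linear_combination (-1 / 2) * h - (S.r z * (Real.cos (S.θ2 z) * dd 1 S.θ1 z +
      Real.sin (S.θ2 z) * dd Complex.I S.θ1 z)) * hs
  exact (mul_eq_zero.1 h5).resolve_left hr

/-- The second angle is constant along the first asymptotic direction. -/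
theorem d2 (z : ℂ) : fderiv ℝ S.θ2 z (ei (S.θ1 z)) = 0 := by
  have h := S.frameA.codazzi S.θ2_smooth S.kA1 S.kA2 z
  have e11 : S.frameA.a11 z = S.c 1 1 z := rfl
  have e12 : S.frameA.a12 z = S.c Complex.I 1 z := rfl
  have e21 : S.frameA.a21 z = S.c 1 Complex.I z := rfl
  have e22 : S.frameA.a22 z = S.c Complex.I Complex.I z := rfl
  rw [e11, e12, e21, e22] at h
  obtain ⟨h1, h2, h3, h4⟩ := S.c_angles z
  rw [h1, h2, h3, h4] at h
  have hs := Real.sin_sq_add_cos_sq (S.θ2 z)
  have hr := (S.r_pos z).ne'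
  rw [fderiv_ei, smul_eq_mul, smul_eq_mul]
  have h5 : S.r z * (Real.cos (S.θ1 z) * dd 1 S.θ2 z + Real.sin (S.θ1 z) * dd Complex.I S.θ2 z) = 0 := by
    linear_combination (-1 / 2) * h - (S.r z * (Real.cos (S.θ1 z) * dd 1 S.θ2 z +
      Real.sin (S.θ1 z) * dd Complex.I S.θ2 z)) * hs
  exact (mul_eq_zero.1 h5).resolve_left hr

/-- The normal of the left frame is constant along the first direction. -/
theorem dm (z : ℂ) : fderiv ℝ S.m z (ei (S.θ1 z)) = 0 := by
  have h1 : dd 1 S.m z = _ := S.frameA.dm1 z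
  have h2 : dd Complex.I S.m z = _ := S.frameA.dm2 z
  have e11 : S.frameA.a11 z = S.c 1 1 z := rfl
  have e12 : S.frameA.a12 z = S.c Complex.I 1 z := rfl
  have e21 : S.frameA.a21 z = S.c 1 Complex.I z := rfl
  have e22 : S.frameA.a22 z = S.c Complex.I Complex.I z := rfl
  rw [fderiv_ei, h1, h2, e11, e12, e21, e22]
  have k1 := S.kB1 z
  have k2 := S.kB2 z
  have : Real.cos (S.θ1 z) • (-(S.c 1 1 z • S.frameA.P1 z) - S.c 1 Complex.I z • S.frameA.P2 z) +
      Real.sin (S.θ1 z) • (-(S.c Complex.I 1 z • S.frameA.P1 z) -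
        S.c Complex.I Complex.I z • S.frameA.P2 z) =
      -((Real.cos (S.θ1 z) * S.c 1 1 z + Real.sin (S.θ1 z) * S.c Complex.I 1 z) • S.frameA.P1 z) -
      (Real.cos (S.θ1 z) * S.c 1 Complex.I z + Real.sin (S.θ1 z) * S.c Complex.I Complex.I z) •
        S.frameA.P2 z := by module
  rw [this, k1, k2]
  simp

/-- The normal of the right frame is constant along the second direction. -/
theorem dμ (z : ℂ) : fderiv ℝ S.μ z (ei (S.θ2 z)) = 0 := by
  have h1 : dd 1 S.μ z = _ := S.frameB.dm1 z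
  have h2 : dd Complex.I S.μ z = _ := S.frameB.dm2 z
  have e11 : S.frameB.a11 z = S.c 1 1 z := rfl
  have e12 : S.frameB.a12 z = S.c 1 Complex.I z := rfl
  have e21 : S.frameB.a21 z = S.c Complex.I 1 z := rfl
  have e22 : S.frameB.a22 z = S.c Complex.I Complex.I z := rfl
  rw [fderiv_ei, h1, h2, e11, e12, e21, e22]
  have k1 := S.kA1 z
  have k2 := S.kA2 z
  have : Real.cos (S.θ2 z) • (-(S.c 1 1 z • S.frameB.P1 z) - S.c Complex.I 1 z • S.frameB.P2 z) +
      Real.sin (S.θ2 z) • (-(S.c 1 Complex.I z • S.frameB.P1 z) -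
        S.c Complex.I Complex.I z • S.frameB.P2 z) =
      -((Real.cos (S.θ2 z) * S.c 1 1 z + Real.sin (S.θ2 z) * S.c 1 Complex.I z) • S.frameB.P1 z) -
      (Real.cos (S.θ2 z) * S.c Complex.I 1 z + Real.sin (S.θ2 z) * S.c Complex.I Complex.I z) •
        S.frameB.P2 z := by module
  rw [this, k1, k2]
  simp

/-- The first asymptotic derivative times the conjugate. -/
noncomputable def T1 (z : ℂ) : ℍ[ℝ] := S.frameB.T S.θ1 z

theorem T1_eq (z : ℂ) : fderiv ℝ S.f z (ei (S.θ1 z)) = S.T1 z * S.f z := by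
  have h : S.T1 z = fderiv ℝ S.f z (ei (S.θ1 z)) * star (S.f z) := by
    rw [fderiv_ei, add_mul, smul_mul_assoc, smul_mul_assoc]; rfl
  rw [h, mul_assoc, S.sf, mul_one]

theorem T1_smooth : ContDiff ℝ ∞ S.T1 := S.frameB.T_smooth S.θ1_smooth

theorem dT1 (v z : ℂ) (h : fderiv ℝ S.θ1 z v = 0) : fderiv ℝ S.T1 z v = 0 := by
  have h1 : dd v S.T1 z = dd v S.θ1 z • S.frameB.T' S.θ1 z :=
    S.frameB.dd_T S.θ1_smooth S.kB1 S.kB2 v z
  have h2 : dd v S.θ1 z = 0 := h
  rw [h2, zero_smul] at h1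
  exact h1

/-- The conjugate times the second asymptotic derivative. -/
noncomputable def T2 (z : ℂ) : ℍ[ℝ] := S.frameA.T S.θ2 z

theorem T2_eq (z : ℂ) : fderiv ℝ S.f z (ei (S.θ2 z)) = S.f z * S.T2 z := by
  have h : S.T2 z = star (S.f z) * fderiv ℝ S.f z (ei (S.θ2 z)) := by
    rw [fderiv_ei, mul_add, mul_smul_comm, mul_smul_comm]; rfl
  rw [h, ← mul_assoc, S.fs, one_mul]

theorem T2_smooth : ContDiff ℝ ∞ S.T2 := S.frameA.T_smooth S.θ2_smooth

theorem dT2 (v z : ℂ) (h : fderiv ℝ S.θ2 z v = 0) : fderiv ℝ S.T2 z v = 0 := by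
  have h1 : dd v S.T2 z = dd v S.θ2 z • S.frameA.T' S.θ2 z :=
    S.frameA.dd_T S.θ2_smooth S.kA1 S.kA2 v z
  have h2 : dd v S.θ2 z = 0 := h
  rw [h2, zero_smul] at h1
  exact h1

section periodic

variable {l1 l2 : ℂ} (hl : cr l1 l2 ≠ 0) (p1 : Function.Periodic S.f l1)
  (p2 : Function.Periodic S.f l2)

theorem dd_periodic {E : Type*} [NormedAddCommGroup E] [NormedSpace ℝ E] {g : ℂ → E} {l : ℂ}
    (hg : Function.Periodic g l) (v : ℂ) : Function.Periodic (dd v g) l := by
  intro z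
  have h := fderiv_comp_add_right (𝕜 := ℝ) (f := g) (x := z) l
  have h3 : (fun x => g (x + l)) = g := funext hg
  rw [h3] at h
  unfold dd
  rw [h]

theorem A_periodic {l : ℂ} (p : Function.Periodic S.f l) (w : ℂ) :
    Function.Periodic (S.A w) l := by
  intro z
  unfold A
  rw [p z, dd_periodic p w z]

theorem c_periodic {l : ℂ} (p : Function.Periodic S.f l) (v w : ℂ) :
    Function.Periodic (S.c v w) l := by
  intro z
  unfold c m
  rw [dd_periodic (S.A_periodic p w) v z, S.A_periodic p 1 z, S.A_periodic p Complex.I z]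

theorem H_periodic {l : ℂ} (p : Function.Periodic S.f l) : Function.Periodic S.H l := by
  intro z
  unfold H
  rw [S.c_periodic p, S.c_periodic p]

theorem r_periodic {l : ℂ} (p : Function.Periodic S.f l) : Function.Periodic S.r l := by
  intro z
  unfold r
  rw [S.H_periodic p]

theorem trig_periodic {l : ℂ} (p : Function.Periodic S.f l) (z : ℂ) :
    Real.cos (S.σ (z + l)) = Real.cos (S.σ z) ∧ Real.sin (S.σ (z + l)) = Real.sin (S.σ z) ∧
    S.om (z + l) = S.om z := by
  refine ⟨?_, ?_, ?_⟩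
  · rw [S.cos_σ, S.cos_σ, ex, ex, S.c_periodic p, S.c_periodic p, S.r_periodic p]
  · rw [S.sin_σ, S.sin_σ, ey, ey, S.c_periodic p, S.c_periodic p, S.r_periodic p]
  · rw [om, om, S.H_periodic p]

theorem two_θ1 (z : ℂ) : 2 * S.θ1 z = S.σ z + S.om z := by unfold θ1; ring
theorem two_θ2 (z : ℂ) : 2 * S.θ2 z = S.σ z - S.om z := by unfold θ2; ring

theorem cos1_periodic {l : ℂ} (p : Function.Periodic S.f l) :
    Function.Periodic (fun z => Real.cos (2 * S.θ1 z)) l := by
  intro z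
  obtain ⟨a, b, c⟩ := S.trig_periodic p z
  simp only
  rw [S.two_θ1, S.two_θ1, Real.cos_add, Real.cos_add, a, b, c]

theorem sin1_periodic {l : ℂ} (p : Function.Periodic S.f l) :
    Function.Periodic (fun z => Real.sin (2 * S.θ1 z)) l := by
  intro z
  obtain ⟨a, b, c⟩ := S.trig_periodic p z
  simp only
  rw [S.two_θ1, S.two_θ1, Real.sin_add, Real.sin_add, a, b, c]

theorem cos2_periodic {l : ℂ} (p : Function.Periodic S.f l) :
    Function.Periodic (fun z => Real.cos (2 * S.θ2 z)) l := by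
  intro z
  obtain ⟨a, b, c⟩ := S.trig_periodic p z
  simp only
  rw [S.two_θ2, S.two_θ2, Real.cos_sub, Real.cos_sub, a, b, c]

theorem sin2_periodic {l : ℂ} (p : Function.Periodic S.f l) :
    Function.Periodic (fun z => Real.sin (2 * S.θ2 z)) l := by
  intro z
  obtain ⟨a, b, c⟩ := S.trig_periodic p z
  simp only
  rw [S.two_θ2, S.two_θ2, Real.sin_sub, Real.sin_sub, a, b, c]

include hl p1 p2 in
/-- The asymptotic net of a doubly periodic flat immersion. -/
theorem exists_net : ∃ N : Net, N.θ1 = S.θ1 ∧ N.θ2 = S.θ2 := by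
  obtain ⟨K1, hK1⟩ := bounded_angle S.θ1_smooth hl (S.cos1_periodic p1) (S.cos1_periodic p2)
    (S.sin1_periodic p1) (S.sin1_periodic p2)
  obtain ⟨K2, hK2⟩ := bounded_angle S.θ2_smooth hl (S.cos2_periodic p1) (S.cos2_periodic p2)
    (S.sin2_periodic p1) (S.sin2_periodic p2)
  obtain ⟨C, hC⟩ := bounded_of_periodic S.r_smooth.continuous hl (S.r_periodic p1)
    (S.r_periodic p2)
  have hC' : ∀ z, S.r z ≤ C := fun z => by
    have := hC z
    rw [Real.norm_eq_abs, abs_of_pos (S.r_pos z)] at this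
    exact this
  have hC0 : 0 < C := (S.r_pos 0).trans_le (hC' 0)
  refine ⟨{ θ1 := S.θ1
            θ2 := S.θ2
            smooth1 := S.θ1_smooth
            smooth2 := S.θ2_smooth
            K := max K1 K2
            hK1 := fun z => (hK1 z).trans (le_max_left _ _)
            hK2 := fun z => (hK2 z).trans (le_max_right _ _)
            hd1 := S.d1
            hd2 := S.d2
            s0 := 1 / C
            hs0 := by positivity
            hs := fun z => by
              rw [S.sub_θ, S.sin_om]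
              exact one_div_le_one_div_of_le (S.r_pos z) (hC' z)
            hpos := fun z => by rw [S.sub_θ]; exact S.om_pos z
            hpi := fun z => by rw [S.sub_θ]; exact S.om_lt z }, rfl, rfl⟩

/-- An angle with small oscillation and periodic double is periodic. -/
theorem periodic_of_osc {θ : ℂ → ℝ} {l : ℂ} (hosc : ∀ z w, |θ z - θ w| < Real.pi)
    (hc : Function.Periodic (fun z => Real.cos (2 * θ z)) l)
    (hs : Function.Periodic (fun z => Real.sin (2 * θ z)) l) : Function.Periodic θ l := by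
  intro z
  have h1 := hosc (z + l) z
  rw [abs_lt] at h1
  have h2 : Real.cos (2 * θ (z + l) - 2 * θ z) = 1 := by
    have e1 := hc z
    have e2 := hs z
    simp only at e1 e2
    rw [Real.cos_sub, e1, e2]
    have := Real.sin_sq_add_cos_sq (2 * θ z)
    nlinarith
  have h3 := (Real.cos_eq_one_iff_of_lt_of_lt (by linarith) (by linarith)).1 h2
  linarith

end periodic

end Imm

end Pool.Agent.Helper253
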