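import Mathlib

set_option autoImplicit false

namespace Pool.Agent.Helper253.Ode

open Topology Set
open scoped ContDiff NNReal

/-- Global existence for a bounded Lipschitz planar vector field. -/
theorem exists_global {v : ℂ → ℂ} {K : ℝ≥0} (hv : LipschitzWith K v) (hb : ∀ z, ‖v z‖ ≤ 1) :
    ∃ α : ℝ → ℂ, α 0 = 0 ∧ ∀ t, HasDerivAt α (v (α t)) t := by
  have hloc : ∀ a : ℝ, 0 < a → ∃ γ : ℝ → ℂ, γ 0 = 0 ∧
      ∀ t ∈ Ioo (-a) a, HasDerivAt γ (v (γ t)) t := by
    intro a ha
    have hP : IsPicardLindelof (fun _ => v) (tmin := -a) (tmax := a)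
        ⟨0, by constructor <;> linarith⟩ (0 : ℂ) (⟨a, ha.le⟩ : ℝ≥0) 0 1 K := by
      apply IsPicardLindelof.of_time_independent
      · intro x _; exact hb x
      · exact hv.lipschitzOnWith
      · simp only [NNReal.coe_one, one_mul, sub_zero, zero_sub, neg_neg, max_self,
          NNReal.coe_zero]
        exact le_refl a
    obtain ⟨γ, h0, hγ⟩ := hP.exists_eq_forall_mem_Icc_hasDerivWithinAt₀
    exact ⟨γ, h0, fun t ht => (hγ t ⟨ht.1.le, ht.2.le⟩).hasDerivAt (Icc_mem_nhds ht.1 ht.2)⟩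
  choose! γ h0 hγ using hloc
  have huniq : ∀ a b : ℝ, 0 < a → a ≤ b → EqOn (γ a) (γ b) (Ioo (-a) a) := by
    intro a b ha hab
    apply ODE_solution_unique_of_mem_Ioo (v := fun _ => v) (s := fun _ => univ) (K := K) (t₀ := 0)
      (fun t _ => hv.lipschitzOnWith) ⟨by linarith, ha⟩
    · intro t ht
      exact ⟨hγ a ha t ht, mem_univ _⟩
    · intro t ht
      exact ⟨hγ b (by linarith) t ⟨by linarith [ht.1], by linarith [ht.2]⟩, mem_univ _⟩
    · rw [h0 a ha, h0 b (by linarith)]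
  refine ⟨fun t => γ (|t| + 1) t, ?_, ?_⟩
  · simp only [abs_zero, zero_add]
    exact h0 1 one_pos
  · intro t
    have ht : t ∈ Ioo (-(|t| + 1)) (|t| + 1) := by
      rw [mem_Ioo, ← abs_lt]; linarith
    have h1 := hγ (|t| + 1) (by positivity) t ht
    refine h1.congr_of_eventuallyEq ?_
    filter_upwards [Ioo_mem_nhds ht.1 ht.2] with s hs
    rcases le_total (|s| + 1) (|t| + 1) with h | h
    · exact huniq (|s| + 1) (|t| + 1) (by positivity) h
        (by rw [mem_Ioo, ← abs_lt]; linarith)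
    · exact (huniq (|t| + 1) (|s| + 1) (by positivity) h hs).symm

theorem unique {v : ℂ → ℂ} {K : ℝ≥0} (hv : LipschitzWith K v) {α β : ℝ → ℂ}
    (hα : ∀ t, HasDerivAt α (v (α t)) t) (hβ : ∀ t, HasDerivAt β (v (β t)) t)
    (h0 : α 0 = β 0) : α = β :=
  ODE_solution_unique_univ (v := fun _ => v) (s := fun _ => univ) (K := K) (t₀ := 0)
    (fun _ => hv.lipschitzOnWith) (fun t => ⟨hα t, mem_univ _⟩) (fun t => ⟨hβ t, mem_univ _⟩) h0

theorem smooth {v : ℂ → ℂ} (hv : ContDiff ℝ ∞ v) {α : ℝ → ℂ}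
    (hα : ∀ t, HasDerivAt α (v (α t)) t) : ContDiff ℝ ∞ α := by
  rw [contDiff_infty]
  intro n
  induction n with
  | zero =>
    exact contDiff_zero.2 (continuous_iff_continuousAt.2 fun t => (hα t).continuousAt)
  | succ n ih =>
    rw [Nat.cast_succ, contDiff_succ_iff_deriv]
    refine ⟨fun t => (hα t).differentiableAt, by simp, ?_⟩
    have h : deriv α = fun t => v (α t) := funext fun t => (hα t).deriv
    rw [h]
    exact (hv.of_le (by exact_mod_cast le_top)).comp ih

end Pool.Agent.Helper253.Ode
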