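import Pool.Agent.Helper253.Asym

set_option autoImplicit false

namespace Pool.Agent.Helper253

open Topology Set
open Net

theorem nsq (w : ℂ) : ‖w‖ ^ 2 = w.re ^ 2 + w.im ^ 2 := by
  rw [← Complex.normSq_eq_norm_sq, Complex.normSq_apply]; ring

theorem mem_lat {l1 l2 p : ℂ} : p ∈ AddSubgroup.closure {l1, l2} ↔
    ∃ m n : ℤ, m • l1 + n • l2 = p := AddSubgroup.mem_closure_pair

/-- Only finitely many lattice points lie in a disc. -/
theorem finite_disc {l1 l2 : ℂ} (hl : cr l1 l2 ≠ 0) (z : ℂ) (R : ℝ) :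
    {p : ℂ | p ∈ AddSubgroup.closure {l1, l2} ∧ ‖z - p‖ ≤ R}.Finite := by
  have hc : 0 < |cr l1 l2| := abs_pos.2 hl
  obtain ⟨M, hM⟩ := exists_nat_gt ((‖z‖ + R) * ‖l2‖ / |cr l1 l2|)
  obtain ⟨M', hM'⟩ := exists_nat_gt (‖l1‖ * (‖z‖ + R) / |cr l1 l2|)
  have hfin : ((Icc (-(M : ℤ)) M) ×ˢ (Icc (-(M' : ℤ)) M')).Finite :=
    (finite_Icc _ _).prod (finite_Icc _ _)
  refine (hfin.image (fun q : ℤ × ℤ => q.1 • l1 + q.2 • l2)).subset ?_
  rintro p ⟨hp, hpR⟩
  obtain ⟨m, n, rfl⟩ := mem_lat.1 hp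
  have hpn : ‖m • l1 + n • l2‖ ≤ ‖z‖ + R := by
    have := norm_sub_norm_le (m • l1 + n • l2) z
    rw [norm_sub_rev] at this
    linarith
  have e1 : cr (m • l1 + n • l2) l2 = m * cr l1 l2 := by
    rw [← Int.cast_smul_eq_zsmul ℝ, ← Int.cast_smul_eq_zsmul ℝ, cr_add_left, cr_smul_left,
      cr_smul_left, cr_self]
    ring
  have e2 : cr l1 (m • l1 + n • l2) = n * cr l1 l2 := by
    rw [← Int.cast_smul_eq_zsmul ℝ, ← Int.cast_smul_eq_zsmul ℝ, cr_add, cr_smul_right,
      cr_smul_right, cr_self]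
    ring
  have b1 : |(m : ℝ)| < M := by
    refine lt_of_le_of_lt ?_ hM
    rw [le_div_iff₀ hc, ← abs_mul, ← e1]
    exact (cr_le _ _).trans (mul_le_mul_of_nonneg_right hpn (norm_nonneg _))
  have b2 : |(n : ℝ)| < M' := by
    refine lt_of_le_of_lt ?_ hM'
    rw [le_div_iff₀ hc, ← abs_mul, ← e2]
    exact (cr_le _ _).trans (mul_le_mul_of_nonneg_left hpn (norm_nonneg _))
  have b1' : |m| ≤ (M : ℤ) := by
    have : ((|m| : ℤ) : ℝ) < ((M : ℤ) : ℝ) := by rw [Int.cast_abs]; exact_mod_cast b1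
    exact (Int.cast_lt.1 this).le
  have b2' : |n| ≤ (M' : ℤ) := by
    have : ((|n| : ℤ) : ℝ) < ((M' : ℤ) : ℝ) := by rw [Int.cast_abs]; exact_mod_cast b2
    exact (Int.cast_lt.1 this).le
  exact ⟨(m, n), ⟨abs_le.1 b1', abs_le.1 b2'⟩, rfl⟩

theorem exists_gap {V : Set ℝ} (hV : V.Finite) {c : ℝ} (h : ∀ v ∈ V, c < v) :
    ∃ δ > 0, ∀ v ∈ V, c + δ ≤ v := by
  rcases V.eq_empty_or_nonempty with he | hne
  · exact ⟨1, one_pos, fun v hv => by rw [he] at hv; exact absurd hv (notMem_empty v)⟩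
  · obtain ⟨v0, hv0, hmin⟩ := hV.exists_minimalFor id V hne
    refine ⟨v0 - c, by linarith [h v0 hv0], fun v hv => ?_⟩
    rcases le_total v0 v with h1 | h1
    · linarith
    · have := hmin hv h1
      simp only [id] at this
      linarith

/-- Two parallel vectors of the same length are equal up to sign. -/
theorem parallel_eq {a b : ℂ} {r : ℝ} (ha : ‖a‖ = r) (hb : ‖b‖ = r)
    (h : cr a b = 0) : b = a ∨ b = -a := by
  have ha2 := nsq a
  have hb2 := nsq b
  rw [ha] at ha2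
  rw [hb] at hb2
  rw [cr] at h
  set d := a.re * b.re + a.im * b.im with hd
  have h1 : d ^ 2 = (r ^ 2) ^ 2 := by
    have : d ^ 2 + (a.re * b.im - a.im * b.re) ^ 2 = (a.re ^ 2 + a.im ^ 2) * (b.re ^ 2 + b.im ^ 2) := by
      rw [hd]; ring
    rw [h, ← ha2, ← hb2] at this
    linarith
  have h2 : (d - r ^ 2) * (d + r ^ 2) = 0 := by linear_combination h1
  rcases mul_eq_zero.1 h2 with h3 | h3
  · left
    have h4 : (b.re - a.re) ^ 2 + (b.im - a.im) ^ 2 = 0 := by
      have : (b.re - a.re) ^ 2 + (b.im - a.im) ^ 2 =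
        (b.re ^ 2 + b.im ^ 2) + (a.re ^ 2 + a.im ^ 2) - 2 * d := by rw [hd]; ring
      rw [this]; linarith
    apply Complex.ext
    · nlinarith [sq_nonneg (b.re - a.re), sq_nonneg (b.im - a.im)]
    · nlinarith [sq_nonneg (b.re - a.re), sq_nonneg (b.im - a.im)]
  · right
    have h4 : (b.re + a.re) ^ 2 + (b.im + a.im) ^ 2 = 0 := by
      have : (b.re + a.re) ^ 2 + (b.im + a.im) ^ 2 =
        (b.re ^ 2 + b.im ^ 2) + (a.re ^ 2 + a.im ^ 2) + 2 * d := by rw [hd]; ring
      rw [this]; linarith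
    apply Complex.ext
    · rw [Complex.neg_re]; nlinarith [sq_nonneg (b.re + a.re), sq_nonneg (b.im + a.im)]
    · rw [Complex.neg_im]; nlinarith [sq_nonneg (b.re + a.re), sq_nonneg (b.im + a.im)]

/-- The extremal configuration forces a rectangular lattice with diagonal `2π`. -/
theorem rect_of_extremal {l1 l2 z : ℂ} (hl : cr l1 l2 ≠ 0) {r : ℝ} (hr : 0 < r)
    (hge : ∀ p ∈ AddSubgroup.closure {l1, l2}, r ≤ ‖z - p‖)
    (hdiam : ∀ w : ℂ, ∃ p ∈ AddSubgroup.closure {l1, l2}, ‖w - p‖ ≤ r)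
    (hdir : ∀ p1 ∈ AddSubgroup.closure {l1, l2}, ∀ p2 ∈ AddSubgroup.closure {l1, l2},
      ∀ p3 ∈ AddSubgroup.closure {l1, l2}, ‖p1 - z‖ = r → ‖p2 - z‖ = r → ‖p3 - z‖ = r →
      cr (p1 - z) (p2 - z) = 0 ∨ cr (p1 - z) (p3 - z) = 0 ∨ cr (p2 - z) (p3 - z) = 0) :
    ∃ a b : ℂ, AddSubgroup.closure {a, b} = AddSubgroup.closure {l1, l2} ∧
      a.re * b.re + a.im * b.im = 0 ∧ ‖a‖ ^ 2 + ‖b‖ ^ 2 = (2 * r) ^ 2 := by
  set Λ := AddSubgroup.closure {l1, l2} with hΛ
  -- a gap above the minimal distance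
  obtain ⟨δ, hδ0, hδ⟩ : ∃ δ > 0, ∀ p ∈ Λ, ‖z - p‖ < r + δ → ‖z - p‖ = r := by
    obtain ⟨δ, hδ0, hδ⟩ := exists_gap
      (V := (fun p => ‖z - p‖) '' {p : ℂ | p ∈ Λ ∧ ‖z - p‖ ≤ r + 1} ∩ {x | r < x})
      (((finite_disc hl z (r + 1)).image _).inter_of_left _) (c := r) (fun v hv => hv.2)
    refine ⟨min δ 1, lt_min hδ0 one_pos, fun p hp hlt => ?_⟩
    by_contra hne
    have h1 : r < ‖z - p‖ := lt_of_le_of_ne (hge p hp) (Ne.symm hne)
    have h2 := min_le_left δ 1
    have h3 := min_le_right δ 1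
    have := hδ ‖z - p‖ ⟨⟨p, ⟨hp, by linarith⟩, rfl⟩, h1⟩
    linarith
  -- in every direction there is a nearest point
  have hstep : ∀ d : ℂ, ‖d‖ = 1 → ∃ p ∈ Λ, ‖p - z‖ = r ∧
      0 < (p - z).re * d.re + (p - z).im * d.im := by
    intro d hd
    obtain ⟨p, hp, hpr⟩ := hdiam (z + (δ / 2) • d)
    have h1 : ‖z - p‖ ≤ r + δ / 2 := by
      have h2 : z - p = (z + (δ / 2) • d - p) - (δ / 2) • d := by ring
      rw [h2]
      refine (norm_sub_le _ _).trans ?_
      rw [norm_smul, hd, mul_one, Real.norm_eq_abs, abs_of_pos (by positivity)]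
      linarith
    have h3 := hδ p hp (by linarith)
    refine ⟨p, hp, by rw [norm_sub_rev]; exact h3, ?_⟩
    have h4 : ‖z + (δ / 2) • d - p‖ ^ 2 ≤ r ^ 2 := by
      apply pow_le_pow_left₀ (norm_nonneg _) hpr
    have h5 := nsq (z - p)
    have h6 := nsq d
    rw [h3] at h5
    rw [hd] at h6
    rw [nsq] at h4
    simp only [Complex.sub_re, Complex.sub_im, Complex.add_re, Complex.add_im, Complex.real_smul,
      Complex.re_ofReal_mul, Complex.im_ofReal_mul] at h4 h5 ⊢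
    set D := (p.re - z.re) * d.re + (p.im - z.im) * d.im with hD
    have h7 : (z.re + δ / 2 * d.re - p.re) ^ 2 + (z.im + δ / 2 * d.im - p.im) ^ 2 =
        r ^ 2 - δ * D + (δ / 2) ^ 2 := by
      rw [hD]; linear_combination (-1) * h5 - (δ / 2) ^ 2 * h6
    have h8 : 0 < δ * D := by
      have : 0 < (δ / 2) ^ 2 := by positivity
      linarith
    exact (pos_iff_pos_of_mul_pos h8).1 hδ0
  -- normalised rotated directions
  have hrot : ∀ e : ℂ, ‖e‖ = r → ∃ p ∈ Λ, ‖p - z‖ = r ∧ 0 < cr e (p - z) := by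
    intro e he
    have hn : ‖(r⁻¹ : ℝ) • (Complex.I * e)‖ = 1 := by
      rw [norm_smul, norm_mul, Complex.norm_I, one_mul, he, Real.norm_eq_abs,
        abs_of_pos (inv_pos.2 hr), inv_mul_cancel₀ hr.ne']
    obtain ⟨p, hp, hpr, hdot⟩ := hstep _ hn
    refine ⟨p, hp, hpr, ?_⟩
    have : (p - z).re * ((r⁻¹ : ℝ) • (Complex.I * e)).re +
        (p - z).im * ((r⁻¹ : ℝ) • (Complex.I * e)).im = r⁻¹ * cr e (p - z) := by
      simp only [Complex.smul_re, Complex.smul_im, smul_eq_mul, Complex.mul_re,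
        Complex.mul_im, Complex.I_re, Complex.I_im, cr]
      ring
    rw [this] at hdot
    exact (pos_iff_pos_of_mul_pos hdot).1 (inv_pos.2 hr)
  have crneg : ∀ a b : ℂ, cr (-a) b = -cr a b := by
    intro a b; simp only [cr, Complex.neg_re, Complex.neg_im]; ring
  have crneg' : ∀ a b : ℂ, cr a (-b) = -cr a b := by
    intro a b; simp only [cr, Complex.neg_re, Complex.neg_im]; ring
  have crswap : ∀ a b : ℂ, cr a b = -cr b a := by
    intro a b; simp only [cr]; ring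
  -- for every nearest direction the transversal line occurs in both directions
  have hpair : ∀ e : ℂ, ‖e‖ = r → z + e ∈ Λ → ∃ e' : ℂ, ‖e'‖ = r ∧ 0 < cr e e' ∧
      z + e' ∈ Λ ∧ z - e' ∈ Λ := by
    intro e he hez
    obtain ⟨p, hp, hpr, hcp⟩ := hrot e he
    obtain ⟨q, hq, hqr, hcq⟩ := hrot (-e) (by rw [norm_neg]; exact he)
    rw [crneg] at hcq
    have h0 : z + e - z = e := by ring
    have h1 := hdir (z + e) hez p hp q hq (by rw [h0]; exact he) hpr hqr
    rw [h0] at h1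
    have h2 : cr (p - z) (q - z) = 0 := by
      rcases h1 with h | h | h
      · linarith
      · linarith
      · exact h
    rcases parallel_eq hpr hqr h2 with h3 | h3
    · rw [h3] at hcq; linarith
    · refine ⟨p - z, hpr, hcp, ?_, ?_⟩
      · rw [add_sub_cancel]; exact hp
      · rw [sub_eq_add_neg, ← h3, add_sub_cancel]; exact hq
  obtain ⟨p0, hp0, hp0r, -⟩ := hstep 1 (by simp)
  obtain ⟨e2, he2, hc02, h2p, h2m⟩ := hpair (p0 - z) hp0r (by rw [add_sub_cancel]; exact hp0)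
  obtain ⟨e0, he0, hc20, h0p, h0m⟩ := hpair e2 he2 h2p
  -- the two pairs
  set a : ℂ := e2 - e0 with ha
  set b : ℂ := e2 + e0 with hb
  have hamem : a ∈ Λ := by
    have : a = (z + e2) - (z + e0) := by rw [ha]; ring
    rw [this]; exact Λ.sub_mem h2p h0p
  have hbmem : b ∈ Λ := by
    have : b = (z + e2) - (z - e0) := by rw [hb]; ring
    rw [this]; exact Λ.sub_mem h2p h0m
  have n0 := nsq e0
  have n2 := nsq e2
  rw [he0] at n0
  rw [he2] at n2
  have horth : a.re * b.re + a.im * b.im = 0 := by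
    rw [ha, hb]
    simp only [Complex.sub_re, Complex.sub_im, Complex.add_re, Complex.add_im]
    nlinarith
  have hsum : ‖a‖ ^ 2 + ‖b‖ ^ 2 = (2 * r) ^ 2 := by
    rw [nsq, nsq, ha, hb]
    simp only [Complex.sub_re, Complex.sub_im, Complex.add_re, Complex.add_im]
    nlinarith
  have hab : cr a b ≠ 0 := by
    have : cr a b = 2 * cr e2 e0 := by
      rw [ha, hb]; simp only [cr, Complex.sub_re, Complex.sub_im, Complex.add_re, Complex.add_im]
      ring
    rw [this]; linarith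
  have ha0 : 0 < ‖a‖ ^ 2 := by
    have : a ≠ 0 := by
      intro h; rw [h] at hab; apply hab; simp [cr]
    have := norm_pos_iff.2 this
    positivity
  have hb0 : 0 < ‖b‖ ^ 2 := by
    have : b ≠ 0 := by
      intro h; rw [h] at hab; apply hab; simp [cr]
    have := norm_pos_iff.2 this
    positivity
  refine ⟨a, b, ?_, horth, hsum⟩
  apply le_antisymm
  · rw [AddSubgroup.closure_le]
    rintro x (rfl | rfl)
    · exact hamem
    · exact hbmem
  · intro μ hμ
    rw [mem_lat]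
    set s := cr μ b / cr a b with hs
    set t := cr a μ / cr a b with ht
    have hμc : μ = s • a + t • b := basis_coords hab μ
    refine ⟨⌊s⌋, ⌊t⌋, ?_⟩
    have hq : Int.fract s • a + Int.fract t • b = μ - (⌊s⌋ • a + ⌊t⌋ • b) := by
      rw [hμc]
      conv_rhs => rw [← Int.fract_add_floor s, ← Int.fract_add_floor t, add_smul, add_smul,
        Int.cast_smul_eq_zsmul, Int.cast_smul_eq_zsmul]
      simp only [Int.fract_add_floor]
      abel
    have hqm : z - e2 + (Int.fract s • a + Int.fract t • b) ∈ Λ := by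
      rw [hq]
      exact Λ.add_mem h2m (Λ.sub_mem hμ (Λ.add_mem (Λ.zsmul_mem hamem _) (Λ.zsmul_mem hbmem _)))
    have hd := hge _ hqm
    have f1 := Int.fract_nonneg s
    have f2 := (Int.fract_lt_one s)
    have g1 := Int.fract_nonneg t
    have g2 := (Int.fract_lt_one t)
    set x := Int.fract s
    set y := Int.fract t
    have hexp : ‖z - (z - e2 + (x • a + y • b))‖ ^ 2 =
        (x - 1 / 2) ^ 2 * ‖a‖ ^ 2 + (y - 1 / 2) ^ 2 * ‖b‖ ^ 2 := by
      have h1 : z - (z - e2 + (x • a + y • b)) = -((x - 1 / 2) • a + (y - 1 / 2) • b) := by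
        have : e2 = (1 / 2 : ℝ) • a + (1 / 2 : ℝ) • b := by
          rw [ha, hb]; module
        rw [this]; module
      rw [h1, norm_neg, nsq, nsq, nsq]
      simp only [Complex.add_re, Complex.add_im, Complex.real_smul, Complex.re_ofReal_mul,
        Complex.im_ofReal_mul]
      linear_combination (2 * (x - 1 / 2) * (y - 1 / 2)) * horth
    have hd2 : r ^ 2 ≤ ‖z - (z - e2 + (x • a + y • b))‖ ^ 2 := pow_le_pow_left₀ hr.le hd 2
    rw [hexp] at hd2
    have k1 : 0 ≤ x * (1 - x) := mul_nonneg f1 (by linarith)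
    have k2 : 0 ≤ y * (1 - y) := mul_nonneg g1 (by linarith)
    have k3 : x * (1 - x) * ‖a‖ ^ 2 + y * (1 - y) * ‖b‖ ^ 2 ≤ 0 := by nlinarith
    have k4 : x * (1 - x) * ‖a‖ ^ 2 = 0 := by
      have := mul_nonneg k1 ha0.le
      have := mul_nonneg k2 hb0.le
      linarith
    have k5 : y * (1 - y) * ‖b‖ ^ 2 = 0 := by
      have := mul_nonneg k1 ha0.le
      have := mul_nonneg k2 hb0.le
      linarith
    have x0 : x = 0 := by
      have h1 := (mul_eq_zero.1 k4).resolve_right ha0.ne'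
      rcases mul_eq_zero.1 h1 with h | h
      · exact h
      · linarith
    have y0 : y = 0 := by
      have h1 := (mul_eq_zero.1 k5).resolve_right hb0.ne'
      rcases mul_eq_zero.1 h1 with h | h
      · exact h
      · linarith
    rw [x0, y0, zero_smul, zero_smul, add_zero] at hq
    exact (sub_eq_zero.1 hq.symm).symm

end Pool.Agent.Helper253
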