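import Pool.Agent.Helper253.MainCurve

set_option autoImplicit false

namespace Pool.Agent.Helper253

open Quaternion Topology Set MeasureTheory
open scoped ContDiff
open Degree

/-- The quaternion unit `k`. -/
def qk : ℍ[ℝ] := ⟨0, 0, 0, 1⟩

theorem qk_re : qk.re = 0 := rfl
theorem qk_imI : qk.imI = 0 := rfl
theorem qk_imJ : qk.imJ = 0 := rfl
theorem qk_imK : qk.imK = 1 := rfl

theorem star_qk : star qk = -qk := by
  ext <;> simp [qk_re, qk_imI, qk_imJ, qk_imK]

theorem norm_qk : ‖qk‖ = 1 := by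
  have h : ‖qk‖ * ‖qk‖ = 1 := by
    rw [← Quaternion.normSq_eq_norm_mul_self, Quaternion.normSq_def']; simp [qk]
  nlinarith [norm_nonneg qk]

theorem sigma_qk : sigma qk = EuclideanSpace.single 2 (1 : ℝ) := by
  ext i
  fin_cases i
  · simp [sigma, qk]
  · simp [sigma, qk]
  · simp [sigma, qk]

/-- The ratio of the third coordinate to the norm is at most one, with equality only on the
positive vertical axis. -/
theorem ratio_le_one (y : E3) : y 2 / ‖y‖ ≤ 1 := by
  rcases eq_or_ne y 0 with h | h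
  · rw [h]; simp
  · rw [div_le_one (norm_pos_iff.2 h)]
    exact (le_abs_self _).trans (Data.coord_le_norm y 2)

theorem ratio_lt_one {y : E3} (h : ¬ (y 0 = 0 ∧ y 1 = 0 ∧ 0 < y 2)) : y 2 / ‖y‖ < 1 := by
  rcases eq_or_ne y 0 with h0 | h0
  · rw [h0]; simp
  · rw [div_lt_one (norm_pos_iff.2 h0)]
    by_contra hcon
    push Not at hcon
    have h1 := Data.norm_sq_eq y
    have h2 : 0 < ‖y‖ := norm_pos_iff.2 h0
    have h3 : 0 < y 2 := lt_of_lt_of_le h2 hcon
    have h4 : ‖y‖ ^ 2 ≤ y 2 ^ 2 := by nlinarith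
    apply h
    refine ⟨?_, ?_, h3⟩
    · nlinarith [sq_nonneg (y 0), sq_nonneg (y 1)]
    · nlinarith [sq_nonneg (y 0), sq_nonneg (y 1)]

theorem ratio_eq_one {y : E3} (h0 : y 0 = 0) (h1 : y 1 = 0) (h2 : 0 < y 2) : y 2 / ‖y‖ = 1 := by
  have h3 := Data.norm_sq_eq y
  rw [h0, h1] at h3
  have h4 : ‖y‖ = y 2 := by
    have : ‖y‖ ^ 2 = y 2 ^ 2 := by rw [h3]; ring
    exact (sq_eq_sq₀ (norm_nonneg _) h2.le).1 this
  rw [h4, div_self h2.ne']

namespace SpinCurve

variable (C : SpinCurve) (h1 : ∀ s t, C.B s t ≠ -1) (hk : ∀ s t, C.B s t ≠ qk)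

/-- The determinant in the integrand. -/
noncomputable def jac (h1 : ∀ s t, C.B s t ≠ -1) (p : ℝ × ℝ) : ℝ :=
  det3 (C.X p - sigma qk) ((C.data h1 0).X1 p) ((C.data h1 0).X2 p)

theorem continuous_jac : Continuous (C.jac h1) :=
  continuous_iff_continuousAt.2 fun _ => continuousAt_det3
    (((C.contDiff_X h1).continuous.sub continuous_const).continuousAt)
    ((C.data h1 0).smooth1.continuous.continuousAt)
    ((C.data h1 0).smooth2.continuous.continuousAt)

/-- Positivity of the determinant above the point. -/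
theorem jac_pos {s t : ℝ} (hI : (C.B s t).imI = 0) (hJ : (C.B s t).imJ = 0)
    (ha : (C.B s t).re < 0) (hd : 0 < (C.B s t).imK) : 0 < C.jac h1 (s, t) := by
  have hpos := C.one_add_re_pos h1 s t
  obtain ⟨a0, a1⟩ := C.X1_axis h1 0 hI hJ
  obtain ⟨b0, b1⟩ := C.X2_axis h1 0 hI hJ
  have y0 : (C.X (s, t) - sigma qk) 0 = 0 := by
    rw [PiLp.sub_apply, sigma_qk, X, sigma_zero]
    simp [hI]
  have y1 : (C.X (s, t) - sigma qk) 1 = 0 := by
    rw [PiLp.sub_apply, sigma_qk, X, sigma_one]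
    simp [hJ]
  have y2 : (C.X (s, t) - sigma qk) 2 = (C.B s t).imK / (1 + (C.B s t).re) - 1 := by
    rw [PiLp.sub_apply, sigma_qk, X, sigma_two]
    simp
  have hn := unit_eq (C.norm_B s t)
  rw [hI, hJ] at hn
  have hgt : 0 < (C.B s t).imK / (1 + (C.B s t).re) - 1 := by
    rw [sub_pos, lt_div_iff₀ hpos]
    by_contra hcon
    push Not at hcon
    nlinarith
  rw [jac, det3, y0, y1, y2, a0, a1, b0, b1]
  have r1 := C.x_imJ s
  have r2 := C.x_imJ t
  have e : (0 : ℝ) * ((C.data h1 0).X1 (s, t) 1 * (C.data h1 0).X2 (s, t) 2 -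
      (C.data h1 0).X1 (s, t) 2 * (C.data h1 0).X2 (s, t) 1) = 0 := zero_mul _
  have main : -((C.x s).imJ * (C.B s t).imK) / (1 + (C.B s t).re) *
      ((C.x t).imJ * (C.B s t).re / (1 + (C.B s t).re)) -
      -((C.x s).imJ * (C.B s t).re) / (1 + (C.B s t).re) *
      (-((C.x t).imJ * (C.B s t).imK) / (1 + (C.B s t).re)) =
      2 * ((C.x s).imJ * (C.x t).imJ) * ((-(C.B s t).re) * (C.B s t).imK) /
        (1 + (C.B s t).re) ^ 2 := by
    field_simp
    ring
  rw [main]
  simp only [zero_mul, sub_zero, zero_add]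
  apply mul_pos hgt
  apply div_pos _ (by positivity)
  apply mul_pos (by positivity)
  exact mul_pos (by linarith) hd

include h1 hk in
/-- There is a point of the box above the base point. -/
theorem exists_above : ∃ p ∈ Icc ((0 : ℝ), (0 : ℝ)) (C.L, C.L),
    (C.B p.1 p.2).imI = 0 ∧ (C.B p.1 p.2).imJ = 0 ∧ (C.B p.1 p.2).re < 0 ∧
      0 < (C.B p.1 p.2).imK := by
  have hk' : ∀ s t, C.B s t ≠ -qk := by
    intro s t h
    have := C.star_B s t
    rw [h, star_neg, star_qk, neg_neg] at this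
    exact hk t s this.symm
  -- existence somewhere in the plane
  obtain ⟨s, t, hI, hJ, hre, hK⟩ : ∃ s t, (C.B s t).imI = 0 ∧ (C.B s t).imJ = 0 ∧
      (C.B s t).re < 0 ∧ 0 < (C.B s t).imK := by
    obtain ⟨s, t, hI, hJ, hre⟩ := C.exists_loop
    have hn := unit_eq (C.norm_B s t)
    rw [hI, hJ] at hn
    have hre' : (C.B s t).re < 0 := by
      rcases hre.lt_or_eq with h | h
      · exact h
      · exfalso
        rw [h] at hn
        have : (C.B s t).imK = 1 ∨ (C.B s t).imK = -1 := by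
          have h3 : ((C.B s t).imK - 1) * ((C.B s t).imK + 1) = 0 := by nlinarith
          rcases mul_eq_zero.1 h3 with h4 | h4
          · left; linarith
          · right; linarith
        rcases this with h2 | h2
        · apply hk s t
          ext <;> simp [qk_re, qk_imI, qk_imJ, qk_imK, hI, hJ, h, h2]
        · apply hk' s t
          ext <;> simp [qk_re, qk_imI, qk_imJ, qk_imK, hI, hJ, h, h2]
    have hK0 : (C.B s t).imK ≠ 0 := by
      intro h
      rw [h] at hn
      apply h1 s t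
      have : (C.B s t).re = -1 := by nlinarith
      exact re_eq_neg_one (C.norm_B s t) this
    rcases lt_or_gt_of_ne hK0 with h | h
    · refine ⟨t, s, ?_, ?_, ?_, ?_⟩
      · rw [← C.star_B s t]; simp [hI]
      · rw [← C.star_B s t]; simp [hJ]
      · rw [← C.star_B s t]; simpa using hre'
      · rw [← C.star_B s t]; simpa using h
    · exact ⟨s, t, hI, hJ, hre', h⟩
  have p1 : Function.Periodic (fun s => C.B s t) C.L := fun s => C.B_per_left s t
  obtain ⟨s', hs', hs''⟩ := p1.exists_mem_Ico₀ C.hL s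
  have p2 : Function.Periodic (fun t => C.B s' t) C.L := fun t => C.B_per_right s' t
  obtain ⟨t', ht', ht''⟩ := p2.exists_mem_Ico₀ C.hL t
  refine ⟨(s', t'), ⟨⟨hs'.1, ht'.1⟩, ⟨hs'.2.le, ht'.2.le⟩⟩, ?_⟩
  have hB : C.B s t = C.B s' t' := hs''.trans ht''
  rw [← hB]
  exact ⟨hI, hJ, hre, hK⟩

include h1 hk in
theorem X_ne (p : ℝ × ℝ) : C.X p - sigma qk ≠ 0 := by
  intro h
  have h2 := sub_eq_zero.1 h
  exact hk p.1 p.2 (sigma_inj (C.norm_B _ _) norm_qk (C.one_add_re_pos h1 _ _)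
    (by rw [qk_re]; norm_num) h2)

include hk in
/-- Choice of the opening parameter. -/
theorem exists_kappa : ∃ κ : ℝ, 0 ≤ κ ∧ κ < 1 ∧ ∀ p ∈ Icc ((0 : ℝ), (0 : ℝ)) (C.L, C.L),
    C.jac h1 p ≤ 0 → (C.X p - sigma qk) 2 / ‖C.X p - sigma qk‖ ≤ κ := by
  set K : Set (ℝ × ℝ) := Icc ((0 : ℝ), (0 : ℝ)) (C.L, C.L) ∩ {p | C.jac h1 p ≤ 0} with hK
  rcases K.eq_empty_or_nonempty with he | hne
  · refine ⟨0, le_refl _, zero_lt_one, fun p hp hj => ?_⟩
    have : p ∈ K := ⟨hp, hj⟩
    rw [he] at this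
    exact absurd this (notMem_empty p)
  · have hKc : IsCompact K :=
      (C.data h1 0).isCompact_box.inter_right (isClosed_le (C.continuous_jac h1) continuous_const)
    have hYc : Continuous (fun p => C.X p - sigma qk) :=
      (C.contDiff_X h1).continuous.sub continuous_const
    have hc : Continuous (fun p => (C.X p - sigma qk) 2 / ‖C.X p - sigma qk‖) := by
      apply Continuous.div
      · exact ((EuclideanSpace.proj 2 : E3 →L[ℝ] ℝ).continuous.comp hYc)
      · exact hYc.norm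
      · exact fun p => norm_ne_zero_iff.2 (C.X_ne h1 hk p)
    obtain ⟨p0, hp0, hmax⟩ := hKc.exists_isMaxOn hne hc.continuousOn
    refine ⟨max 0 ((C.X p0 - sigma qk) 2 / ‖C.X p0 - sigma qk‖), le_max_left _ _, ?_, ?_⟩
    · apply max_lt zero_lt_one
      apply ratio_lt_one
      rintro ⟨y0, y1, y2⟩
      have hpos := C.one_add_re_pos h1 p0.1 p0.2
      rw [PiLp.sub_apply, sigma_qk] at y0 y1 y2
      simp only [X, sigma_zero, sigma_one, sigma_two] at y0 y1 y2
      simp only [PiLp.single_apply, Fin.reduceEq, if_false, if_true, sub_zero,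
        sub_pos] at y0 y1 y2
      have hI : (C.B p0.1 p0.2).imI = 0 := by
        rcases div_eq_zero_iff.1 y0 with h | h
        · exact h
        · exact absurd h hpos.ne'
      have hJ : (C.B p0.1 p0.2).imJ = 0 := by
        rcases div_eq_zero_iff.1 y1 with h | h
        · exact h
        · exact absurd h hpos.ne'
      rw [lt_div_iff₀ hpos, one_mul] at y2
      have hn := unit_eq (C.norm_B p0.1 p0.2)
      rw [hI, hJ] at hn
      have hK0 : 0 < (C.B p0.1 p0.2).imK := by linarith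
      have hre : (C.B p0.1 p0.2).re < 0 := by
        by_contra hcon
        push Not at hcon
        nlinarith
      have := C.jac_pos h1 hI hJ hre hK0
      exact absurd hp0.2 (not_le.2 this)
    · intro p hp hj
      exact (hmax (show p ∈ K from ⟨hp, hj⟩)).trans (le_max_right _ _)

include hk in
theorem Omega_pos {κ : ℝ} (hκ1 : κ < 1)
    (hκ : ∀ p ∈ Icc ((0 : ℝ), (0 : ℝ)) (C.L, C.L),
      C.jac h1 p ≤ 0 → (C.X p - sigma qk) 2 / ‖C.X p - sigma qk‖ ≤ κ) :
    0 < (C.data h1 κ).Omega (sigma qk) := by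
  have e : (C.data h1 κ).Omega (sigma qk) = ∫ p in Icc ((0 : ℝ), (0 : ℝ)) (C.L, C.L),
      Psi κ (C.X p - sigma qk) * C.jac h1 p := rfl
  rw [e]
  have hYc : Continuous (fun p => C.X p - sigma qk) :=
    (C.contDiff_X h1).continuous.sub continuous_const
  have hPc : Continuous (fun p => Psi κ (C.X p - sigma qk)) :=
    continuous_iff_continuousAt.2 fun p =>
      ContinuousAt.comp (g := Psi κ) (f := fun p => C.X p - sigma qk)
        (Psi_contDiffAt κ (C.X_ne h1 hk p)).continuousAt hYc.continuousAt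
  have hFc : Continuous (fun p => Psi κ (C.X p - sigma qk) * C.jac h1 p) :=
    hPc.mul (C.continuous_jac h1)
  rw [setIntegral_pos_iff_support_of_nonneg_ae]
  · obtain ⟨p0, hp0, hI, hJ, hre, hK⟩ := C.exists_above h1 hk
    have hj := C.jac_pos h1 hI hJ hre hK
    have hsupp : p0 ∈ Function.support (fun p => Psi κ (C.X p - sigma qk) * C.jac h1 p) := by
      rw [Function.mem_support]
      have hpos := C.one_add_re_pos h1 p0.1 p0.2
      have y0 : (C.X p0 - sigma qk) 0 = 0 := by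
        rw [PiLp.sub_apply, sigma_qk, X, sigma_zero]
        simp [hI]
      have y1 : (C.X p0 - sigma qk) 1 = 0 := by
        rw [PiLp.sub_apply, sigma_qk, X, sigma_one]
        simp [hJ]
      have y2 : 0 < (C.X p0 - sigma qk) 2 := by
        rw [PiLp.sub_apply, sigma_qk, X, sigma_two]
        simp only [PiLp.single_apply, if_true, sub_pos]
        have hn := unit_eq (C.norm_B p0.1 p0.2)
        rw [hI, hJ] at hn
        rw [lt_div_iff₀ hpos]
        by_contra hcon
        push Not at hcon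
        nlinarith
      have hr := ratio_eq_one y0 y1 y2
      have hPp : 0 < Psi κ (C.X p0 - sigma qk) :=
        Psi_pos (C.X_ne h1 hk p0) (by rw [hr]; exact hκ1)
      exact (mul_pos hPp hj).ne'
    have hopen : IsOpen (Function.support (fun p => Psi κ (C.X p - sigma qk) * C.jac h1 p)) :=
      hFc.isOpen_support
    have hcl : p0 ∈ closure (Ioo (0 : ℝ) C.L ×ˢ Ioo (0 : ℝ) C.L) := by
      rw [closure_prod_eq, closure_Ioo C.hL.ne]
      exact ⟨⟨hp0.1.1, hp0.2.1⟩, ⟨hp0.1.2, hp0.2.2⟩⟩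
    obtain ⟨p1, hp1, hp1'⟩ := mem_closure_iff.1 hcl _ hopen hsupp
    have hpos : 0 < volume (Function.support (fun p => Psi κ (C.X p - sigma qk) * C.jac h1 p) ∩
        (Ioo (0 : ℝ) C.L ×ˢ Ioo (0 : ℝ) C.L)) :=
      (hopen.inter (isOpen_Ioo.prod isOpen_Ioo)).measure_pos volume ⟨p1, hp1, hp1'⟩
    refine lt_of_lt_of_le hpos (measure_mono (inter_subset_inter_right _ ?_))
    rintro ⟨s, t⟩ ⟨hs, ht⟩
    exact ⟨⟨hs.1.le, ht.1.le⟩, ⟨hs.2.le, ht.2.le⟩⟩
  · refine (ae_restrict_iff' measurableSet_Icc).2 (Filter.Eventually.of_forall fun p hp => ?_)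
    show 0 ≤ Psi κ (C.X p - sigma qk) * C.jac h1 p
    rcases le_or_gt (C.jac h1 p) 0 with h | h
    · rw [Psi_supp (hκ p hp h), zero_mul]
    · exact mul_nonneg (Psi_nonneg _ _) h.le
  · exact hFc.continuousOn.integrableOn_compact (C.data h1 0).isCompact_box

include h1 hk in
/-- Separation of `k` from minus one by the difference set of a curve. -/
theorem separation : ∃ P Q : Set ℍ[ℝ], IsOpen P ∧ IsOpen Q ∧
    (∀ q, ‖q‖ = 1 → (∀ s t, C.B s t ≠ q) → q ∈ P ∨ q ∈ Q) ∧
    (∀ q, ‖q‖ = 1 → q ∈ P → q ∉ Q) ∧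
    qk ∈ P ∧ -1 ∈ Q := by
  obtain ⟨κ, hκ0, hκ1, hκ⟩ := C.exists_kappa h1 hk
  have hpos := C.Omega_pos h1 hk hκ1 hκ
  set D := C.data h1 κ with hD
  have hDX : D.X = C.X := rfl
  obtain ⟨R, hR⟩ := D.isCompact_range.isBounded.exists_norm_le
  have hR0 : 0 ≤ R := (norm_nonneg _).trans (hR (D.X (0, 0)) ⟨_, rfl⟩)
  have hfar : ∀ g : E3, R < ‖g‖ → D.Omega g = 0 := fun g hg =>
    D.Omega_far (fun y hy => Psi_supp' hκ0 hy) hR0 (fun p => hR _ ⟨p, rfl⟩) g hg
  set ε : ℝ := (R ^ 2 + 1)⁻¹ with hε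
  have hε0 : 0 < ε := by positivity
  have hσ : ∀ q : ℍ[ℝ], ‖q‖ = 1 → -1 < q.re → q.re < -1 + ε → R < ‖sigma q‖ := by
    intro q hq h2 h3
    have h4 := sigma_norm hq (by linarith)
    have hε1 : ε ≤ 1 := by
      rw [hε]; apply inv_le_one_of_one_le₀; nlinarith [sq_nonneg R]
    have h5 : R ^ 2 < ‖sigma q‖ ^ 2 := by
      rw [h4, lt_div_iff₀ (by linarith)]
      have h6 : (1 + q.re) * (R ^ 2 + 1) < 1 := by
        have : (1 + q.re) < (R ^ 2 + 1)⁻¹ := by linarith
        calc (1 + q.re) * (R ^ 2 + 1) < (R ^ 2 + 1)⁻¹ * (R ^ 2 + 1) := by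
              apply mul_lt_mul_of_pos_right this (by positivity)
          _ = 1 := inv_mul_cancel₀ (by positivity)
      nlinarith
    exact lt_of_pow_lt_pow_left₀ 2 (norm_nonneg _) h5
  have hσc : ContinuousOn sigma {q : ℍ[ℝ] | -1 < q.re} := by
    intro q hq
    apply (sigma_continuousAt _).continuousWithinAt
    have : -1 < q.re := hq
    linarith
  have hre : IsOpen {q : ℍ[ℝ] | -1 < q.re} := isOpen_lt continuous_const Quaternion.continuous_re
  refine ⟨{q : ℍ[ℝ] | -1 < q.re} ∩ sigma ⁻¹' {g | g ∉ range D.X ∧ D.Omega g ≠ 0},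
    {q : ℍ[ℝ] | q.re < -1 + ε} ∪ ({q : ℍ[ℝ] | -1 < q.re} ∩
      sigma ⁻¹' {g | g ∉ range D.X ∧ D.Omega g = 0}), ?_, ?_, ?_, ?_, ?_, ?_⟩
  · exact hσc.isOpen_inter_preimage hre D.isOpen_ne_zero
  · exact (isOpen_lt Quaternion.continuous_re continuous_const).union
      (hσc.isOpen_inter_preimage hre D.isOpen_zero)
  · intro q hq hB
    rcases eq_or_ne q (-1) with h | h
    · right; left
      show q.re < -1 + ε
      rw [h]
      simpa using hε0
    · have h2 := re_gt hq h
      have h3 : -1 < q.re := by linarith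
      have h4 : sigma q ∉ range D.X := by
        rintro ⟨p, hp⟩
        rw [hDX] at hp
        exact hB p.1 p.2 (sigma_inj (C.norm_B _ _) hq (C.one_add_re_pos h1 _ _) h2 hp)
      rcases eq_or_ne (D.Omega (sigma q)) 0 with h5 | h5
      · right; right; exact ⟨h3, h4, h5⟩
      · left; exact ⟨h3, h4, h5⟩
  · rintro q hq ⟨h2, h3, h4⟩ h5
    rcases h5 with h5 | h5
    · exact h4 (hfar _ (hσ q hq h2 h5))
    · exact h4 h5.2.2
  · refine ⟨?_, ?_, hpos.ne'⟩
    · show -1 < qk.re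
      rw [qk_re]; norm_num
    · rintro ⟨p, hp⟩
      exact C.X_ne h1 hk p (sub_eq_zero.2 hp)
  · left
    show (-1 : ℍ[ℝ]).re < -1 + ε
    simpa using hε0

end SpinCurve

end Pool.Agent.Helper253
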